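import Pool.Agent.Helper60.CXT.FR4
import Pool.Agent.Helper94.CXT.FIN2
import Pool.Agent.Helper6.CXT.BX5

/-!
Far cells of tail classes: the far cell from the checks of a class, no hypothesis left.
-/

set_option autoImplicit false
noncomputable section
namespace Pool.Agent.Helper60.CXT

open Pool.Agent.Helper6.MONO.QTR (Far)
open Pool.Agent.Helper48.CXT
open Pool.Agent.Helper48.CXT.KC (PT)

theorem ffst : FFst := fun H hS hC => Pool.Agent.Helper94.CXT.ff_ofT H hS hC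

/-- THE FAR CELL from the checks of a tail class -/
theorem far_T {p q r P Q R : ℕ} {b0 : KT.Bx} (C0 : Cls p q r P Q R b0) {t : KT.Tr (List PT)}
    (h : KC.cCT p q r t b0 = true) {x0 : ℝ} (hx0 : (b0.r0 : ℝ) ≤ 2 ^ 48 * x0 + 2 ^ 50)
    (hx1 : 2 ^ 48 * x0 + 2 ^ 50 ≤ b0.r1) (h2 : -2 < x0) (h2' : x0 ≤ 2) : Far P Q R x0 8 :=
  far_of_cCT Pool.Agent.Helper6.CXT.boxP Pool.Agent.Helper6.CXT.boxB ffst C0 h hx0 hx1 h2 h2'

end Pool.Agent.Helper60.CXT
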