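import Pool.Agent.Helper60.CXT.Ct1

/-!
Far cells of tail classes, row CONT: short runs and reference vectors.
-/

set_option autoImplicit false
noncomputable section
namespace Pool.Agent.Helper60.CXT

open Pool.Agent.Helper94.CXF (M9)
open Pool.Agent.Helper94.CXF hiding cmb
open Pool.Agent.Helper94.CXF.SD
open Pool.Agent.Helper48.CXT

/-- rounding and interpolation for one family -/
def IntP (T : ℝ → ℝ → ℝ → P9) (c1 c2 c3 : ℕ) : Prop :=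
  ∀ {t1 t2 t3 v1 v2 v3 : ℝ} {a1 b1 a2 b2 a3 b3 : ℕ}, Dr t1 a1 b1 v1 xx → Dr t2 a2 b2 v2 xx →
    Dr t3 a3 b3 v3 xx → ∃ B : P9,
      Eb (T v1 v2 v3).1 (it3 t1 t2 t3 fun c1 c2 c3 =>
        T (kp a1 b1 c1) (kp a2 b2 c2) (kp a3 b3 c3)).1 B.1 ∧
      Eb (T v1 v2 v3).2 (it3 t1 t2 t3 fun c1 c2 c3 =>
        T (kp a1 b1 c1) (kp a2 b2 c2) (kp a3 b3 c3)).2 B.2 ∧
      gB B ≤ (1024 + (c1 : ℝ) / 8 * PP a1 b1 + (c2 : ℝ) / 8 * PP a2 b2 +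
        (c3 : ℝ) / 8 * PP a3 b3) ^ 2

theorem sl_rg {a b : ℕ} (h0 : 2 ^ 48 ≤ a) (h1 : a ≤ b) (c : Bool) : 2 ^ 48 ≤ sl a b c := by
  cases c
  · exact h0
  · exact h0.trans h1

theorem famP_id {T : ℝ → ℝ → ℝ → P9} {F : ℕ → ℕ → ℕ → KT.MP} {c1 c2 c3 : ℕ} (h1 : c1 ≤ 2 ^ 6)
    (h2 : c2 ≤ 2 ^ 6) (h3 : c3 ≤ 2 ^ 6)
    (hok : ∀ {x y z : ℝ} {xN yN zN : ℕ}, 1 ≤ x → Ap 1 2 x xN → Ap 1 2 y yN → Ap 1 2 z zN →
      (∃ Z, OkT (T x y z).1 (F xN yN zN).1 Z) ∧ (∃ Z, OkT (T x y z).2 (F xN yN zN).2 Z))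
    (hB : IntP T c1 c2 c3) : FamP id T F c1 c2 c3 := by
  intro b hb v1 v2 v3 R hv
  refine ⟨dT_le h1 h2 h3 ?_ ?_ ?_, ?_⟩
  · have := hb.a1
    have := hb.b1
    change b.b1 - b.a1 ≤ _
    omega
  · have := hb.a2
    have := hb.b2
    change b.b2 - b.a2 ≤ _
    omega
  · have := hb.a3
    have := hb.b3
    change b.b3 - b.a3 ≤ _
    omega
  obtain ⟨t1, d1⟩ := dir_of hv.v1 hb.a1 hb.c1 hb.b1
  obtain ⟨t2, d2⟩ := dir_of hv.v2 hb.a2 hb.c2 hb.b2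
  obtain ⟨t3, d3⟩ := dir_of hv.v3 hb.a3 hb.c3 hb.b3
  have hc := fun e1 e2 e3 => hok (d1.k0 e1) (ap_kp hb.a1 hb.c1 hb.b1 e1) (ap_kp hb.a2 hb.c2 hb.b2 e2)
    (ap_kp hb.a3 hb.c3 hb.b3 e3)
  have hz1 := fun e1 e2 e3 => (hc e1 e2 e3).1
  have hz2 := fun e1 e2 e3 => (hc e1 e2 e3).2
  choose Z1 hZ1 using hz1
  choose Z2 hZ2 using hz2
  obtain ⟨B, hB1, hB2, hB3⟩ := hB d1 d2 d3
  refine ⟨fun e1 e2 e3 => (Z1 e1 e2 e3, Z2 e1 e2 e3), fun e1 e2 e3 =>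
    ⟨(hZ1 e1 e2 e3).rep, (hZ2 e1 e2 e3).rep, (hZ1 e1 e2 e3).bd, (hZ2 e1 e2 e3).bd⟩,
    t1, t2, t3, d1.t01, d2.t01, d3.t01, ?_⟩
  refine (nearR d1.t01 d2.t01 d3.t01 (W := fun e1 e2 e3 => rP (Z1 e1 e2 e3, Z2 e1 e2 e3))
    (fun e1 e2 e3 => (hZ1 e1 e2 e3).near) (fun e1 e2 e3 => (hZ2 e1 e2 e3).near) hB1 hB2).trans
    (hB3.trans ?_)
  have hd := dT_ge c1 c2 c3 b hb.c1 hb.c2 hb.c3
  have p1 := PP0 b.a1 b.b1
  have p2 := PP0 b.a2 b.b2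
  have p3 := PP0 b.a3 b.b3
  exact pow_le_pow_left₀ (by positivity) hd 2

theorem famH {T : ℝ → ℝ → P9} {F : ℕ → ℕ → KT.MP} {c1 c2 c3 : ℕ}
    (h : FamP id (fun k _ g => T k g) (fun k _ g => F k g) c1 c2 c3) :
    FamP KT.dvH (fun k _ g => T k g) (fun k _ g => F k g) c1 c2 c3 := by
  intro b hb v1 v2 v3 R hv
  have hb' : Rg (KT.dvH b) :=
    ⟨hb.a1, hb.a2, hb.a3, hb.b1, hb.c2.trans hb.b2, hb.b3, hb.c1, le_refl _, hb.c3, hb.r, hb.r1⟩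
  have hv' : InB (KT.dvH b) v1 ((b.a2 : ℝ) / 2 ^ 48) v3 R := by
    refine ⟨hv.v1, Or.inr ⟨le_of_eq ?_, le_of_eq ?_⟩, hv.v3, hv.r0, hv.r1⟩
    · change (b.a2 : ℝ) = _
      ring
    · change _ = (b.a2 : ℝ)
      ring
  exact h (KT.dvH b) hb' v1 ((b.a2 : ℝ) / 2 ^ 48) v3 R hv'

theorem m9_ext {A B : M9 ℝ} (a : A.a = B.a) (b : A.b = B.b) (c : A.c = B.c) (d : A.d = B.d)
    (e : A.e = B.e) (f : A.f = B.f) (g : A.g = B.g) (h : A.h = B.h) (i : A.i = B.i) : A = B := by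
  cases A
  cases B
  simp_all

theorem z_er : (2 : ℝ) ^ 48 * |(0 : ℝ) - 0| ≤ 0 := by simp

theorem c_er (c : ℝ) : (2 : ℝ) ^ 48 * |c - c| ≤ 0 := by simp

theorem int_pp : IntP (fun k h g => TPp k h g) 3 0 0 := by
  intro t1 t2 t3 v1 v2 v3 a1 b1 a2 b2 a3 b3 d1 d2 d3
  have k1 := d1.c1
  have k2 := d1.c2
  have h1 := d2.c1
  have g1 := d3.c1
  have e : (it3 t1 t2 t3 fun c1 c2 c3 => TPp (kp a1 b1 c1) (kp a2 b2 c2) (kp a3 b3 c3)) =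
      (⟨m1 t1 a1 b1 * m1 t3 a3 b3, -m1 t1 a1 b1, 0, 0, 0, 0, m1 t3 a3 b3, -1, 0⟩,
        ⟨m1 t2 a2 b2, 0, m2 t1 a1 b1 - 1, 1, 0, 0, 0, 0, m1 t1 a1 b1⟩) := by
    refine Prod.ext (m9_ext ?_ ?_ ?_ ?_ ?_ ?_ ?_ ?_ ?_) (m9_ext ?_ ?_ ?_ ?_ ?_ ?_ ?_ ?_ ?_) <;>
      simp only [it3, it1, cmb, cm1, TPp, m1, m2, i1] <;> ring
  rw [e]
  have p1 := PP0 a1 b1
  generalize PP a1 b1 = P1 at *
  generalize PP a2 b2 = P2 at *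
  generalize PP a3 b3 = P3 at *
  refine ⟨(⟨_, _, _, _, _, _, _, _, _⟩, ⟨_, _, _, _, _, _, _, _, _⟩),
    ⟨(k1.mul g1).er, k1.neg.er, z_er, z_er, z_er, z_er, g1.er, c_er _, z_er⟩,
    ⟨h1.er, z_er, (k2.sub Cl.one).er, c_er _, z_er, z_er, z_er, z_er, k1.er⟩, ?_⟩
  simp only [gB, sB, xx]
  linarith [mul_nonneg p1 p1]

theorem int_np : IntP (fun k _ g => TNp k g) 0 0 0 := by
  intro t1 t2 t3 v1 v2 v3 a1 b1 a2 b2 a3 b3 d1 d2 d3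
  have k1 := d1.c1
  have g1 := d3.c1
  have e : (it3 t1 t2 t3 fun c1 c2 c3 => TNp (kp a1 b1 c1) (kp a3 b3 c3)) =
      (⟨m1 t3 a3 b3, -1, 0, 0, 0, 0, 1, 0, 0⟩, ⟨0, 0, m1 t1 a1 b1, 0, 0, 1, 0, 0, 0⟩) := by
    refine Prod.ext (m9_ext ?_ ?_ ?_ ?_ ?_ ?_ ?_ ?_ ?_) (m9_ext ?_ ?_ ?_ ?_ ?_ ?_ ?_ ?_ ?_) <;>
      simp only [it3, it1, cmb, cm1, TNp, m1, i1] <;> ring
  rw [e]
  refine ⟨(⟨_, _, _, _, _, _, _, _, _⟩, ⟨_, _, _, _, _, _, _, _, _⟩),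
    ⟨g1.er, c_er _, z_er, z_er, z_er, z_er, c_er _, z_er, z_er⟩,
    ⟨z_er, z_er, k1.er, z_er, z_er, c_er _, z_er, z_er, z_er⟩, ?_⟩
  simp only [gB, sB]
  norm_num

theorem int_nm : IntP (fun k _ g => (TNm k g, z9)) 0 0 12 := by
  intro t1 t2 t3 v1 v2 v3 a1 b1 a2 b2 a3 b3 d1 d2 d3
  have k1 := d1.c1
  have g1 := d3.c1
  have g2 := d3.c2
  have e : (it3 t1 t2 t3 fun c1 c2 c3 => (TNm (kp a1 b1 c1) (kp a3 b3 c3), z9)) =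
      (⟨m2 t3 a3 b3, m1 t3 a3 b3 * m1 t1 a1 b1, -m1 t3 a3 b3, 1, 0, 0, -m2 t3 a3 b3, 0,
        m1 t3 a3 b3⟩, ⟨0, 0, 0, 0, 0, 0, 0, 0, 0⟩) := by
    refine Prod.ext (m9_ext ?_ ?_ ?_ ?_ ?_ ?_ ?_ ?_ ?_) (m9_ext ?_ ?_ ?_ ?_ ?_ ?_ ?_ ?_ ?_) <;>
      simp only [it3, it1, cmb, cm1, TNm, z9, m1, m2, i1] <;> ring
  rw [e]
  have p3 := PP0 a3 b3
  generalize PP a1 b1 = P1 at *
  generalize PP a2 b2 = P2 at *
  generalize PP a3 b3 = P3 at *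
  refine ⟨(⟨_, _, _, _, _, _, _, _, _⟩, ⟨_, _, _, _, _, _, _, _, _⟩),
    ⟨g2.er, (g1.mul k1).er, g1.neg.er, c_er _, z_er, z_er, g2.neg.er, z_er, g1.er⟩,
    ⟨z_er, z_er, z_er, z_er, z_er, z_er, z_er, z_er, z_er⟩, ?_⟩
  simp only [gB, sB, xx]
  linarith [mul_nonneg p3 p3]

theorem int_ty (o : Bool) (a b : ℝ) (ha : |a| ≤ 7 / 10) (hb : |b| ≤ 2) :
    IntP (fun k h g => TYr o k h g a b) 21 0 12 := by
  intro t1 t2 t3 v1 v2 v3 a1 b1 a2 b2 a3 b3 d1 d2 d3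
  have k1 := d1.c1
  have k2 := d1.c2
  have h1 := d2.c1
  have g1 := d3.c1
  have g2 := d3.c2
  have A := Cl.const ha
  have B := Cl.const hb
  have p1 := PP0 a1 b1
  have p3 := PP0 a3 b3
  have q1 := (k2.mul g1).congr (x' := v1 * (v1 * v3)) (by ring) rfl
  have q2 := ((A.mul (k2.mul g2)).smul (c := 1 / 2) (by norm_num)).congr
    (x' := a * (v1 * v1 * (v3 * v3)) / 2 ^ 1) (y' := a * (m2 t1 a1 b1 * m2 t3 a3 b3) / 2)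
    (by ring) (by ring)
  have q3 := B.mul (h1.mul g1)
  have q4 := (h1.mul k1).smul (c := 2) (by norm_num)
  have q5 := ((A.mul (k1.mul (h1.mul g1))).add ((B.mul (k1.mul (h1.mul g1))).smul (c := 1 / 2)
    (by norm_num))).congr (x' := a * (v1 * (v2 * v3)) + b * (v1 * (v2 * v3)) / 2 ^ 1)
      (y' := a * (m1 t1 a1 b1 * (m1 t2 a2 b2 * m1 t3 a3 b3)) +
        b * (m1 t1 a1 b1 * (m1 t2 a2 b2 * m1 t3 a3 b3)) / 2) (by ring) (by ring)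
  cases o
  · have e : (it3 t1 t2 t3 fun c1 c2 c3 =>
        TYr false (kp a1 b1 c1) (kp a2 b2 c2) (kp a3 b3 c3) a b) =
        (⟨m2 t1 a1 b1 * m1 t3 a3 b3, 0, 0, a * (m2 t1 a1 b1 * m2 t3 a3 b3) / 2, 0, 0,
          b * (m1 t2 a2 b2 * m1 t3 a3 b3), 0, 0⟩,
        ⟨2 * (m1 t2 a2 b2 * m1 t1 a1 b1), 0, 0,
          a * (m1 t1 a1 b1 * (m1 t2 a2 b2 * m1 t3 a3 b3)) +
            b * (m1 t1 a1 b1 * (m1 t2 a2 b2 * m1 t3 a3 b3)) / 2, 0, 0, 0, 0, 0⟩) := by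
      refine Prod.ext (m9_ext ?_ ?_ ?_ ?_ ?_ ?_ ?_ ?_ ?_) (m9_ext ?_ ?_ ?_ ?_ ?_ ?_ ?_ ?_ ?_) <;>
        simp only [it3, it1, cmb, cm1, TYr, m1, m2, i1, Bool.false_eq_true, if_false] <;> ring
    rw [e]
    generalize PP a1 b1 = P1 at *
    generalize PP a2 b2 = P2 at *
    generalize PP a3 b3 = P3 at *
    refine ⟨(⟨_, _, _, _, _, _, _, _, _⟩, ⟨_, _, _, _, _, _, _, _, _⟩),
      ⟨q1.er, z_er, z_er, q2.er, z_er, z_er, q3.er, z_er, z_er⟩,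
      ⟨q4.er, z_er, z_er, q5.er, z_er, z_er, z_er, z_er, z_er⟩, ?_⟩
    simp only [gB, sB, xx]
    linarith [mul_nonneg p1 p1, mul_nonneg p1 p3, mul_nonneg p3 p3]
  · have e : (it3 t1 t2 t3 fun c1 c2 c3 =>
        TYr true (kp a1 b1 c1) (kp a2 b2 c2) (kp a3 b3 c3) a b) =
        (⟨2 * (m1 t2 a2 b2 * m1 t1 a1 b1), 0, 0, b * (m1 t2 a2 b2 * m1 t3 a3 b3), 0, 0,
          a * (m1 t1 a1 b1 * (m1 t2 a2 b2 * m1 t3 a3 b3)) +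
            b * (m1 t1 a1 b1 * (m1 t2 a2 b2 * m1 t3 a3 b3)) / 2, 0, 0⟩,
        ⟨m2 t1 a1 b1 * m1 t3 a3 b3, 0, 0, 0, 0, 0,
          a * (m2 t1 a1 b1 * m2 t3 a3 b3) / 2, 0, 0⟩) := by
      refine Prod.ext (m9_ext ?_ ?_ ?_ ?_ ?_ ?_ ?_ ?_ ?_) (m9_ext ?_ ?_ ?_ ?_ ?_ ?_ ?_ ?_ ?_) <;>
        simp only [it3, it1, cmb, cm1, TYr, m1, m2, i1, if_true] <;> ring
    rw [e]
    generalize PP a1 b1 = P1 at *
    generalize PP a2 b2 = P2 at *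
    generalize PP a3 b3 = P3 at *
    refine ⟨(⟨_, _, _, _, _, _, _, _, _⟩, ⟨_, _, _, _, _, _, _, _, _⟩),
      ⟨q4.er, z_er, z_er, q3.er, z_er, z_er, q5.er, z_er, z_er⟩,
      ⟨q1.er, z_er, z_er, z_er, z_er, z_er, q2.er, z_er, z_er⟩, ?_⟩
    simp only [gB, sB, xx]
    linarith [mul_nonneg p1 p1, mul_nonneg p1 p3, mul_nonneg p3 p3]

theorem i1_cst {t : ℝ} (c : ℝ) : i1 t (fun _ => c) = c := by
  unfold i1
  ring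

/-- `g² / 4 - 1` -/
theorem Dr.cl {t v : ℝ} {a b : ℕ} (h : Dr t a b v xx) :
    Cl (1 / 4 * (2 * xx + PP a b)) (3 / 4 + 1 / 10 ^ 5) (1 / 4 * (v * v) - 1)
      (1 / 4 * m2 t a b - 1) := by
  have h0 := h.c2.smul (c := 1 / 4) (by norm_num)
  have v0 := h.v0
  have v1 := h.v1
  unfold xx at v1
  refine ⟨?_, ?_, ?_⟩
  · rw [abs_le]
    constructor <;> nlinarith
  · have e : 1 / 4 * m2 t a b - 1 = i1 t fun c => 1 / 4 * (kp a b c * kp a b c) - 1 := by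
      unfold m2 i1
      ring
    rw [e, abs_le]
    constructor
    · refine le_i1 h.t01 fun c => ?_
      have := h.k0 c
      nlinarith
    · refine i1_le h.t01 fun c => ?_
      have := h.k0 c
      have h3 := h.k1 c
      unfold xx at h3
      nlinarith
  · have e : 1 / 4 * (v * v) - 1 - (1 / 4 * m2 t a b - 1) = 1 / 4 * (v * v) - 1 / 4 * m2 t a b := by
      ring
    rw [e]
    exact h0.er

/-- `7 / 20 g³ - g` -/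
theorem Dr.cm {t v : ℝ} {a b : ℕ} (h : Dr t a b v xx) :
    Cl (7 / 20 * (3 * (xx * xx) + 3 * xx * PP a b) + 1) (4 / 5 + 1 / 10 ^ 5)
      (7 / 20 * (v * (v * v)) - v) (7 / 20 * m3 t a b - m1 t a b) := by
  have h0 := (h.c3.smul (c := 7 / 20) (by norm_num)).sub h.c1
  have v0 := h.v0
  have v1 := h.v1
  unfold xx at v1
  have key : ∀ w : ℝ, 1 - 1 / 10 ^ 6 ≤ w → w ≤ 2000001 / 1000000 →
      -(4 / 5 + 1 / 10 ^ 5) ≤ 7 / 20 * (w * (w * w)) - w ∧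
        7 / 20 * (w * (w * w)) - w ≤ 4 / 5 + 1 / 10 ^ 5 := by
    intro w w0 w1
    constructor
    · nlinarith [mul_nonneg (sub_nonneg.2 w0) (sub_nonneg.2 w0)]
    · nlinarith [mul_nonneg (sub_nonneg.2 w0) (sub_nonneg.2 w1)]
  refine ⟨?_, ?_, h0.er⟩
  · exact abs_le.2 (key v v0 v1)
  · have e : 7 / 20 * m3 t a b - m1 t a b =
        i1 t fun c => 7 / 20 * (kp a b c * (kp a b c * kp a b c)) - kp a b c := by
      unfold m3 m1 i1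
      ring
    rw [e, abs_le]
    have h3 := h.k1
    unfold xx at h3
    exact ⟨le_i1 h.t01 fun c => (key _ (by linarith [h.k0 c]) (h3 c)).1,
      i1_le h.t01 fun c => (key _ (by linarith [h.k0 c]) (h3 c)).2⟩

theorem int_tl (o : Bool) : IntP (fun k h g => TLr o k h g) 11 0 9 := by
  intro t1 t2 t3 v1 v2 v3 a1 b1 a2 b2 a3 b3 d1 d2 d3
  have k2 := d1.c2
  have h1 := d2.c1
  have g1 := d3.c1
  have p1 := PP0 a1 b1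
  have p3 := PP0 a3 b3
  have q1 := ((k2.mul g1).smul (c := 1 / 4) (by norm_num)).congr
    (x' := v1 * v1 * v3 / 2 ^ 2) (y' := m2 t1 a1 b1 * m1 t3 a3 b3 / 4) (by ring) (by ring)
  have q2 := h1.smul (c := 4 / 5) (by norm_num)
  have q3 := (k2.mul d3.cl).congr
    (x' := v1 * v1 * (v3 * v3) / 2 ^ 2 - v1 * v1)
    (y' := m2 t1 a1 b1 * m2 t3 a3 b3 / 4 - m2 t1 a1 b1) (by ring) (by ring)
  cases o
  · have e : (it3 t1 t2 t3 fun c1 c2 c3 =>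
        TLr false (kp a1 b1 c1) (kp a2 b2 c2) (kp a3 b3 c3)) =
        (⟨m2 t1 a1 b1, 0, 0, m2 t1 a1 b1 * m1 t3 a3 b3 / 4, 0, 0, 4 / 5 * m1 t2 a2 b2, 0, 0⟩,
        ⟨0, 0, 0, 0, 0, 0, 0, 0, 0⟩) := by
      refine Prod.ext (m9_ext ?_ ?_ ?_ ?_ ?_ ?_ ?_ ?_ ?_) (m9_ext ?_ ?_ ?_ ?_ ?_ ?_ ?_ ?_ ?_) <;>
        simp only [it3, it1, cmb, cm1, TLr, z9, m1, m2, i1, Bool.false_eq_true, if_false] <;> ring
    rw [e]
    generalize PP a1 b1 = P1 at *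
    generalize PP a2 b2 = P2 at *
    generalize PP a3 b3 = P3 at *
    refine ⟨(⟨_, _, _, _, _, _, _, _, _⟩, ⟨_, _, _, _, _, _, _, _, _⟩),
      ⟨k2.er, z_er, z_er, q1.er, z_er, z_er, q2.er, z_er, z_er⟩,
      ⟨z_er, z_er, z_er, z_er, z_er, z_er, z_er, z_er, z_er⟩, ?_⟩
    simp only [gB, sB, xx]
    linarith [mul_nonneg p1 p1, mul_nonneg p1 p3, mul_nonneg p3 p3]
  · have e : (it3 t1 t2 t3 fun c1 c2 c3 =>
        TLr true (kp a1 b1 c1) (kp a2 b2 c2) (kp a3 b3 c3)) =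
        (⟨m2 t1 a1 b1, 0, 0, 4 / 5, 0, 0, m2 t1 a1 b1 * m2 t3 a3 b3 / 4 - m2 t1 a1 b1, 0, 0⟩,
        ⟨0, 0, 0, 0, 0, 0, 0, 0, 0⟩) := by
      refine Prod.ext (m9_ext ?_ ?_ ?_ ?_ ?_ ?_ ?_ ?_ ?_) (m9_ext ?_ ?_ ?_ ?_ ?_ ?_ ?_ ?_ ?_) <;>
        simp only [it3, it1, cmb, cm1, TLr, z9, m2, i1, if_true] <;> ring
    rw [e]
    generalize PP a1 b1 = P1 at *
    generalize PP a2 b2 = P2 at *
    generalize PP a3 b3 = P3 at *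
    refine ⟨(⟨_, _, _, _, _, _, _, _, _⟩, ⟨_, _, _, _, _, _, _, _, _⟩),
      ⟨k2.er, z_er, z_er, c_er _, z_er, z_er, q3.er, z_er, z_er⟩,
      ⟨z_er, z_er, z_er, z_er, z_er, z_er, z_er, z_er, z_er⟩, ?_⟩
    simp only [gB, sB, xx]
    linarith [mul_nonneg p1 p1, mul_nonneg p1 p3, mul_nonneg p3 p3]

theorem int_tly (o : Bool) : IntP (fun k h g => TLYr o k h g) 21 0 48 := by
  intro t1 t2 t3 v1 v2 v3 a1 b1 a2 b2 a3 b3 d1 d2 d3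
  have k1 := d1.c1
  have k2 := d1.c2
  have h1 := d2.c1
  have g1 := d3.c1
  have g2 := d3.c2
  have p1 := PP0 a1 b1
  have p3 := PP0 a3 b3
  have q1 := (k2.mul g1).congr (x' := v1 * (v1 * v3)) (by ring) rfl
  have q2 := (k2.mul g2).smul (c := 7 / 20) (by norm_num)
  have q3 := h1.mul g1
  have q4 := (h1.mul k1).smul (c := 2) (by norm_num)
  have q5 := (k1.mul (h1.mul g1)).smul (c := 6 / 5) (by norm_num)
  have q6 := (((h1.mul k1).mul g2).smul (c := 6 / 5) (by norm_num)).sub q4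
  have q7 := (k2.mul d3.cm).congr
    (x' := 7 / 20 * (v1 * v1 * (v3 * (v3 * v3))) - v1 * (v1 * v3))
    (y' := 7 / 20 * (m2 t1 a1 b1 * m3 t3 a3 b3) - m2 t1 a1 b1 * m1 t3 a3 b3) (by ring) (by ring)
  cases o
  · have e : (it3 t1 t2 t3 fun c1 c2 c3 =>
        TLYr false (kp a1 b1 c1) (kp a2 b2 c2) (kp a3 b3 c3)) =
        (⟨m2 t1 a1 b1 * m1 t3 a3 b3, 0, 0, 7 / 20 * (m2 t1 a1 b1 * m2 t3 a3 b3), 0, 0,
          m1 t2 a2 b2 * m1 t3 a3 b3, 0, 0⟩,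
        ⟨2 * (m1 t2 a2 b2 * m1 t1 a1 b1), 0, 0,
          6 / 5 * (m1 t1 a1 b1 * (m1 t2 a2 b2 * m1 t3 a3 b3)), 0, 0, 0, 0, 0⟩) := by
      refine Prod.ext (m9_ext ?_ ?_ ?_ ?_ ?_ ?_ ?_ ?_ ?_) (m9_ext ?_ ?_ ?_ ?_ ?_ ?_ ?_ ?_ ?_) <;>
        simp only [it3, it1, cmb, cm1, TLYr, m1, m2, i1, Bool.false_eq_true, if_false] <;> ring
    rw [e]
    generalize PP a1 b1 = P1 at *
    generalize PP a2 b2 = P2 at *
    generalize PP a3 b3 = P3 at *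
    refine ⟨(⟨_, _, _, _, _, _, _, _, _⟩, ⟨_, _, _, _, _, _, _, _, _⟩),
      ⟨q1.er, z_er, z_er, q2.er, z_er, z_er, q3.er, z_er, z_er⟩,
      ⟨q4.er, z_er, z_er, q5.er, z_er, z_er, z_er, z_er, z_er⟩, ?_⟩
    simp only [gB, sB, xx]
    linarith [mul_nonneg p1 p1, mul_nonneg p1 p3, mul_nonneg p3 p3]
  · have e : (it3 t1 t2 t3 fun c1 c2 c3 =>
        TLYr true (kp a1 b1 c1) (kp a2 b2 c2) (kp a3 b3 c3)) =
        (⟨2 * (m1 t2 a2 b2 * m1 t1 a1 b1), 0, 0, 0, 0, 0,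
          6 / 5 * (m1 t2 a2 b2 * m1 t1 a1 b1 * m2 t3 a3 b3) - 2 * (m1 t2 a2 b2 * m1 t1 a1 b1),
          0, 0⟩,
        ⟨m2 t1 a1 b1 * m1 t3 a3 b3, 0, 0, m1 t3 a3 b3, 0, 0,
          7 / 20 * (m2 t1 a1 b1 * m3 t3 a3 b3) - m2 t1 a1 b1 * m1 t3 a3 b3, 0, 0⟩) := by
      refine Prod.ext (m9_ext ?_ ?_ ?_ ?_ ?_ ?_ ?_ ?_ ?_) (m9_ext ?_ ?_ ?_ ?_ ?_ ?_ ?_ ?_ ?_) <;>
        simp only [it3, it1, cmb, cm1, TLYr, m1, m2, m3, i1, if_true] <;> ring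
    rw [e]
    generalize PP a1 b1 = P1 at *
    generalize PP a2 b2 = P2 at *
    generalize PP a3 b3 = P3 at *
    refine ⟨(⟨_, _, _, _, _, _, _, _, _⟩, ⟨_, _, _, _, _, _, _, _, _⟩),
      ⟨q4.er, z_er, z_er, z_er, z_er, z_er, q6.er, z_er, z_er⟩,
      ⟨q1.er, z_er, z_er, g1.er, z_er, z_er, q7.er, z_er, z_er⟩, ?_⟩
    simp only [gB, sB, xx]
    linarith [mul_nonneg p1 p1, mul_nonneg p1 p3, mul_nonneg p3 p3]

theorem fam_pp : FamP id (fun k h g => TPp k h g) KN.TPpN 3 0 0 :=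
  famP_id (by norm_num) (by norm_num) (by norm_num) (fun _ a b c => ok_TPp a b c) int_pp

theorem fam_np : FamP KT.dvH (fun k _ g => TNp k g) (fun k _ g => KN.TNpN k g) 0 0 0 :=
  famH (famP_id (by norm_num) (by norm_num) (by norm_num) (fun _ a _ c => ok_TNp a c) int_np)

theorem fam_nm : FamP KT.dvH (fun k _ g => (TNm k g, z9)) (fun k _ g => (KN.TNmN k g, KN.z9M))
    0 0 12 :=
  famH (famP_id (by norm_num) (by norm_num) (by norm_num) (fun _ a _ c => ⟨ok_TNm a c, ok_z9⟩)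
    int_nm)

theorem fam_ty (o : Bool) (a b : ℝ) (aN bN : ℕ) (ha : Ap 1 1 a aN) (ha' : a ≤ 7 / 10)
    (hb : Ap 1 2 b bN) :
    FamP id (fun k h g => TYr o k h g a b) (fun k h g => KN.TYN o k h g aN bN) 21 0 12 :=
  famP_id (by norm_num) (by norm_num) (by norm_num) (fun _ x y z => ok_TY o x y z ha hb)
    (int_ty o a b (abs_le.2 ⟨by linarith [ha.lo], ha'⟩) (abs_le.2 ⟨by linarith [hb.lo], hb.hi⟩))

theorem fam_tl (o : Bool) : FamP id (fun k h g => TLr o k h g) (KN.TLN o) 11 0 9 :=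
  famP_id (by norm_num) (by norm_num) (by norm_num) (fun _ x y z => ok_TL o x y z) (int_tl o)

theorem fam_tly (o : Bool) : FamP id (fun k h g => TLYr o k h g) (KN.TLY o) 21 0 48 :=
  famP_id (by norm_num) (by norm_num) (by norm_num) (fun _ x y z => ok_TLY o x y z) (int_tly o)

end Pool.Agent.Helper60.CXT
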