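import Pool.Agent.Helper48.CXT.KS

/-!
Far cells of tail classes, row CONT: interpolation of products of parameters.
-/

set_option autoImplicit false
noncomputable section
namespace Pool.Agent.Helper60.CXT

open Pool.Agent.Helper94.CXF (M9)
open Pool.Agent.Helper94.CXF
open Pool.Agent.Helper94.CXF.SD
open Pool.Agent.Helper48.CXT

def i1 (t : ℝ) (f : Bool → ℝ) : ℝ := (1 - t) * f false + t * f true
def i3 (t1 t2 t3 : ℝ) (f : Bool → Bool → Bool → ℝ) : ℝ :=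
  i1 t1 fun c1 => i1 t2 fun c2 => i1 t3 fun c3 => f c1 c2 c3

/-! ### close numbers -/

/-- two numbers of size at most `X`, close in the unit `2 ^ (-48)` -/
structure Cl (r X x y : ℝ) : Prop where
  hx : |x| ≤ X
  hy : |y| ≤ X
  er : 2 ^ 48 * |x - y| ≤ r

section
variable {r s X Y x y x' y' : ℝ}

theorem Cl.r0 (h : Cl r X x y) : 0 ≤ r :=
  (mul_nonneg (by positivity) (abs_nonneg _)).trans h.er

theorem Cl.X0 (h : Cl r X x y) : 0 ≤ X := (abs_nonneg _).trans h.hx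

theorem Cl.mono {r' X' : ℝ} (h : Cl r X x y) (h1 : r ≤ r') (h2 : X ≤ X') : Cl r' X' x y :=
  ⟨h.hx.trans h2, h.hy.trans h2, h.er.trans h1⟩

theorem Cl.congr (h : Cl r X x y) (e1 : x = x') (e2 : y = y') : Cl r X x' y' := by
  subst e1
  subst e2
  exact h

theorem Cl.mul (h : Cl r X x y) (h' : Cl s Y x' y') :
    Cl (r * Y + s * X) (X * Y) (x * x') (y * y') := by
  refine ⟨?_, ?_, ?_⟩
  · rw [abs_mul]
    exact mul_le_mul h.hx h'.hx (abs_nonneg _) h.X0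
  · rw [abs_mul]
    exact mul_le_mul h.hy h'.hy (abs_nonneg _) h.X0
  · have e : x * x' - y * y' = (x - y) * x' + y * (x' - y') := by ring
    have h1 : |x * x' - y * y'| ≤ |x - y| * |x'| + |y| * |x' - y'| := by
      rw [e, ← abs_mul, ← abs_mul]
      exact abs_add_le _ _
    have h2 : 2 ^ 48 * |x - y| * |x'| ≤ r * Y :=
      mul_le_mul h.er h'.hx (abs_nonneg _) h.r0
    have h3 : 2 ^ 48 * |x' - y'| * |y| ≤ s * X :=
      mul_le_mul h'.er h.hy (abs_nonneg _) h'.r0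
    calc 2 ^ 48 * |x * x' - y * y'| ≤ 2 ^ 48 * (|x - y| * |x'| + |y| * |x' - y'|) :=
          mul_le_mul_of_nonneg_left h1 (by positivity)
      _ = 2 ^ 48 * |x - y| * |x'| + 2 ^ 48 * |x' - y'| * |y| := by ring
      _ ≤ r * Y + s * X := add_le_add h2 h3

theorem Cl.add (h : Cl r X x y) (h' : Cl s Y x' y') : Cl (r + s) (X + Y) (x + x') (y + y') := by
  refine ⟨(abs_add_le _ _).trans (add_le_add h.hx h'.hx),
    (abs_add_le _ _).trans (add_le_add h.hy h'.hy), ?_⟩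
  have e : x + x' - (y + y') = (x - y) + (x' - y') := by ring
  have h1 : |x + x' - (y + y')| ≤ |x - y| + |x' - y'| := by
    rw [e]
    exact abs_add_le _ _
  have := h.er
  have := h'.er
  have := mul_le_mul_of_nonneg_left h1 (show (0 : ℝ) ≤ 2 ^ 48 by positivity)
  linarith

theorem Cl.neg (h : Cl r X x y) : Cl r X (-x) (-y) := by
  refine ⟨by rw [abs_neg]; exact h.hx, by rw [abs_neg]; exact h.hy, ?_⟩
  have e : -x - -y = -(x - y) := by ring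
  rw [e, abs_neg]
  exact h.er

theorem Cl.sub (h : Cl r X x y) (h' : Cl s Y x' y') : Cl (r + s) (X + Y) (x - x') (y - y') :=
  (h.add h'.neg).congr (by ring) (by ring)

theorem Cl.const (h : |x| ≤ X) : Cl 0 X x x := ⟨h, h, by simp⟩

theorem Cl.one : Cl 0 1 1 1 := Cl.const (by norm_num)

theorem Cl.zero : Cl 0 0 0 0 := Cl.const (by norm_num)

theorem Cl.smul {c : ℝ} (hc : 0 ≤ c) (h : Cl r X x y) : Cl (c * r) (c * X) (c * x) (c * y) := by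
  have h1 := (Cl.const (le_of_eq (abs_of_nonneg hc))).mul h
  exact ⟨h1.hx, h1.hy, h1.er.trans (by linarith)⟩

end

/-! ### one parameter -/

/-- the corner of an interval -/
def kp (a b : ℕ) (c : Bool) : ℝ := (sl a b c : ℝ) / 2 ^ 48

/-- interpolation error of the square -/
def PP (a b : ℕ) : ℝ := ((b : ℝ) - a) ^ 2 / 2 ^ 50

theorem PP0 (a b : ℕ) : 0 ≤ PP a b := by
  unfold PP
  positivity

def m1 (t : ℝ) (a b : ℕ) : ℝ := i1 t (kp a b)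
def m2 (t : ℝ) (a b : ℕ) : ℝ := i1 t fun c => kp a b c * kp a b c
def m3 (t : ℝ) (a b : ℕ) : ℝ := i1 t fun c => kp a b c * (kp a b c * kp a b c)

theorem i1_le {t : ℝ} (ht : I01 t) {f : Bool → ℝ} {X : ℝ} (h : ∀ c, f c ≤ X) : i1 t f ≤ X := by
  obtain ⟨h0, h1⟩ := ht
  have a := mul_le_mul_of_nonneg_left (h false) (sub_nonneg.2 h1)
  have b := mul_le_mul_of_nonneg_left (h true) h0
  unfold i1
  linarith

theorem le_i1 {t : ℝ} (ht : I01 t) {f : Bool → ℝ} {X : ℝ} (h : ∀ c, X ≤ f c) : X ≤ i1 t f := by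
  obtain ⟨h0, h1⟩ := ht
  have a := mul_le_mul_of_nonneg_left (h false) (sub_nonneg.2 h1)
  have b := mul_le_mul_of_nonneg_left (h true) h0
  unfold i1
  linarith

theorem kp_f (a b : ℕ) : kp a b false = (a : ℝ) / 2 ^ 48 := rfl
theorem kp_t (a b : ℕ) : kp a b true = (b : ℝ) / 2 ^ 48 := rfl

/-- a parameter, close to the point `t` of the interval `[a, b]`, in `[1, X]` -/
structure Dr (t : ℝ) (a b : ℕ) (v X : ℝ) : Prop where
  t01 : I01 t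
  k0 : ∀ c, 1 ≤ kp a b c
  k1 : ∀ c, kp a b c ≤ X
  v0 : 1 - 1 / 10 ^ 6 ≤ v
  v1 : v ≤ X
  er : 2 ^ 48 * |v - m1 t a b| ≤ 1

section
variable {t v X : ℝ} {a b : ℕ}

theorem Dr.c1 (h : Dr t a b v X) : Cl 1 X v (m1 t a b) := by
  refine ⟨?_, ?_, h.er⟩
  · have := h.v0
    rw [abs_of_nonneg (by linarith)]
    exact h.v1
  · have := le_i1 h.t01 h.k0
    rw [abs_of_nonneg (show 0 ≤ m1 t a b from by unfold m1; linarith)]
    exact i1_le h.t01 h.k1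

theorem m2_eq (t : ℝ) (a b : ℕ) :
    2 ^ 48 * (m2 t a b - m1 t a b * m1 t a b) = 4 * (t * (1 - t)) * PP a b := by
  unfold m2 m1 i1 PP
  simp only [kp_f, kp_t]
  ring

theorem tt (ht : I01 t) : 0 ≤ t * (1 - t) ∧ 4 * (t * (1 - t)) ≤ 1 := by
  obtain ⟨h0, h1⟩ := ht
  refine ⟨mul_nonneg h0 (sub_nonneg.2 h1), ?_⟩
  nlinarith [sq_nonneg (2 * t - 1)]

theorem m2_bd (ht : I01 t) : 0 ≤ 2 ^ 48 * (m2 t a b - m1 t a b * m1 t a b) ∧
    2 ^ 48 * (m2 t a b - m1 t a b * m1 t a b) ≤ PP a b := by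
  rw [m2_eq]
  obtain ⟨h0, h1⟩ := tt ht
  have h2 := PP0 a b
  constructor
  · positivity
  · nlinarith

theorem Dr.c2 (h : Dr t a b v X) : Cl (2 * X + PP a b) (X * X) (v * v) (m2 t a b) := by
  have h1 := h.c1.mul h.c1
  have hk2 : ∀ c, kp a b c * kp a b c ≤ X * X := fun c =>
    mul_le_mul (h.k1 c) (h.k1 c) (by linarith [h.k0 c]) h.c1.X0
  refine ⟨h1.hx, ?_, ?_⟩
  · have : 0 ≤ m2 t a b := le_i1 h.t01 fun c => mul_self_nonneg _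
    rw [abs_of_nonneg this]
    exact i1_le h.t01 hk2
  · obtain ⟨h2, h3⟩ := m2_bd (a := a) (b := b) h.t01
    have h4 : 2 ^ 48 * |m1 t a b * m1 t a b - m2 t a b| ≤ PP a b := by
      rw [abs_sub_comm, abs_of_nonneg (by linarith)]
      exact h3
    have h5 : |v * v - m2 t a b| ≤ |v * v - m1 t a b * m1 t a b| +
        |m1 t a b * m1 t a b - m2 t a b| := abs_sub_le _ _ _
    have := h1.er
    linarith

theorem m3_eq (t : ℝ) (a b : ℕ) :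
    2 ^ 48 * (m3 t a b - m1 t a b * (m1 t a b * m1 t a b)) =
      4 * (t * (1 - t)) * PP a b * (kp a b false + kp a b true + m1 t a b) := by
  unfold m3 m1 i1 PP
  simp only [kp_f, kp_t]
  ring

theorem Dr.c3 (h : Dr t a b v X) :
    Cl (3 * (X * X) + 3 * X * PP a b) (X * (X * X)) (v * (v * v)) (m3 t a b) := by
  have h1 := h.c1.mul (h.c1.mul h.c1)
  have hX := h.c1.X0
  have hk2 : ∀ c, kp a b c * (kp a b c * kp a b c) ≤ X * (X * X) := fun c =>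
    mul_le_mul (h.k1 c) (mul_le_mul (h.k1 c) (h.k1 c) (by linarith [h.k0 c]) hX)
      (mul_self_nonneg _) hX
  have hm := i1_le h.t01 h.k1
  have hm0 := le_i1 h.t01 h.k0
  change m1 t a b ≤ X at hm
  change 1 ≤ m1 t a b at hm0
  refine ⟨h1.hx, ?_, ?_⟩
  · have : 0 ≤ m3 t a b := le_i1 h.t01 fun c => by
      have := h.k0 c
      positivity
    rw [abs_of_nonneg this]
    exact i1_le h.t01 hk2
  · obtain ⟨h2, h3⟩ := tt h.t01
    have e := m3_eq t a b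
    have hP := PP0 a b
    have ka := h.k0 false
    have kb := h.k0 true
    have ka' := h.k1 false
    have kb' := h.k1 true
    have h6 : 2 ^ 48 * (m3 t a b - m1 t a b * (m1 t a b * m1 t a b)) ≤ 3 * X * PP a b := by
      rw [e]
      have a1 : 4 * (t * (1 - t)) * PP a b ≤ PP a b := by nlinarith
      calc 4 * (t * (1 - t)) * PP a b * (kp a b false + kp a b true + m1 t a b)
          ≤ PP a b * (X + X + X) := mul_le_mul a1 (by linarith) (by linarith) hP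
        _ = 3 * X * PP a b := by ring
    have h7 : 0 ≤ 2 ^ 48 * (m3 t a b - m1 t a b * (m1 t a b * m1 t a b)) := by
      rw [e]
      have : 0 ≤ kp a b false + kp a b true + m1 t a b := by linarith
      positivity
    have h4 : 2 ^ 48 * |m1 t a b * (m1 t a b * m1 t a b) - m3 t a b| ≤ 3 * X * PP a b := by
      rw [abs_sub_comm, abs_of_nonneg (by linarith)]
      exact h6
    have h5 : |v * (v * v) - m3 t a b| ≤ |v * (v * v) - m1 t a b * (m1 t a b * m1 t a b)| +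
        |m1 t a b * (m1 t a b * m1 t a b) - m3 t a b| := abs_sub_le _ _ _
    have := h1.er
    linarith

end

/-- bound of a parameter `k`, `h`, `g` -/
def xx : ℝ := 2000001 / 1000000

theorem dir_of {a b : ℕ} {v : ℝ} (h : InV a b v) (h0 : 2 ^ 48 ≤ a) (h1 : a ≤ b)
    (h2 : b ≤ 2 ^ 49) : ∃ t, Dr t a b v xx := by
  have h0' : (2 : ℝ) ^ 48 ≤ a := by exact_mod_cast h0
  have h1' : (a : ℝ) ≤ b := by exact_mod_cast h1
  have h2' : (b : ℝ) ≤ 2 ^ 49 := by exact_mod_cast h2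
  have k0 : ∀ c, 1 ≤ kp a b c := by
    intro c
    unfold kp
    rw [le_div_iff₀ (by positivity)]
    cases c
    · change 1 * 2 ^ 48 ≤ (a : ℝ)
      linarith
    · change 1 * 2 ^ 48 ≤ (b : ℝ)
      linarith
  have k1 : ∀ c, kp a b c ≤ xx := by
    intro c
    unfold kp xx
    rw [div_le_iff₀ (by positivity)]
    cases c
    · change (a : ℝ) ≤ _
      linarith
    · change (b : ℝ) ≤ _
      linarith
  rcases h with ⟨rfl, h⟩ | ⟨h3, h4⟩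
  · refine ⟨0, ⟨le_refl _, zero_le_one⟩, k0, k1, ?_, ?_, ?_⟩
    · have := abs_le.1 h
      linarith
    · have := abs_le.1 h
      unfold xx
      linarith
    · have e : 2 ^ 48 * |v - m1 0 a a| = |(a : ℝ) - 2 ^ 48 * v| := by
        unfold m1 i1
        rw [kp_f, kp_t, ← abs_of_pos (show (0 : ℝ) < 2 ^ 48 by positivity), ← abs_mul,
          abs_sub_comm (a : ℝ), abs_of_pos (show (0 : ℝ) < 2 ^ 48 by positivity)]
        congr 1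
        ring
      rw [e]
      exact h
  · have hv0 : 1 ≤ v := by linarith
    have hv1 : v ≤ 2 := by linarith
    rcases h1.eq_or_lt with rfl | h5
    · refine ⟨0, ⟨le_refl _, zero_le_one⟩, k0, k1, ?_, ?_, ?_⟩
      · linarith
      · unfold xx
        linarith
      · have e : v - m1 0 a a = 0 := by
          unfold m1 i1
          rw [kp_f, kp_t]
          have : (a : ℝ) = 2 ^ 48 * v := le_antisymm h3 h4
          rw [this]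
          ring
        rw [e]
        simp
    · have h6 : (a : ℝ) < b := by exact_mod_cast h5
      refine ⟨(2 ^ 48 * v - a) / (b - a), ⟨?_, ?_⟩, k0, k1, ?_, ?_, ?_⟩
      · exact div_nonneg (by linarith) (by linarith)
      · rw [div_le_one (by linarith)]
        linarith
      · linarith
      · unfold xx
        linarith
      · have e : v - m1 ((2 ^ 48 * v - a) / (b - a)) a b = 0 := by
          unfold m1 i1
          rw [kp_f, kp_t]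
          have : (b : ℝ) - a ≠ 0 := by linarith
          field_simp
          ring
        rw [e]
        simp

theorem ap_kp {a b : ℕ} (h0 : 2 ^ 48 ≤ a) (h1 : a ≤ b) (h2 : b ≤ 2 ^ 49) (c : Bool) :
    Ap 1 2 (kp a b c) (sl a b c) := by
  have h0' : (2 : ℝ) ^ 48 ≤ a := by exact_mod_cast h0
  have h1' : (a : ℝ) ≤ b := by exact_mod_cast h1
  have h2' : (b : ℝ) ≤ 2 ^ 49 := by exact_mod_cast h2
  refine ⟨?_, ?_, ?_⟩
  · unfold kp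
    positivity
  · unfold kp
    rw [div_le_iff₀ (by positivity)]
    cases c
    · change (a : ℝ) ≤ _
      linarith
    · change (b : ℝ) ≤ _
      linarith
  · unfold kp
    have e : (sl a b c : ℝ) - 2 ^ 48 * ((sl a b c : ℝ) / 2 ^ 48) = 0 := by ring
    rw [e]
    simp

/-! ### the distance -/

theorem dN_ge (c a b : ℕ) (h : a ≤ b) : (c : ℝ) / 8 * PP a b ≤ (KT.dN c a b : ℝ) := by
  have e : KT.dN c a b = c * ((b - a) * (b - a)) / 2 ^ 53 + 1 := by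
    change ((c * ((b - a) * (b - a))) >>> 53) + 1 = _
    rw [Nat.shiftRight_eq_div_pow]
  have h1 : c * ((b - a) * (b - a)) < (c * ((b - a) * (b - a)) / 2 ^ 53 + 1) * 2 ^ 53 := by
    have := Nat.lt_div_mul_add (a := c * ((b - a) * (b - a))) (b := 2 ^ 53) (by positivity)
    linarith
  have h2 : ((c * ((b - a) * (b - a)) : ℕ) : ℝ) <
      (((c * ((b - a) * (b - a)) / 2 ^ 53 + 1) * 2 ^ 53 : ℕ) : ℝ) := by exact_mod_cast h1
  rw [e]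
  unfold PP
  push_cast [Nat.cast_sub h] at h2 ⊢
  have h3 : (c : ℝ) / 8 * (((b : ℝ) - a) ^ 2 / 2 ^ 50) * 2 ^ 53 =
      (c : ℝ) * (((b : ℝ) - a) * ((b : ℝ) - a)) := by ring
  refine le_of_mul_le_mul_right ?_ (show (0 : ℝ) < 2 ^ 53 by positivity)
  rw [h3]
  linarith

theorem dT_ge (c1 c2 c3 : ℕ) (b : KT.Bx) (h1 : b.a1 ≤ b.b1) (h2 : b.a2 ≤ b.b2)
    (h3 : b.a3 ≤ b.b3) :
    1024 + (c1 : ℝ) / 8 * PP b.a1 b.b1 + (c2 : ℝ) / 8 * PP b.a2 b.b2 +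
      (c3 : ℝ) / 8 * PP b.a3 b.b3 ≤ (KT.dT c1 c2 c3 b : ℝ) := by
  have e : KT.dT c1 c2 c3 b = (1024 + KT.dN c1 b.a1 b.b1) + (KT.dN c2 b.a2 b.b2 +
      KT.dN c3 b.a3 b.b3) := rfl
  have a1 := dN_ge c1 b.a1 b.b1 h1
  have a2 := dN_ge c2 b.a2 b.b2 h2
  have a3 := dN_ge c3 b.a3 b.b3 h3
  rw [e]
  push_cast
  linarith

theorem dN_le {c a b : ℕ} (hc : c ≤ 2 ^ 6) (h : b - a ≤ 2 ^ 48) : KT.dN c a b ≤ 2 ^ 50 := by
  have e : KT.dN c a b = c * ((b - a) * (b - a)) / 2 ^ 53 + 1 := by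
    change ((c * ((b - a) * (b - a))) >>> 53) + 1 = _
    rw [Nat.shiftRight_eq_div_pow]
  have h1 : c * ((b - a) * (b - a)) ≤ 2 ^ 6 * (2 ^ 48 * 2 ^ 48) :=
    Nat.mul_le_mul hc (Nat.mul_le_mul h h)
  have h2 : c * ((b - a) * (b - a)) / 2 ^ 53 ≤ 2 ^ 6 * (2 ^ 48 * 2 ^ 48) / 2 ^ 53 :=
    Nat.div_le_div_right h1
  rw [e]
  norm_num at h2 ⊢
  omega

theorem dT_le {c1 c2 c3 : ℕ} {b : KT.Bx} (h1 : c1 ≤ 2 ^ 6) (h2 : c2 ≤ 2 ^ 6) (h3 : c3 ≤ 2 ^ 6)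
    (d1 : b.b1 - b.a1 ≤ 2 ^ 48) (d2 : b.b2 - b.a2 ≤ 2 ^ 48) (d3 : b.b3 - b.a3 ≤ 2 ^ 48) :
    KT.dT c1 c2 c3 b ≤ 2 ^ 54 := by
  have e : KT.dT c1 c2 c3 b = (1024 + KT.dN c1 b.a1 b.b1) + (KT.dN c2 b.a2 b.b2 +
      KT.dN c3 b.a3 b.b3) := rfl
  have a1 := dN_le h1 d1
  have a2 := dN_le h2 d2
  have a3 := dN_le h3 d3
  rw [e]
  norm_num at *
  omega

/-! ### entries -/

/-- entrywise bounds, unit `2 ^ (-48)` -/
structure Eb (T S B : M9 ℝ) : Prop where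
  a : 2 ^ 48 * |T.a - S.a| ≤ B.a
  b : 2 ^ 48 * |T.b - S.b| ≤ B.b
  c : 2 ^ 48 * |T.c - S.c| ≤ B.c
  d : 2 ^ 48 * |T.d - S.d| ≤ B.d
  e : 2 ^ 48 * |T.e - S.e| ≤ B.e
  f : 2 ^ 48 * |T.f - S.f| ≤ B.f
  g : 2 ^ 48 * |T.g - S.g| ≤ B.g
  h : 2 ^ 48 * |T.h - S.h| ≤ B.h
  i : 2 ^ 48 * |T.i - S.i| ≤ B.i

/-- the bound of the square of the norm, with rounding errors `256` -/
def sB (B : M9 ℝ) : ℝ :=
  (256 + B.a) ^ 2 + (256 + B.b) ^ 2 + (256 + B.c) ^ 2 + (256 + B.d) ^ 2 + (256 + B.e) ^ 2 +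
    (256 + B.f) ^ 2 + (256 + B.g) ^ 2 + (256 + B.h) ^ 2 + (256 + B.i) ^ 2
def gB (B : P9) : ℝ := 9 * (8 * sB B.1 + sB B.2) / 64

theorem i1_near {t r : ℝ} (ht : I01 t) {f g : Bool → ℝ} (h : ∀ c, |f c - g c| ≤ r) :
    |i1 t f - i1 t g| ≤ r := by
  obtain ⟨h0, h1⟩ := ht
  have e : i1 t f - i1 t g = (1 - t) * (f false - g false) + t * (f true - g true) := by
    unfold i1
    ring
  have a := abs_le.1 (h false)
  have b := abs_le.1 (h true)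
  rw [e]
  refine abs_le.2 ⟨?_, ?_⟩
  · nlinarith
  · nlinarith

theorem i3_near {t1 t2 t3 r : ℝ} (h1 : I01 t1) (h2 : I01 t2) (h3 : I01 t3)
    {f g : Bool → Bool → Bool → ℝ} (h : ∀ c1 c2 c3, |f c1 c2 c3 - g c1 c2 c3| ≤ r) :
    |i3 t1 t2 t3 f - i3 t1 t2 t3 g| ≤ r :=
  i1_near h1 fun c1 => i1_near h2 fun c2 => i1_near h3 fun c3 => h c1 c2 c3

theorem ent {t1 t2 t3 x B : ℝ} (h1 : I01 t1) (h2 : I01 t2) (h3 : I01 t3)
    {z f : Bool → Bool → Bool → ℝ} (h : ∀ c1 c2 c3, |z c1 c2 c3 - 2 ^ 48 * f c1 c2 c3| ≤ 256)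
    (hx : 2 ^ 48 * |x - i3 t1 t2 t3 f| ≤ B) :
    (2 ^ 48 * x + -1 * i3 t1 t2 t3 z) * (2 ^ 48 * x + -1 * i3 t1 t2 t3 z) ≤ (256 + B) ^ 2 := by
  have a := i3_near h1 h2 h3 h
  have e : i3 t1 t2 t3 (fun c1 c2 c3 => 2 ^ 48 * f c1 c2 c3) = 2 ^ 48 * i3 t1 t2 t3 f := by
    unfold i3 i1
    ring
  rw [e] at a
  have b : |2 ^ 48 * (x - i3 t1 t2 t3 f)| ≤ B := by
    rw [abs_mul, abs_of_pos (show (0 : ℝ) < 2 ^ 48 by positivity)]
    exact hx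
  have a' := abs_le.1 a
  have b' := abs_le.1 b
  have c : |2 ^ 48 * x + -1 * i3 t1 t2 t3 z| ≤ 256 + B := abs_le.2 ⟨by linarith, by linarith⟩
  have := mul_self_le_mul_self (abs_nonneg _) c
  rw [abs_mul_abs_self] at this
  rw [sq]
  exact this

theorem nearR {T : P9} {Tc W : Bool → Bool → Bool → P9} {B : P9} {t1 t2 t3 : ℝ} (h1 : I01 t1)
    (h2 : I01 t2) (h3 : I01 t3)
    (hW1 : ∀ c1 c2 c3, NrM 256 (W c1 c2 c3).1 (smM (2 ^ 48) (Tc c1 c2 c3).1))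
    (hW2 : ∀ c1 c2 c3, NrM 256 (W c1 c2 c3).2 (smM (2 ^ 48) (Tc c1 c2 c3).2))
    (hB1 : Eb T.1 (it3 t1 t2 t3 Tc).1 B.1) (hB2 : Eb T.2 (it3 t1 t2 t3 Tc).2 B.2) :
    g9 (cmb (2 ^ 48) T (-1) (it3 t1 t2 t3 W)) ≤ gB B := by
  have a1 := ent h1 h2 h3 (z := fun c1 c2 c3 => (W c1 c2 c3).1.a)
    (f := fun c1 c2 c3 => (Tc c1 c2 c3).1.a) (fun c1 c2 c3 => (hW1 c1 c2 c3).a) hB1.a
  have a2 := ent h1 h2 h3 (z := fun c1 c2 c3 => (W c1 c2 c3).1.b)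
    (f := fun c1 c2 c3 => (Tc c1 c2 c3).1.b) (fun c1 c2 c3 => (hW1 c1 c2 c3).b) hB1.b
  have a3 := ent h1 h2 h3 (z := fun c1 c2 c3 => (W c1 c2 c3).1.c)
    (f := fun c1 c2 c3 => (Tc c1 c2 c3).1.c) (fun c1 c2 c3 => (hW1 c1 c2 c3).c) hB1.c
  have a4 := ent h1 h2 h3 (z := fun c1 c2 c3 => (W c1 c2 c3).1.d)
    (f := fun c1 c2 c3 => (Tc c1 c2 c3).1.d) (fun c1 c2 c3 => (hW1 c1 c2 c3).d) hB1.d
  have a5 := ent h1 h2 h3 (z := fun c1 c2 c3 => (W c1 c2 c3).1.e)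
    (f := fun c1 c2 c3 => (Tc c1 c2 c3).1.e) (fun c1 c2 c3 => (hW1 c1 c2 c3).e) hB1.e
  have a6 := ent h1 h2 h3 (z := fun c1 c2 c3 => (W c1 c2 c3).1.f)
    (f := fun c1 c2 c3 => (Tc c1 c2 c3).1.f) (fun c1 c2 c3 => (hW1 c1 c2 c3).f) hB1.f
  have a7 := ent h1 h2 h3 (z := fun c1 c2 c3 => (W c1 c2 c3).1.g)
    (f := fun c1 c2 c3 => (Tc c1 c2 c3).1.g) (fun c1 c2 c3 => (hW1 c1 c2 c3).g) hB1.g
  have a8 := ent h1 h2 h3 (z := fun c1 c2 c3 => (W c1 c2 c3).1.h)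
    (f := fun c1 c2 c3 => (Tc c1 c2 c3).1.h) (fun c1 c2 c3 => (hW1 c1 c2 c3).h) hB1.h
  have a9 := ent h1 h2 h3 (z := fun c1 c2 c3 => (W c1 c2 c3).1.i)
    (f := fun c1 c2 c3 => (Tc c1 c2 c3).1.i) (fun c1 c2 c3 => (hW1 c1 c2 c3).i) hB1.i
  have b1 := ent h1 h2 h3 (z := fun c1 c2 c3 => (W c1 c2 c3).2.a)
    (f := fun c1 c2 c3 => (Tc c1 c2 c3).2.a) (fun c1 c2 c3 => (hW2 c1 c2 c3).a) hB2.a
  have b2 := ent h1 h2 h3 (z := fun c1 c2 c3 => (W c1 c2 c3).2.b)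
    (f := fun c1 c2 c3 => (Tc c1 c2 c3).2.b) (fun c1 c2 c3 => (hW2 c1 c2 c3).b) hB2.b
  have b3 := ent h1 h2 h3 (z := fun c1 c2 c3 => (W c1 c2 c3).2.c)
    (f := fun c1 c2 c3 => (Tc c1 c2 c3).2.c) (fun c1 c2 c3 => (hW2 c1 c2 c3).c) hB2.c
  have b4 := ent h1 h2 h3 (z := fun c1 c2 c3 => (W c1 c2 c3).2.d)
    (f := fun c1 c2 c3 => (Tc c1 c2 c3).2.d) (fun c1 c2 c3 => (hW2 c1 c2 c3).d) hB2.d
  have b5 := ent h1 h2 h3 (z := fun c1 c2 c3 => (W c1 c2 c3).2.e)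
    (f := fun c1 c2 c3 => (Tc c1 c2 c3).2.e) (fun c1 c2 c3 => (hW2 c1 c2 c3).e) hB2.e
  have b6 := ent h1 h2 h3 (z := fun c1 c2 c3 => (W c1 c2 c3).2.f)
    (f := fun c1 c2 c3 => (Tc c1 c2 c3).2.f) (fun c1 c2 c3 => (hW2 c1 c2 c3).f) hB2.f
  have b7 := ent h1 h2 h3 (z := fun c1 c2 c3 => (W c1 c2 c3).2.g)
    (f := fun c1 c2 c3 => (Tc c1 c2 c3).2.g) (fun c1 c2 c3 => (hW2 c1 c2 c3).g) hB2.g
  have b8 := ent h1 h2 h3 (z := fun c1 c2 c3 => (W c1 c2 c3).2.h)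
    (f := fun c1 c2 c3 => (Tc c1 c2 c3).2.h) (fun c1 c2 c3 => (hW2 c1 c2 c3).h) hB2.h
  have b9 := ent h1 h2 h3 (z := fun c1 c2 c3 => (W c1 c2 c3).2.i)
    (f := fun c1 c2 c3 => (Tc c1 c2 c3).2.i) (fun c1 c2 c3 => (hW2 c1 c2 c3).i) hB2.i
  have eP : g9 (cmb (2 ^ 48) T (-1) (it3 t1 t2 t3 W)) =
      9 * (8 * (
        (2 ^ 48 * T.1.a + -1 * i3 t1 t2 t3 (fun c1 c2 c3 => (W c1 c2 c3).1.a)) *
          (2 ^ 48 * T.1.a + -1 * i3 t1 t2 t3 (fun c1 c2 c3 => (W c1 c2 c3).1.a)) +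
        (2 ^ 48 * T.1.b + -1 * i3 t1 t2 t3 (fun c1 c2 c3 => (W c1 c2 c3).1.b)) *
          (2 ^ 48 * T.1.b + -1 * i3 t1 t2 t3 (fun c1 c2 c3 => (W c1 c2 c3).1.b)) +
        (2 ^ 48 * T.1.c + -1 * i3 t1 t2 t3 (fun c1 c2 c3 => (W c1 c2 c3).1.c)) *
          (2 ^ 48 * T.1.c + -1 * i3 t1 t2 t3 (fun c1 c2 c3 => (W c1 c2 c3).1.c)) +
        (2 ^ 48 * T.1.d + -1 * i3 t1 t2 t3 (fun c1 c2 c3 => (W c1 c2 c3).1.d)) *
          (2 ^ 48 * T.1.d + -1 * i3 t1 t2 t3 (fun c1 c2 c3 => (W c1 c2 c3).1.d)) +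
        (2 ^ 48 * T.1.e + -1 * i3 t1 t2 t3 (fun c1 c2 c3 => (W c1 c2 c3).1.e)) *
          (2 ^ 48 * T.1.e + -1 * i3 t1 t2 t3 (fun c1 c2 c3 => (W c1 c2 c3).1.e)) +
        (2 ^ 48 * T.1.f + -1 * i3 t1 t2 t3 (fun c1 c2 c3 => (W c1 c2 c3).1.f)) *
          (2 ^ 48 * T.1.f + -1 * i3 t1 t2 t3 (fun c1 c2 c3 => (W c1 c2 c3).1.f)) +
        (2 ^ 48 * T.1.g + -1 * i3 t1 t2 t3 (fun c1 c2 c3 => (W c1 c2 c3).1.g)) *
          (2 ^ 48 * T.1.g + -1 * i3 t1 t2 t3 (fun c1 c2 c3 => (W c1 c2 c3).1.g)) +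
        (2 ^ 48 * T.1.h + -1 * i3 t1 t2 t3 (fun c1 c2 c3 => (W c1 c2 c3).1.h)) *
          (2 ^ 48 * T.1.h + -1 * i3 t1 t2 t3 (fun c1 c2 c3 => (W c1 c2 c3).1.h)) +
        (2 ^ 48 * T.1.i + -1 * i3 t1 t2 t3 (fun c1 c2 c3 => (W c1 c2 c3).1.i)) *
          (2 ^ 48 * T.1.i + -1 * i3 t1 t2 t3 (fun c1 c2 c3 => (W c1 c2 c3).1.i))) + (
        (2 ^ 48 * T.2.a + -1 * i3 t1 t2 t3 (fun c1 c2 c3 => (W c1 c2 c3).2.a)) *
          (2 ^ 48 * T.2.a + -1 * i3 t1 t2 t3 (fun c1 c2 c3 => (W c1 c2 c3).2.a)) +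
        (2 ^ 48 * T.2.b + -1 * i3 t1 t2 t3 (fun c1 c2 c3 => (W c1 c2 c3).2.b)) *
          (2 ^ 48 * T.2.b + -1 * i3 t1 t2 t3 (fun c1 c2 c3 => (W c1 c2 c3).2.b)) +
        (2 ^ 48 * T.2.c + -1 * i3 t1 t2 t3 (fun c1 c2 c3 => (W c1 c2 c3).2.c)) *
          (2 ^ 48 * T.2.c + -1 * i3 t1 t2 t3 (fun c1 c2 c3 => (W c1 c2 c3).2.c)) +
        (2 ^ 48 * T.2.d + -1 * i3 t1 t2 t3 (fun c1 c2 c3 => (W c1 c2 c3).2.d)) *
          (2 ^ 48 * T.2.d + -1 * i3 t1 t2 t3 (fun c1 c2 c3 => (W c1 c2 c3).2.d)) +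
        (2 ^ 48 * T.2.e + -1 * i3 t1 t2 t3 (fun c1 c2 c3 => (W c1 c2 c3).2.e)) *
          (2 ^ 48 * T.2.e + -1 * i3 t1 t2 t3 (fun c1 c2 c3 => (W c1 c2 c3).2.e)) +
        (2 ^ 48 * T.2.f + -1 * i3 t1 t2 t3 (fun c1 c2 c3 => (W c1 c2 c3).2.f)) *
          (2 ^ 48 * T.2.f + -1 * i3 t1 t2 t3 (fun c1 c2 c3 => (W c1 c2 c3).2.f)) +
        (2 ^ 48 * T.2.g + -1 * i3 t1 t2 t3 (fun c1 c2 c3 => (W c1 c2 c3).2.g)) *
          (2 ^ 48 * T.2.g + -1 * i3 t1 t2 t3 (fun c1 c2 c3 => (W c1 c2 c3).2.g)) +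
        (2 ^ 48 * T.2.h + -1 * i3 t1 t2 t3 (fun c1 c2 c3 => (W c1 c2 c3).2.h)) *
          (2 ^ 48 * T.2.h + -1 * i3 t1 t2 t3 (fun c1 c2 c3 => (W c1 c2 c3).2.h)) +
        (2 ^ 48 * T.2.i + -1 * i3 t1 t2 t3 (fun c1 c2 c3 => (W c1 c2 c3).2.i)) *
          (2 ^ 48 * T.2.i + -1 * i3 t1 t2 t3 (fun c1 c2 c3 => (W c1 c2 c3).2.i)))) / 64 := rfl
  rw [eP]
  unfold gB sB
  linarith

end Pool.Agent.Helper60.CXT
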