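import Pool.Agent.Helper60.CXT.Ct2

/-!
Far cells of tail classes, row CONT: long runs.
-/

set_option autoImplicit false
noncomputable section
namespace Pool.Agent.Helper60.CXT

open Pool.Agent.Helper94.CXF (M9)
open Pool.Agent.Helper94.CXF hiding cmb
open Pool.Agent.Helper94.CXF.SD
open Pool.Agent.Helper48.CXT

section
variable {tg : Bool} {t1 t2 t3 v2 v3 : ℝ} {a2 b2 a3 b3 : ℕ}
  {p u0 um e1 e0 em w : Bool → ℝ} {p' u0' um' e1' e0' em' w' : ℝ}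
  {rp ru rv r1 r0 rm rw Xp Xu Xv X1 X0 Xm Xw : ℝ}

/-- `(256 + x)²` -/
def q2 (x : ℝ) : ℝ := (256 + x) ^ 2

/-- orientation `+` -/
theorem run_f (d2 : Dr t2 a2 b2 v2 xx) (d3 : Dr t3 a3 b3 v3 xx)
    (hp : Cl rp Xp p' (i1 t1 p)) (hu : Cl ru Xu u0' (i1 t1 u0)) (hv : Cl rv Xv um' (i1 t1 um))
    (h1 : Cl r1 X1 e1' (i1 t1 e1)) (h0 : Cl r0 X0 e0' (i1 t1 e0)) (hm : Cl rm Xm em' (i1 t1 em))
    (hw : Cl rw Xw w' (i1 t1 w)) (L : Bool) :
    ∃ B : P9,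
      Eb (TRWr false L tg v2 v3 p' u0' um' e1' e0' em' w').1 (it3 t1 t2 t3 fun c1 c2 c3 =>
        TRWr false L tg (kp a2 b2 c2) (kp a3 b3 c3) (p c1) (u0 c1) (um c1) (e1 c1) (e0 c1) (em c1)
          (w c1)).1 B.1 ∧
      Eb (TRWr false L tg v2 v3 p' u0' um' e1' e0' em' w').2 (it3 t1 t2 t3 fun c1 c2 c3 =>
        TRWr false L tg (kp a2 b2 c2) (kp a3 b3 c3) (p c1) (u0 c1) (um c1) (e1 c1) (e0 c1) (em c1)
          (w c1)).2 B.2 ∧
      gB B = 9 * (8 * (q2 (r1 * xx + 1 * X1) + q2 ru + q2 0 + q2 (r0 * xx + 1 * X0) + q2 rv + q2 0 +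
          q2 rw + q2 0 + q2 0) +
        (q2 (r0 * xx + 1 * X0) + q2 0 + q2 rp + q2 (rm * xx + 1 * Xm) + q2 0 + q2 ru + q2 0 +
          q2 0 + q2 0)) / 64 := by
  have h := d2.c1
  have g := d3.c1
  have e : (it3 t1 t2 t3 fun c1 c2 c3 =>
        TRWr false L tg (kp a2 b2 c2) (kp a3 b3 c3) (p c1) (u0 c1) (um c1) (e1 c1) (e0 c1) (em c1)
          (w c1)) =
      (mkM tg (i1 t1 e1 * m1 t3 a3 b3) (-i1 t1 u0) 0 (i1 t1 e0 * m1 t3 a3 b3) (-i1 t1 um) 0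
        (i1 t1 w) 0 0,
        mkM tg (i1 t1 e0 * m1 t2 a2 b2) 0 (i1 t1 p) (i1 t1 em * m1 t2 a2 b2) 0 (i1 t1 u0) 0 0 0) := by
    cases tg <;>
      (refine Prod.ext (m9_ext ?_ ?_ ?_ ?_ ?_ ?_ ?_ ?_ ?_) (m9_ext ?_ ?_ ?_ ?_ ?_ ?_ ?_ ?_ ?_) <;>
        simp only [it3, it1, cmb, cm1, TRWr, mkM, m1, i1, Bool.false_eq_true, if_false,
          if_true] <;> ring)
  rw [e]
  refine ⟨(mkM tg (r1 * xx + 1 * X1) ru 0 (r0 * xx + 1 * X0) rv 0 rw 0 0,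
    mkM tg (r0 * xx + 1 * X0) 0 rp (rm * xx + 1 * Xm) 0 ru 0 0 0), ?_, ?_, ?_⟩
  · cases tg
    · exact ⟨(h1.mul g).er, hu.neg.er, z_er, (h0.mul g).er, hv.neg.er, z_er, hw.er, z_er, z_er⟩
    · exact ⟨(h1.mul g).er, hu.neg.er, z_er, hw.er, z_er, z_er, (h0.mul g).er, hv.neg.er, z_er⟩
  · cases tg
    · exact ⟨(h0.mul h).er, z_er, hp.er, (hm.mul h).er, z_er, hu.er, z_er, z_er, z_er⟩
    · exact ⟨(h0.mul h).er, z_er, hp.er, z_er, z_er, z_er, (hm.mul h).er, z_er, hu.er⟩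
  · cases tg
    · rfl
    · simp only [gB, sB, mkM, if_true, q2]
      ring

/-- orientation `-`, chart `Y` -/
theorem run_t (d2 : Dr t2 a2 b2 v2 xx) (d3 : Dr t3 a3 b3 v3 xx)
    (hp : Cl rp Xp p' (i1 t1 p)) (hu : Cl ru Xu u0' (i1 t1 u0)) (hv : Cl rv Xv um' (i1 t1 um))
    (h1 : Cl r1 X1 e1' (i1 t1 e1)) (h0 : Cl r0 X0 e0' (i1 t1 e0)) (hm : Cl rm Xm em' (i1 t1 em))
    (hw : Cl rw Xw w' (i1 t1 w)) :
    ∃ B : P9,
      Eb (TRWr true false tg v2 v3 p' u0' um' e1' e0' em' w').1 (it3 t1 t2 t3 fun c1 c2 c3 =>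
        TRWr true false tg (kp a2 b2 c2) (kp a3 b3 c3) (p c1) (u0 c1) (um c1) (e1 c1) (e0 c1)
          (em c1) (w c1)).1 B.1 ∧
      Eb (TRWr true false tg v2 v3 p' u0' um' e1' e0' em' w').2 (it3 t1 t2 t3 fun c1 c2 c3 =>
        TRWr true false tg (kp a2 b2 c2) (kp a3 b3 c3) (p c1) (u0 c1) (um c1) (e1 c1) (e0 c1)
          (em c1) (w c1)).2 B.2 ∧
      gB B = 9 * (8 * (q2 (r0 * xx + 1 * X0) + q2 0 + q2 0 + q2 (rm * xx + 1 * Xm) + q2 0 + q2 0 +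
          q2 rw + q2 0 + q2 0) +
        (q2 (r1 * xx + 1 * X1) + q2 rp + q2 ru + q2 (r0 * xx + 1 * X0) + q2 ru + q2 rv + q2 0 +
          q2 0 + q2 0)) / 64 := by
  have h := d2.c1
  have g := d3.c1
  have e : (it3 t1 t2 t3 fun c1 c2 c3 =>
        TRWr true false tg (kp a2 b2 c2) (kp a3 b3 c3) (p c1) (u0 c1) (um c1) (e1 c1) (e0 c1)
          (em c1) (w c1)) =
      (mkM tg (i1 t1 e0 * m1 t2 a2 b2) 0 0 (i1 t1 em * m1 t2 a2 b2) 0 0 (i1 t1 w) 0 0,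
        mkM tg (i1 t1 e1 * m1 t3 a3 b3) (i1 t1 p) (-i1 t1 u0) (i1 t1 e0 * m1 t3 a3 b3) (i1 t1 u0)
          (-i1 t1 um) 0 0 0) := by
    cases tg <;>
      (refine Prod.ext (m9_ext ?_ ?_ ?_ ?_ ?_ ?_ ?_ ?_ ?_) (m9_ext ?_ ?_ ?_ ?_ ?_ ?_ ?_ ?_ ?_) <;>
        simp only [it3, it1, cmb, cm1, TRWr, mkM, m1, i1, Bool.false_eq_true, if_false,
          if_true] <;> ring)
  rw [e]
  refine ⟨(mkM tg (r0 * xx + 1 * X0) 0 0 (rm * xx + 1 * Xm) 0 0 rw 0 0,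
    mkM tg (r1 * xx + 1 * X1) rp ru (r0 * xx + 1 * X0) ru rv 0 0 0), ?_, ?_, ?_⟩
  · cases tg
    · exact ⟨(h0.mul h).er, z_er, z_er, (hm.mul h).er, z_er, z_er, hw.er, z_er, z_er⟩
    · exact ⟨(h0.mul h).er, z_er, z_er, hw.er, z_er, z_er, (hm.mul h).er, z_er, z_er⟩
  · cases tg
    · exact ⟨(h1.mul g).er, hp.er, hu.neg.er, (h0.mul g).er, hu.er, hv.neg.er, z_er, z_er, z_er⟩
    · exact ⟨(h1.mul g).er, hp.er, hu.neg.er, z_er, z_er, z_er, (h0.mul g).er, hu.er, hv.neg.er⟩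
  · cases tg
    · rfl
    · simp only [gB, sB, mkM, if_true, q2]
      ring

/-- orientation `-`, chart `L` -/
theorem run_L {s1 s0 Y1 Y0 : ℝ} (d2 : Dr t2 a2 b2 v2 xx) (d3 : Dr t3 a3 b3 v3 xx)
    (hp : Cl rp Xp p' (i1 t1 p)) (hu : Cl ru Xu u0' (i1 t1 u0)) (hv : Cl rv Xv um' (i1 t1 um))
    (h0 : Cl r0 X0 e0' (i1 t1 e0)) (hm : Cl rm Xm em' (i1 t1 em))
    (hw : Cl rw Xw w' (i1 t1 w))
    (k1 : Cl s1 Y1 (e1' * (v3 * v3) - u0') (i1 t1 e1 * m2 t3 a3 b3 - i1 t1 u0))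
    (k0 : Cl s0 Y0 (e0' * (v3 * v3) - um') (i1 t1 e0 * m2 t3 a3 b3 - i1 t1 um)) :
    ∃ B : P9,
      Eb (TRWr true true tg v2 v3 p' u0' um' e1' e0' em' w').1 (it3 t1 t2 t3 fun c1 c2 c3 =>
        TRWr true true tg (kp a2 b2 c2) (kp a3 b3 c3) (p c1) (u0 c1) (um c1) (e1 c1) (e0 c1)
          (em c1) (w c1)).1 B.1 ∧
      Eb (TRWr true true tg v2 v3 p' u0' um' e1' e0' em' w').2 (it3 t1 t2 t3 fun c1 c2 c3 =>
        TRWr true true tg (kp a2 b2 c2) (kp a3 b3 c3) (p c1) (u0 c1) (um c1) (e1 c1) (e0 c1)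
          (em c1) (w c1)).2 B.2 ∧
      gB B = 9 * (8 * (q2 (r0 * (xx * xx) + (1 * xx + 1 * xx) * X0) +
          q2 (rp * (xx * xx) + (1 * xx + 1 * xx) * Xp) + q2 0 +
          q2 (rm * (xx * xx) + (1 * xx + 1 * xx) * Xm) +
          q2 (ru * (xx * xx) + (1 * xx + 1 * xx) * Xu) + q2 0 +
          q2 (rw * xx + 1 * Xw) + q2 0 + q2 0) +
        (q2 s1 + q2 0 + q2 ru + q2 s0 + q2 0 + q2 rv + q2 0 + q2 0 + q2 0)) / 64 := by
  have g := d3.c1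
  have hg := d2.c1.mul d3.c1
  have e : (it3 t1 t2 t3 fun c1 c2 c3 =>
        TRWr true true tg (kp a2 b2 c2) (kp a3 b3 c3) (p c1) (u0 c1) (um c1) (e1 c1) (e0 c1)
          (em c1) (w c1)) =
      (mkM tg (i1 t1 e0 * (m1 t2 a2 b2 * m1 t3 a3 b3)) (i1 t1 p * (m1 t2 a2 b2 * m1 t3 a3 b3)) 0
          (i1 t1 em * (m1 t2 a2 b2 * m1 t3 a3 b3)) (i1 t1 u0 * (m1 t2 a2 b2 * m1 t3 a3 b3)) 0
          (i1 t1 w * m1 t3 a3 b3) 0 0,
        mkM tg (i1 t1 e1 * m2 t3 a3 b3 - i1 t1 u0) 0 (-i1 t1 u0)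
          (i1 t1 e0 * m2 t3 a3 b3 - i1 t1 um) 0 (-i1 t1 um) 0 0 0) := by
    cases tg <;>
      (refine Prod.ext (m9_ext ?_ ?_ ?_ ?_ ?_ ?_ ?_ ?_ ?_) (m9_ext ?_ ?_ ?_ ?_ ?_ ?_ ?_ ?_ ?_) <;>
        simp only [it3, it1, cmb, cm1, TRWr, mkM, m1, m2, i1, Bool.false_eq_true, if_false,
          if_true] <;> ring)
  rw [e]
  refine ⟨(mkM tg (r0 * (xx * xx) + (1 * xx + 1 * xx) * X0)
      (rp * (xx * xx) + (1 * xx + 1 * xx) * Xp) 0
      (rm * (xx * xx) + (1 * xx + 1 * xx) * Xm) (ru * (xx * xx) + (1 * xx + 1 * xx) * Xu) 0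
      (rw * xx + 1 * Xw) 0 0, mkM tg s1 0 ru s0 0 rv 0 0 0), ?_, ?_, ?_⟩
  · cases tg
    · exact ⟨(h0.mul hg).er, (hp.mul hg).er, z_er, (hm.mul hg).er, (hu.mul hg).er, z_er,
        (hw.mul g).er, z_er, z_er⟩
    · exact ⟨(h0.mul hg).er, (hp.mul hg).er, z_er, (hw.mul g).er, z_er, z_er, (hm.mul hg).er,
        (hu.mul hg).er, z_er⟩
  · cases tg
    · exact ⟨k1.er, z_er, hu.neg.er, k0.er, z_er, hv.neg.er, z_er, z_er, z_er⟩
    · exact ⟨k1.er, z_er, hu.neg.er, z_er, z_er, z_er, k0.er, z_er, hv.neg.er⟩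
  · cases tg
    · rfl
    · simp only [gB, sB, mkM, if_true, q2]
      ring

end

theorem TRr_W (o L tg : Bool) (h g u1 u0 um e1 e0 em : ℝ) :
    TRr o L tg h g u1 u0 um e1 e0 em = TRWr o L tg h g u1 u0 um e1 e0 em 1 := by
  cases o
  · simp only [TRr, TRWr, Bool.false_eq_true, if_false]
  · cases L
    · simp only [TRr, TRWr, Bool.false_eq_true, if_false, if_true]
    · simp only [TRr, TRWr, if_true, one_mul]

theorem Cl.cst {c X : ℝ} (h : |c| ≤ X) (t : ℝ) : Cl 0 X c (i1 t fun _ => c) :=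
  (Cl.const h).congr rfl (i1_cst c).symm

theorem ap_abs {r X x : ℝ} {a : ℕ} (h : Ap r X x a) : |x| ≤ X := by
  rw [abs_of_nonneg h.lo]
  exact h.hi

theorem q2_mono {x y : ℝ} (hx : 0 ≤ x) (h : x ≤ y) : q2 x ≤ q2 y := by
  unfold q2
  exact pow_le_pow_left₀ (by linarith) (by linarith) 2

/-! ### exact star -/

section
variable {u1 u0 um e1 e0 em : ℝ} {u1N u0N umN e1N e0N emN : ℕ}

theorem int_ex (o L tg : Bool) (c3 : ℕ) (hc3 : cLL o L 1 0 = 1 → 3 * (e1 + e0) ≤ (c3 : ℝ))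
    (h1 : Ap 16 3 u1 u1N) (h2 : Ap 16 3 u0 u0N) (h3 : Ap 16 3 um umN) (h4 : Ap 24 9 e1 e1N)
    (h5 : Ap 24 9 e0 e0N) (h6 : Ap 24 9 em emN) :
    IntP (fun _ h g => TRr o L tg h g u1 u0 um e1 e0 em) 0 0 c3 := by
  intro t1 t2 t3 v1 v2 v3 a1 b1 a2 b2 a3 b3 d1 d2 d3
  have H1 := Cl.cst (ap_abs h1) t1
  have H2 := Cl.cst (ap_abs h2) t1
  have H3 := Cl.cst (ap_abs h3) t1
  have H4 := Cl.cst (ap_abs h4) t1
  have H5 := Cl.cst (ap_abs h5) t1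
  have H6 := Cl.cst (ap_abs h6) t1
  have H7 := Cl.cst (show |(1 : ℝ)| ≤ 1 by norm_num) t1
  have p3 := PP0 a3 b3
  have hc0 : (0 : ℝ) ≤ c3 := Nat.cast_nonneg _
  simp only [TRr_W]
  cases o
  · obtain ⟨B, hB1, hB2, hB3⟩ := run_f (tg := tg) d2 d3 H1 H2 H3 H4 H5 H6 H7 L
    refine ⟨B, hB1, hB2, hB3.le.trans ?_⟩
    simp only [q2, xx]
    generalize PP a3 b3 = P3 at *
    have := mul_nonneg hc0 p3
    nlinarith
  · cases L
    · obtain ⟨B, hB1, hB2, hB3⟩ := run_t (tg := tg) d2 d3 H1 H2 H3 H4 H5 H6 H7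
      refine ⟨B, hB1, hB2, hB3.le.trans ?_⟩
      simp only [q2, xx]
      generalize PP a3 b3 = P3 at *
      have := mul_nonneg hc0 p3
      nlinarith
    · have g2 := d3.c2
      have K1 := (((Cl.const (le_of_eq (abs_of_nonneg h4.lo))).mul g2).sub
        (Cl.const (ap_abs h2))).congr (y' := i1 t1 (fun _ => e1) * m2 t3 a3 b3 -
          i1 t1 fun _ => u0) rfl (by rw [i1_cst, i1_cst])
      have K0 := (((Cl.const (le_of_eq (abs_of_nonneg h5.lo))).mul g2).sub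
        (Cl.const (ap_abs h3))).congr (y' := i1 t1 (fun _ => e0) * m2 t3 a3 b3 -
          i1 t1 fun _ => um) rfl (by rw [i1_cst, i1_cst])
      obtain ⟨B, hB1, hB2, hB3⟩ := run_L (tg := tg) d2 d3 H1 H2 H3 H5 H6 H7 K1 K0
      refine ⟨B, hB1, hB2, hB3.le.trans ?_⟩
      have hc := hc3 rfl
      generalize PP a3 b3 = P3 at *
      have l1 := h4.hi
      have l0 := h5.hi
      have A := mul_nonneg h4.lo p3
      have C := mul_nonneg h5.lo p3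
      have z1 : q2 (0 * (xx * xx) + (2 * xx + P3) * e1 + 0) ≤ q2 (37 + e1 * P3) :=
        q2_mono (by unfold xx; nlinarith [h4.lo]) (by unfold xx; nlinarith)
      have z0 : q2 (0 * (xx * xx) + (2 * xx + P3) * e0 + 0) ≤ q2 (37 + e0 * P3) :=
        q2_mono (by unfold xx; nlinarith [h5.lo]) (by unfold xx; nlinarith)
      have hD : 3 / 8 * (e1 * P3 + e0 * P3) ≤ (c3 : ℝ) / 8 * P3 := by nlinarith
      have hD2 : (1024 + 3 / 8 * (e1 * P3 + e0 * P3)) ^ 2 ≤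
          (1024 + ((0 : ℕ) : ℝ) / 8 * PP a1 b1 + ((0 : ℕ) : ℝ) / 8 * PP a2 b2 +
            (c3 : ℝ) / 8 * P3) ^ 2 := by
        refine pow_le_pow_left₀ (by positivity) ?_ 2
        push_cast
        linarith
      refine le_trans ?_ hD2
      generalize e1 * P3 = A1 at *
      generalize e0 * P3 = A0 at *
      generalize q2 (0 * (xx * xx) + (2 * xx + P3) * e1 + 0) = Q1 at *
      generalize q2 (0 * (xx * xx) + (2 * xx + P3) * e0 + 0) = Q0 at *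
      simp only [q2, xx] at z1 z0 ⊢
      linarith [mul_nonneg A A, mul_nonneg A C, mul_nonneg C C]

theorem fam_ex (o L tg : Bool) (h1 : Ap 16 3 u1 u1N) (h2 : Ap 16 3 u0 u0N) (h3 : Ap 16 3 um umN)
    (h4 : Ap 24 9 e1 e1N) (h5 : Ap 24 9 e0 e0N) (h6 : Ap 24 9 em emN) :
    FamP id (fun _ h g => TRr o L tg h g u1 u0 um e1 e0 em)
      (fun _ h g => KN.TRN o L tg h g u1N u0N umN e1N e0N emN) 0 0
      (cLL o L ((((e1N + e0N) * 3) >>> 48) + 2) 0) := by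
  have k4 := abs_le.1 h4.er
  have k5 := abs_le.1 h5.er
  have l4 := h4.hi
  have l5 := h5.hi
  have e : ((e1N + e0N) * 3) >>> 48 = (e1N + e0N) * 3 / 2 ^ 48 := Nat.shiftRight_eq_div_pow _ _
  have i1 : (e1N + e0N) * 3 < ((e1N + e0N) * 3 / 2 ^ 48 + 1) * 2 ^ 48 := by
    have := Nat.lt_div_mul_add (a := (e1N + e0N) * 3) (b := 2 ^ 48) (by positivity)
    linarith
  have i2 : (e1N + e0N) * 3 / 2 ^ 48 * 2 ^ 48 ≤ (e1N + e0N) * 3 := Nat.div_mul_le_self _ _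
  have j1 : (((e1N + e0N) * 3 : ℕ) : ℝ) < ((((e1N + e0N) * 3 / 2 ^ 48 + 1) * 2 ^ 48 : ℕ) : ℝ) := by
    exact_mod_cast i1
  have j2 : (((e1N + e0N) * 3 / 2 ^ 48 * 2 ^ 48 : ℕ) : ℝ) ≤ (((e1N + e0N) * 3 : ℕ) : ℝ) := by
    exact_mod_cast i2
  have hc : (e1N + e0N) * 3 / 2 ^ 48 ≤ 55 := by
    by_contra hcon
    have hcon : 56 ≤ (e1N + e0N) * 3 / 2 ^ 48 := by omega
    have h56 : (56 : ℝ) ≤ (((e1N + e0N) * 3 / 2 ^ 48 : ℕ) : ℝ) := by exact_mod_cast hcon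
    generalize (e1N + e0N) * 3 / 2 ^ 48 = n at *
    push_cast at j2
    linarith
  refine famP_id (by norm_num) (by norm_num) ?_ (fun _ _ y z => ok_TR o L tg y z h1 h2 h3 h4 h5 h6)
    (int_ex o L tg _ ?_ h1 h2 h3 h4 h5 h6)
  · rw [e]
    unfold cLL
    split_ifs
    · omega
    · norm_num
  · intro hL
    have hL' : (o && L) = true := by
      unfold cLL at hL
      by_contra hn
      rw [if_neg hn] at hL
      exact absurd hL (by norm_num)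
    unfold cLL
    rw [if_pos hL', e]
    generalize (e1N + e0N) * 3 / 2 ^ 48 = n at *
    push_cast at j1 ⊢
    linarith

end

/-! ### three letters -/

theorem int_t3 (o L tg : Bool) :
    IntP (fun k h g => TRr o L tg h g (k * k - 1) k 1 k 1 0) (cLL o L 34 3) 0 (cLL o L 7 0) := by
  intro t1 t2 t3 v1 v2 v3 a1 b1 a2 b2 a3 b3 d1 d2 d3
  have k1 := d1.c1
  have k2 := d1.c2
  have H1 : Cl (2 * xx + PP a1 b1) (xx * xx + 1) (v1 * v1 - 1)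
      (i1 t1 fun c1 => kp a1 b1 c1 * kp a1 b1 c1 - 1) := by
    have h := k2.sub Cl.one
    refine (h.mono (by linarith) (le_refl _)).congr rfl ?_
    unfold m2 i1
    ring
  have H7 := Cl.cst (show |(1 : ℝ)| ≤ 1 by norm_num) t1
  have H0 := Cl.cst (show |(0 : ℝ)| ≤ 0 by norm_num) t1
  have p1 := PP0 a1 b1
  have p3 := PP0 a3 b3
  simp only [TRr_W]
  cases o
  · obtain ⟨B, hB1, hB2, hB3⟩ := run_f (tg := tg) d2 d3 H1 k1 H7 k1 H7 H0 H7 L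
    refine ⟨B, hB1, hB2, hB3.le.trans ?_⟩
    have e1 : cLL false L 34 3 = 3 := by cases L <;> rfl
    have e2 : cLL false L 7 0 = 0 := by cases L <;> rfl
    rw [e1, e2]
    simp only [q2, xx]
    generalize PP a1 b1 = P1 at *
    generalize PP a2 b2 = P2 at *
    generalize PP a3 b3 = P3 at *
    push_cast
    linarith [mul_nonneg p1 p1, mul_nonneg p1 p3, mul_nonneg p3 p3]
  · cases L
    · obtain ⟨B, hB1, hB2, hB3⟩ := run_t (tg := tg) d2 d3 H1 k1 H7 k1 H7 H0 H7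
      refine ⟨B, hB1, hB2, hB3.le.trans ?_⟩
      have e1 : cLL true false 34 3 = 3 := rfl
      have e2 : cLL true false 7 0 = 0 := rfl
      rw [e1, e2]
      simp only [q2, xx]
      generalize PP a1 b1 = P1 at *
      generalize PP a2 b2 = P2 at *
      generalize PP a3 b3 = P3 at *
      push_cast
      linarith [mul_nonneg p1 p1, mul_nonneg p1 p3, mul_nonneg p3 p3]
    · have g2 := d3.c2
      have K1 : Cl (1 * (xx * xx) + (2 * xx + PP a3 b3) * xx + 1) (xx * (xx * xx) + xx)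
          (v1 * (v3 * v3) - v1) (i1 t1 (kp a1 b1) * m2 t3 a3 b3 - i1 t1 (kp a1 b1)) :=
        (k1.mul g2).sub k1
      have K0 : Cl (2 * xx + PP a3 b3) (xx * xx + 1) (1 * (v3 * v3) - 1)
          (i1 t1 (fun _ => (1 : ℝ)) * m2 t3 a3 b3 - i1 t1 fun _ => (1 : ℝ)) :=
        ((g2.sub Cl.one).mono (by linarith) (le_refl _)).congr (by ring)
          (by rw [i1_cst]; ring)
      obtain ⟨B, hB1, hB2, hB3⟩ := run_L (tg := tg) d2 d3 H1 k1 H7 H7 H0 H7 K1 K0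
      refine ⟨B, hB1, hB2, hB3.le.trans ?_⟩
      have e1 : cLL true true 34 3 = 34 := rfl
      have e2 : cLL true true 7 0 = 7 := rfl
      rw [e1, e2]
      simp only [q2, xx]
      generalize PP a1 b1 = P1 at *
      generalize PP a2 b2 = P2 at *
      generalize PP a3 b3 = P3 at *
      push_cast
      linarith [mul_nonneg p1 p1, mul_nonneg p1 p3, mul_nonneg p3 p3]

theorem _root_.Pool.Agent.Helper94.CXF.SD.Ap.tsub {r s X Y x y : ℝ} {a b : ℕ} (hx : Ap r X x a)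
    (hy : Ap s Y y b) (h : y ≤ x) : Ap (r + s) X (x - y) (Nat.sub a b) := by
  have h3 := abs_le.1 hx.er
  have h4 := abs_le.1 hy.er
  have hy0 := hy.lo
  have hx1 := hx.hi
  refine ⟨by linarith, by linarith, ?_⟩
  change |((a - b : ℕ) : ℝ) - 2 ^ 48 * (x - y)| ≤ r + s
  rcases le_total b a with h5 | h5
  · rw [Nat.cast_sub h5]
    exact abs_le.2 ⟨by linarith, by linarith⟩
  · have h6 : (a : ℝ) ≤ b := by exact_mod_cast h5
    rw [Nat.sub_eq_zero_of_le h5]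
    have : (0 : ℝ) ≤ 2 ^ 48 * (x - y) := by
      have : 0 ≤ x - y := by linarith
      positivity
    exact abs_le.2 ⟨by push_cast; linarith, by push_cast; linarith [hx.nonneg, hy.nonneg]⟩

theorem ok_F3 (o L tg : Bool) {k h g : ℝ} {kN hN gN : ℕ} (k1 : 1 ≤ k) (hk : Ap 1 2 k kN)
    (hh : Ap 1 2 h hN) (hg : Ap 1 2 g gN) :
    (∃ Z, OkT (TRr o L tg h g (k * k - 1) k 1 k 1 0).1 (KT.F3 o L tg kN hN gN).1 Z) ∧
      (∃ Z, OkT (TRr o L tg h g (k * k - 1) k 1 k 1 0).2 (KT.F3 o L tg kN hN gN).2 Z) := by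
  have hs : Ap 16 3 (k * k - 1) (KT.su (KN.mu kN kN)) := by
    have h := (hk.mul hk (by norm_num)).tsub ap_one (by nlinarith)
    refine ⟨h.lo, ?_, h.er.trans (by norm_num)⟩
    have := hk.hi
    nlinarith
  exact ok_TR o L tg hh hg hs (hk.mono (by norm_num) (by norm_num))
    (ap_one.mono (by norm_num) (by norm_num)) (hk.mono (by norm_num) (by norm_num))
    (ap_one.mono (by norm_num) (by norm_num)) ⟨le_refl _, by norm_num, by simp⟩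

theorem cLL_le {o L : Bool} {x y n : ℕ} (hx : x ≤ n) (hy : y ≤ n) : cLL o L x y ≤ n := by
  unfold cLL
  split_ifs
  · exact hx
  · exact hy

theorem fam_t3 (o L tg : Bool) :
    FamP id (fun k h g => TRr o L tg h g (k * k - 1) k 1 k 1 0) (KT.F3 o L tg) (cLL o L 34 3) 0
      (cLL o L 7 0) :=
  famP_id (cLL_le (by norm_num) (by norm_num)) (by norm_num) (cLL_le (by norm_num) (by norm_num))
    (fun w x y z => ok_F3 o L tg w x y z) (int_t3 o L tg)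

end Pool.Agent.Helper60.CXT
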