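import Pool.Agent.Helper60.CXT.Ct3

/-!
Far cells of tail classes, row CONT: long runs with the run parameter.
-/

set_option autoImplicit false
noncomputable section
namespace Pool.Agent.Helper60.CXT

open Pool.Agent.Helper94.CXF (M9)
open Pool.Agent.Helper94.CXF hiding cmb
open Pool.Agent.Helper94.CXF.SD
open Pool.Agent.Helper48.CXT

/-- bound of `2 / k` -/
def xc : ℝ := 1053 / 1000

theorem exists_t' {A B V : ℝ} (h : A < B) (h0 : A ≤ V) (h1 : V ≤ B) :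
    ∃ t, I01 t ∧ V = (1 - t) * A + t * B := by
  refine ⟨(V - A) / (B - A), ⟨div_nonneg (by linarith) (by linarith), ?_⟩, ?_⟩
  · rw [div_le_one (by linarith)]
    linarith
  · have : B - A ≠ 0 := by linarith
    field_simp
    ring

theorem p97_eq : KT.p97 = 2 ^ 97 := by decide +kernel

structure DvC (a b : ℕ) : Prop where
  lo : 2 ^ 48 ≤ KT.p97 / b
  hi : ((Nat.succ (KT.p97 / a) : ℕ) : ℝ) ≤ xc * 2 ^ 48
  lt : KT.p97 / b < Nat.succ (KT.p97 / a)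
  d : ∀ {k : ℝ}, (a : ℝ) ≤ 2 ^ 48 * k → 2 ^ 48 * k ≤ b →
    ∃ t, Dr t (KT.p97 / b) (Nat.succ (KT.p97 / a)) (2 / k) xc

theorem dir_c {a b : ℕ} (h0 : (19 / 10 : ℝ) * 2 ^ 48 ≤ a) (h1 : a ≤ b) (h2 : b ≤ 2 ^ 49) :
    DvC a b := by
  have h1' : (a : ℝ) ≤ b := by exact_mod_cast h1
  have h2' : (b : ℝ) ≤ 2 ^ 49 := by exact_mod_cast h2
  have a0 : (0 : ℝ) < a := by linarith
  have b0 : (0 : ℝ) < b := by linarith
  have a0' : 0 < a := by exact_mod_cast a0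
  have b0' : 0 < b := by exact_mod_cast b0
  have lo : 2 ^ 48 ≤ KT.p97 / b := by
    rw [p97_eq, Nat.le_div_iff_mul_le b0']
    calc 2 ^ 48 * b ≤ 2 ^ 48 * 2 ^ 49 := Nat.mul_le_mul_left _ h2
      _ = 2 ^ 97 := by norm_num
  have e1 : ((KT.p97 / b : ℕ) : ℝ) * b ≤ 2 ^ 97 := by
    have : KT.p97 / b * b ≤ 2 ^ 97 := by
      rw [p97_eq]
      exact Nat.div_mul_le_self _ _
    exact_mod_cast this
  have e2 : ((KT.p97 / a : ℕ) : ℝ) * a ≤ 2 ^ 97 := by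
    have : KT.p97 / a * a ≤ 2 ^ 97 := by
      rw [p97_eq]
      exact Nat.div_mul_le_self _ _
    exact_mod_cast this
  have e3 : (2 : ℝ) ^ 97 < ((Nat.succ (KT.p97 / a) : ℕ) : ℝ) * a := by
    have : 2 ^ 97 < Nat.succ (KT.p97 / a) * a := by
      rw [p97_eq]
      have := Nat.lt_div_mul_add (a := 2 ^ 97) (b := a) a0'
      rw [Nat.succ_mul]
      exact this
    exact_mod_cast this
  have lo' : (2 : ℝ) ^ 48 ≤ ((KT.p97 / b : ℕ) : ℝ) := by exact_mod_cast lo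
  have hi : ((Nat.succ (KT.p97 / a) : ℕ) : ℝ) ≤ xc * 2 ^ 48 := by
    rw [Nat.cast_succ]
    by_contra hc
    have hc : xc * 2 ^ 48 - 1 < ((KT.p97 / a : ℕ) : ℝ) := by linarith
    unfold xc at hc
    have h3 : (1053 / 1000 * 2 ^ 48 - 1) * (19 / 10 * 2 ^ 48 : ℝ) ≤
        ((KT.p97 / a : ℕ) : ℝ) * a :=
      mul_le_mul hc.le h0 (by positivity) (Nat.cast_nonneg _)
    have h4 := h3.trans e2
    norm_num at h4
  have lt' : ((KT.p97 / b : ℕ) : ℝ) < ((Nat.succ (KT.p97 / a) : ℕ) : ℝ) := by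
    by_contra hc
    push Not at hc
    have h5 : ((Nat.succ (KT.p97 / a) : ℕ) : ℝ) * a ≤ ((KT.p97 / b : ℕ) : ℝ) * b :=
      mul_le_mul hc h1' a0.le (Nat.cast_nonneg _)
    linarith
  refine ⟨lo, hi, by exact_mod_cast lt', ?_⟩
  intro k hk0 hk1
  have k0 : 0 < k := by linarith
  have f1 : ((KT.p97 / b : ℕ) : ℝ) ≤ 2 ^ 48 * (2 / k) := by
    rw [show (2 : ℝ) ^ 48 * (2 / k) = 2 ^ 49 / k by ring, le_div_iff₀ k0]
    have : ((KT.p97 / b : ℕ) : ℝ) * (2 ^ 48 * k) ≤ ((KT.p97 / b : ℕ) : ℝ) * b :=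
      mul_le_mul_of_nonneg_left hk1 (Nat.cast_nonneg _)
    linarith
  have f2 : 2 ^ 48 * (2 / k) ≤ ((Nat.succ (KT.p97 / a) : ℕ) : ℝ) := by
    rw [show (2 : ℝ) ^ 48 * (2 / k) = 2 ^ 49 / k by ring, div_le_iff₀ k0]
    have : ((Nat.succ (KT.p97 / a) : ℕ) : ℝ) * a ≤
        ((Nat.succ (KT.p97 / a) : ℕ) : ℝ) * (2 ^ 48 * k) :=
      mul_le_mul_of_nonneg_left hk0 (Nat.cast_nonneg _)
    linarith
  obtain ⟨t, ht, e⟩ := exists_t' lt' f1 f2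
  generalize KT.p97 / b = A at *
  generalize Nat.succ (KT.p97 / a) = B at *
  have g0 : ∀ c, 1 ≤ kp A B c := by
    intro c
    unfold kp
    rw [le_div_iff₀ (by positivity)]
    cases c
    · change 1 * 2 ^ 48 ≤ (A : ℝ)
      linarith
    · change 1 * 2 ^ 48 ≤ (B : ℝ)
      linarith
  have g1 : ∀ c, kp A B c ≤ xc := by
    intro c
    unfold kp
    rw [div_le_iff₀ (by positivity)]
    cases c
    · change (A : ℝ) ≤ _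
      linarith
    · change (B : ℝ) ≤ _
      exact hi
  have er : 2 / k = m1 t A B := by
    unfold m1 i1
    rw [kp_f, kp_t]
    linarith
  refine ⟨t, ht, g0, g1, ?_, ?_, ?_⟩
  · rw [er]
    have := le_i1 ht g0
    unfold m1
    linarith
  · rw [er]
    exact i1_le ht g1
  · rw [er]
    simp

/-! ### the run parameter -/

def bq (r : ℝ) (f : Fin 3 → ℝ) : ℝ := 1 * ((1 - r) ^ 2 * f 0 + 2 * r * (1 - r) * f 1) + r ^ 2 * f 2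

theorem bq_near {r s : ℝ} (hr : I01 r) {f g : Fin 3 → ℝ} (h : ∀ j, |f j - 2 ^ 48 * g j| ≤ s) :
    |bq r f - 2 ^ 48 * bq r g| ≤ s := by
  obtain ⟨h0, h1⟩ := hr
  have e : bq r f - 2 ^ 48 * bq r g = (1 - r) ^ 2 * (f 0 - 2 ^ 48 * g 0) +
      2 * r * (1 - r) * (f 1 - 2 ^ 48 * g 1) + r ^ 2 * (f 2 - 2 ^ 48 * g 2) := by
    unfold bq
    ring
  have a0 := abs_le.1 (h 0)
  have a1 := abs_le.1 (h 1)
  have a2 := abs_le.1 (h 2)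
  have w0 : 0 ≤ (1 - r) ^ 2 := sq_nonneg _
  have w1 : 0 ≤ 2 * r * (1 - r) := mul_nonneg (by linarith) (by linarith)
  have w2 : 0 ≤ r ^ 2 := sq_nonneg _
  have es : s = (1 - r) ^ 2 * s + 2 * r * (1 - r) * s + r ^ 2 * s := by ring
  rw [e]
  refine abs_le.2 ⟨?_, ?_⟩
  · have b0 := mul_le_mul_of_nonneg_left a0.1 w0
    have b1 := mul_le_mul_of_nonneg_left a1.1 w1
    have b2 := mul_le_mul_of_nonneg_left a2.1 w2
    linarith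
  · have b0 := mul_le_mul_of_nonneg_left a0.2 w0
    have b1 := mul_le_mul_of_nonneg_left a1.2 w1
    have b2 := mul_le_mul_of_nonneg_left a2.2 w2
    linarith

theorem brn_near1 {r s : ℝ} (hr : I01 r) {Z T : Fin 3 → P9}
    (h : ∀ j, NrM s (Z j).1 (smM (2 ^ 48) (T j).1)) :
    NrM s (brn r Z).1 (smM (2 ^ 48) (brn r T).1) :=
  ⟨bq_near hr fun j => (h j).a, bq_near hr fun j => (h j).b, bq_near hr fun j => (h j).c,
    bq_near hr fun j => (h j).d, bq_near hr fun j => (h j).e, bq_near hr fun j => (h j).f,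
    bq_near hr fun j => (h j).g, bq_near hr fun j => (h j).h, bq_near hr fun j => (h j).i⟩

theorem brn_near2 {r s : ℝ} (hr : I01 r) {Z T : Fin 3 → P9}
    (h : ∀ j, NrM s (Z j).2 (smM (2 ^ 48) (T j).2)) :
    NrM s (brn r Z).2 (smM (2 ^ 48) (brn r T).2) :=
  ⟨bq_near hr fun j => (h j).a, bq_near hr fun j => (h j).b, bq_near hr fun j => (h j).c,
    bq_near hr fun j => (h j).d, bq_near hr fun j => (h j).e, bq_near hr fun j => (h j).f,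
    bq_near hr fun j => (h j).g, bq_near hr fun j => (h j).h, bq_near hr fun j => (h j).i⟩

theorem brn_TRW (o L tg : Bool) (h g r : ℝ) (p u0 um e1 e0 em w : Fin 3 → ℝ) :
    brn r (fun j => TRWr o L tg h g (p j) (u0 j) (um j) (e1 j) (e0 j) (em j) (w j)) =
      TRWr o L tg h g (bq r p) (bq r u0) (bq r um) (bq r e1) (bq r e0) (bq r em) (bq r w) := by
  cases o
  · cases tg <;>
      (refine Prod.ext (m9_ext ?_ ?_ ?_ ?_ ?_ ?_ ?_ ?_ ?_) (m9_ext ?_ ?_ ?_ ?_ ?_ ?_ ?_ ?_ ?_) <;>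
        simp only [brn, cmb, cm1, TRWr, mkM, bq, Bool.false_eq_true, if_false, if_true] <;> ring)
  · cases L <;> cases tg <;>
      (refine Prod.ext (m9_ext ?_ ?_ ?_ ?_ ?_ ?_ ?_ ?_ ?_) (m9_ext ?_ ?_ ?_ ?_ ?_ ?_ ?_ ?_ ?_) <;>
        simp only [brn, cmb, cm1, TRWr, mkM, bq, Bool.false_eq_true, if_false, if_true] <;> ring)

/-- the two kinds of families -/
def IntB (rm : ℝ) (TW : ℝ → ℝ → ℝ → ℝ → ℝ → P9) (c1 c2 c3 : ℕ) : Prop :=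
  ∀ {t1 t2 t3 c v2 v3 R : ℝ} {a1 b1 a2 b2 a3 b3 : ℕ}, Dr t1 a1 b1 c xc → Dr t2 a2 b2 v2 xx →
    Dr t3 a3 b3 v3 xx → 0 ≤ R → R ≤ rm → ∃ B : P9,
      Eb (TW c v2 v3 R (R ^ 2)).1 (it3 t1 t2 t3 fun c1 c2 c3 =>
        TW (kp a1 b1 c1) (kp a2 b2 c2) (kp a3 b3 c3) R (R ^ 2)).1 B.1 ∧
      Eb (TW c v2 v3 R (R ^ 2)).2 (it3 t1 t2 t3 fun c1 c2 c3 =>
        TW (kp a1 b1 c1) (kp a2 b2 c2) (kp a3 b3 c3) R (R ^ 2)).2 B.2 ∧
      gB B ≤ (1024 + (c1 : ℝ) / 8 * PP a1 b1 + (c2 : ℝ) / 8 * PP a2 b2 +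
        (c3 : ℝ) / 8 * PP a3 b3) ^ 2

def mR (r0 r1 : ℕ) (j : Fin 3) : ℝ :=
  ![(r0 : ℝ) / 2 ^ 48, ((r0 : ℝ) / 2 ^ 48 + (r1 : ℝ) / 2 ^ 48) / 2, (r1 : ℝ) / 2 ^ 48] j
def qR (r0 r1 : ℕ) (j : Fin 3) : ℝ :=
  ![(r0 : ℝ) / 2 ^ 48 * ((r0 : ℝ) / 2 ^ 48), (r0 : ℝ) / 2 ^ 48 * ((r1 : ℝ) / 2 ^ 48),
    (r1 : ℝ) / 2 ^ 48 * ((r1 : ℝ) / 2 ^ 48)] j

theorem exists_r {r0 r1 : ℕ} {R : ℝ} (h0 : (r0 : ℝ) ≤ 2 ^ 48 * R) (h1 : 2 ^ 48 * R ≤ r1) :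
    ∃ r, I01 r ∧ bq r (mR r0 r1) = R ∧ bq r (qR r0 r1) = R ^ 2 := by
  obtain ⟨r, hr, e⟩ : ∃ r, I01 r ∧ 2 ^ 48 * R = (1 - r) * r0 + r * r1 := by
    rcases (h0.trans h1).eq_or_lt with h | h
    · exact ⟨0, ⟨le_refl _, zero_le_one⟩, by rw [← h] at h1; linarith⟩
    · exact exists_t' h h0 h1
  have e' : R = (1 - r) * (r0 / 2 ^ 48) + r * (r1 / 2 ^ 48) := by linarith
  refine ⟨r, hr, ?_, ?_⟩
  · rw [e']
    simp only [bq, mR, Matrix.cons_val_zero, Matrix.cons_val_one, Matrix.cons_val]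
    ring
  · rw [e']
    simp only [bq, qR, Matrix.cons_val_zero, Matrix.cons_val_one, Matrix.cons_val]
    ring

theorem ap_r {r0 : ℕ} (h : r0 ≤ 187649984473771) : Ap 0 (7 / 10) ((r0 : ℝ) / 2 ^ 48) r0 := by
  have h' : (r0 : ℝ) ≤ 187649984473771 := by exact_mod_cast h
  refine ⟨by positivity, ?_, ?_⟩
  · rw [div_le_iff₀ (by positivity)]
    norm_num
    linarith
  · have e : (r0 : ℝ) - 2 ^ 48 * ((r0 : ℝ) / 2 ^ 48) = 0 := by ring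
    rw [e]
    simp

theorem ap_m {b : KT.Bx} (h : b.r0 ≤ b.r1) (h1 : b.r1 ≤ 187649984473771) (j : Fin 3) :
    Ap 1 (7 / 10) (mR b.r0 b.r1 j) (mJ b j) ∧ Ap 2 (1 / 2) (qR b.r0 b.r1 j) (qJ b j) ∧
      qR b.r0 b.r1 j ≤ 2 * mR b.r0 b.r1 j := by
  have x0 := ap_r (h.trans h1)
  have x1 := ap_r h1
  have m0 := x0.lo
  have m1 := x1.lo
  have n0 := x0.hi
  have n1 := x1.hi
  fin_cases j
  · refine ⟨x0.mono (by norm_num) (le_refl _),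
      (x0.mul x0 (by norm_num)).mono (by norm_num) (by norm_num), ?_⟩
    change (b.r0 : ℝ) / 2 ^ 48 * ((b.r0 : ℝ) / 2 ^ 48) ≤ 2 * ((b.r0 : ℝ) / 2 ^ 48)
    nlinarith
  · refine ⟨(((x0.add x1).shr 1).mono (by norm_num) (by norm_num)).congr ?_,
      (x0.mul x1 (by norm_num)).mono (by norm_num) (by norm_num), ?_⟩
    · change _ = ((b.r0 : ℝ) / 2 ^ 48 + (b.r1 : ℝ) / 2 ^ 48) / 2
      ring
    · change (b.r0 : ℝ) / 2 ^ 48 * ((b.r1 : ℝ) / 2 ^ 48) ≤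
        2 * (((b.r0 : ℝ) / 2 ^ 48 + (b.r1 : ℝ) / 2 ^ 48) / 2)
      nlinarith
  · refine ⟨x1.mono (by norm_num) (le_refl _),
      (x1.mul x1 (by norm_num)).mono (by norm_num) (by norm_num), ?_⟩
    change (b.r1 : ℝ) / 2 ^ 48 * ((b.r1 : ℝ) / 2 ^ 48) ≤ 2 * ((b.r1 : ℝ) / 2 ^ 48)
    nlinarith

theorem famB_of {rm : ℝ} {TW : ℝ → ℝ → ℝ → ℝ → ℝ → P9} {F : ℕ → ℕ → ℕ → ℕ → ℕ → KT.MP}
    {c1 c2 c3 : ℕ} (h1 : c1 ≤ 2 ^ 6) (h2 : c2 ≤ 2 ^ 6) (h3 : c3 ≤ 2 ^ 6)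
    (haff : ∀ (c h g r : ℝ) (m q : Fin 3 → ℝ), brn r (fun j => TW c h g (m j) (q j)) =
      TW c h g (bq r m) (bq r q))
    (hok : ∀ {c h g m q : ℝ} {cN hN gN mN qN : ℕ}, 1 ≤ c → Ap 1 (11 / 10) c cN → Ap 1 2 h hN →
      Ap 1 2 g gN → Ap 1 (7 / 10) m mN → Ap 2 (1 / 2) q qN → q ≤ 2 * m →
      (∃ Z, OkT (TW c h g m q).1 (F cN hN gN mN qN).1 Z) ∧
        (∃ Z, OkT (TW c h g m q).2 (F cN hN gN mN qN).2 Z))
    (hB : IntB rm TW c1 c2 c3) : FamB rm (fun k h g R => TW (2 / k) h g R (R ^ 2)) F c1 c2 c3 := by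
  intro b hb h19 v1 v2 v3 R hv hv0 hv1 hR
  have D := dir_c h19 hb.c1 hb.b1
  refine ⟨dT_le h1 h2 h3 ?_ ?_ ?_, ?_⟩
  · change Nat.succ (KT.p97 / b.a1) - KT.p97 / b.b1 ≤ 2 ^ 48
    have d1 := D.lo
    have d2 : Nat.succ (KT.p97 / b.a1) ≤ 2 ^ 49 := by
      have : ((Nat.succ (KT.p97 / b.a1) : ℕ) : ℝ) ≤ ((2 ^ 49 : ℕ) : ℝ) := by
        refine D.hi.trans ?_
        unfold xc
        norm_num
      exact_mod_cast this
    omega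
  · have := hb.a2
    have := hb.b2
    change b.b2 - b.a2 ≤ _
    omega
  · have := hb.a3
    have := hb.b3
    change b.b3 - b.a3 ≤ _
    omega
  obtain ⟨t1, d1⟩ : ∃ t, Dr t (KT.p97 / b.b1) (Nat.succ (KT.p97 / b.a1)) (2 / v1) xc :=
    D.d hv0 hv1
  obtain ⟨t2, d2⟩ := dir_of hv.v2 hb.a2 hb.c2 hb.b2
  obtain ⟨t3, d3⟩ := dir_of hv.v3 hb.a3 hb.c3 hb.b3
  obtain ⟨r, hr, er1, er2⟩ := exists_r hv.r0 hv.r1
  have R0 : 0 ≤ R := by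
    have := hv.r0
    have : (0 : ℝ) ≤ b.r0 := Nat.cast_nonneg _
    linarith
  have apc : ∀ e, Ap 1 (11 / 10) (kp (KT.p97 / b.b1) (Nat.succ (KT.p97 / b.a1)) e)
      (sl (KT.p97 / b.b1) (Nat.succ (KT.p97 / b.a1)) e) := by
    intro e
    refine ⟨by linarith [d1.k0 e], ?_, ?_⟩
    · have := d1.k1 e
      unfold xc at this
      linarith
    · unfold kp
      have e' : (sl (KT.p97 / b.b1) (Nat.succ (KT.p97 / b.a1)) e : ℝ) - 2 ^ 48 *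
          ((sl (KT.p97 / b.b1) (Nat.succ (KT.p97 / b.a1)) e : ℝ) / 2 ^ 48) = 0 := by ring
      rw [e']
      simp
  have hc := fun e1 e2 e3 j => hok (d1.k0 e1) (apc e1) (ap_kp hb.a2 hb.c2 hb.b2 e2)
    (ap_kp hb.a3 hb.c3 hb.b3 e3) (ap_m hb.r hb.r1 j).1 (ap_m hb.r hb.r1 j).2.1
    (ap_m hb.r hb.r1 j).2.2
  have hz1 := fun e1 e2 e3 j => (hc e1 e2 e3 j).1
  have hz2 := fun e1 e2 e3 j => (hc e1 e2 e3 j).2
  choose Z1 hZ1 using hz1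
  choose Z2 hZ2 using hz2
  obtain ⟨B, hB1, hB2, hB3⟩ := hB d1 d2 d3 R0 hR
  refine ⟨fun e1 e2 e3 j => (Z1 e1 e2 e3 j, Z2 e1 e2 e3 j), fun e1 e2 e3 j =>
    ⟨(hZ1 e1 e2 e3 j).rep, (hZ2 e1 e2 e3 j).rep, (hZ1 e1 e2 e3 j).bd, (hZ2 e1 e2 e3 j).bd⟩,
    t1, t2, t3, r, d1.t01, d2.t01, d3.t01, hr, ?_⟩
  refine (nearR d1.t01 d2.t01 d3.t01
    (W := fun e1 e2 e3 => brn r fun j => rP (Z1 e1 e2 e3 j, Z2 e1 e2 e3 j))
    (Tc := fun e1 e2 e3 => TW (kp (KT.p97 / b.b1) (Nat.succ (KT.p97 / b.a1)) e1)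
      (kp b.a2 b.b2 e2) (kp b.a3 b.b3 e3) R (R ^ 2))
    (fun e1 e2 e3 => ?_) (fun e1 e2 e3 => ?_) hB1 hB2).trans (hB3.trans ?_)
  · have h := haff (kp (KT.p97 / b.b1) (Nat.succ (KT.p97 / b.a1)) e1)
      (kp b.a2 b.b2 e2) (kp b.a3 b.b3 e3) r (mR b.r0 b.r1) (qR b.r0 b.r1)
    rw [er1, er2] at h
    rw [← h]
    exact brn_near1 hr fun j => (hZ1 e1 e2 e3 j).near
  · have h := haff (kp (KT.p97 / b.b1) (Nat.succ (KT.p97 / b.a1)) e1)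
      (kp b.a2 b.b2 e2) (kp b.a3 b.b3 e3) r (mR b.r0 b.r1) (qR b.r0 b.r1)
    rw [er1, er2] at h
    rw [← h]
    exact brn_near2 hr fun j => (hZ2 e1 e2 e3 j).near
  · have hd := dT_ge c1 c2 c3 (KT.dvC b) D.lt.le hb.c2 hb.c3
    have p1 := PP0 (KT.p97 / b.b1) (Nat.succ (KT.p97 / b.a1))
    have p2 := PP0 b.a2 b.b2
    have p3 := PP0 b.a3 b.b3
    exact pow_le_pow_left₀ (by positivity) hd 2

end Pool.Agent.Helper60.CXT
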