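import Pool.Agent.Helper60.CXT.Ct4

/-!
Far cells of tail classes, row CONT: at least four letters.
-/

set_option autoImplicit false
noncomputable section
namespace Pool.Agent.Helper60.CXT

open Pool.Agent.Helper94.CXF (M9)
open Pool.Agent.Helper94.CXF hiding cmb
open Pool.Agent.Helper94.CXF.SD
open Pool.Agent.Helper48.CXT

/-! ### corners -/

section
variable {h g p1 p0 u0 um e1 e0 em w : ℝ} {hN gN p1N p0N u0N umN e1N e0N emN wN : ℕ}

theorem ok_TRW (o L tg : Bool) (hh : Ap 1 2 h hN) (hg : Ap 1 2 g gN) (hp1 : Ap 16 3 p1 p1N)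
    (hp0 : Ap 16 3 p0 p0N) (hu0 : Ap 16 3 u0 u0N) (hum : Ap 16 3 um umN) (he1 : Ap 24 3 e1 e1N)
    (he0 : Ap 24 3 e0 e0N) (hem : Ap 24 3 em emN) (hw : Ap 16 3 w wN) :
    (∃ Z, OkT (TRWr o L tg h g (p1 - p0) u0 um e1 e0 em w).1
      (KT.TRW o L tg hN gN p1N p0N u0N umN e1N e0N emN wN).1 Z) ∧
    (∃ Z, OkT (TRWr o L tg h g (p1 - p0) u0 um e1 e0 em w).2
      (KT.TRW o L tg hN gN p1N p0N u0N umN e1N e0N emN wN).2 Z) := by
  have hhg := hh.mul hg (by norm_num)
  have hgg := hg.mul hg (by norm_num)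
  have hp := hp1.sub hp0 (by norm_num) (by norm_num) (by norm_num)
  cases o
  · constructor
    · exact ok_mk tg ((he1.mul hg (by norm_num)).en (by norm_num) (by norm_num))
        ((hu0.en (by norm_num) (by norm_num)).neg) en_zero
        ((he0.mul hg (by norm_num)).en (by norm_num) (by norm_num))
        ((hum.en (by norm_num) (by norm_num)).neg) en_zero (hw.en (by norm_num) (by norm_num))
        en_zero en_zero
    · exact ok_mk tg ((he0.mul hh (by norm_num)).en (by norm_num) (by norm_num)) en_zero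
        hp ((hem.mul hh (by norm_num)).en (by norm_num) (by norm_num)) en_zero
        (hu0.en (by norm_num) (by norm_num)) en_zero en_zero en_zero
  · cases L
    · constructor
      · exact ok_mk tg ((he0.mul hh (by norm_num)).en (by norm_num) (by norm_num)) en_zero en_zero
          ((hem.mul hh (by norm_num)).en (by norm_num) (by norm_num)) en_zero en_zero
          (hw.en (by norm_num) (by norm_num)) en_zero en_zero
      · exact ok_mk tg ((he1.mul hg (by norm_num)).en (by norm_num) (by norm_num))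
          hp ((hu0.en (by norm_num) (by norm_num)).neg)
          ((he0.mul hg (by norm_num)).en (by norm_num) (by norm_num))
          (hu0.en (by norm_num) (by norm_num)) ((hum.en (by norm_num) (by norm_num)).neg)
          en_zero en_zero en_zero
    · constructor
      · exact ok_mk tg ((he0.mul hhg (by norm_num)).en (by norm_num) (by norm_num))
          (((hp1.mul hhg (by norm_num)).sub (hp0.mul hhg (by norm_num)) (by norm_num)
            (by norm_num) (by norm_num)).congr (by ring)) en_zero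
          ((hem.mul hhg (by norm_num)).en (by norm_num) (by norm_num))
          ((hu0.mul hhg (by norm_num)).en (by norm_num) (by norm_num)) en_zero
          ((hw.mul hg (by norm_num)).en (by norm_num) (by norm_num)) en_zero en_zero
      · exact ok_mk tg ((he1.mul hgg (by norm_num)).sub hu0 (by norm_num) (by norm_num)
            (by norm_num)) en_zero ((hu0.en (by norm_num) (by norm_num)).neg)
          ((he0.mul hgg (by norm_num)).sub hum (by norm_num) (by norm_num) (by norm_num)) en_zero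
          ((hum.en (by norm_num) (by norm_num)).neg) en_zero en_zero en_zero

end

/-- odd number of letters -/
def TWo (o L tg : Bool) (c h g m q : ℝ) : P9 :=
  TRWr o L tg h g (2 * m + q - (c ^ 2 - 1)) (2 * c * m) (2 * m - q + (c ^ 2 - 1))
    (c * (1 + m)) (c ^ 2) (c * (1 - m)) (q + (c ^ 2 - 1))
/-- even number of letters -/
def TWe (o L tg : Bool) (c h g m q : ℝ) : P9 :=
  TRWr o L tg h g (2 * m + q - (c ^ 2 - 1)) (2 * c * m) (2 * m - q + (c ^ 2 - 1))
    (c * (1 + m) + c * ((q + (c ^ 2 - 1)) / (2 * (c + 1))))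
    (c ^ 2 - c * ((q + (c ^ 2 - 1)) / (2 * (c + 1))))
    (c * (1 - m) + c * ((q + (c ^ 2 - 1)) / (2 * (c + 1)))) (q + (c ^ 2 - 1))

theorem aff_o (o L tg : Bool) (c h g r : ℝ) (m q : Fin 3 → ℝ) :
    brn r (fun j => TWo o L tg c h g (m j) (q j)) = TWo o L tg c h g (bq r m) (bq r q) := by
  unfold TWo
  rw [brn_TRW]
  congr 1 <;> (unfold bq; ring)

theorem aff_e (o L tg : Bool) (c h g r : ℝ) (m q : Fin 3 → ℝ) :
    brn r (fun j => TWe o L tg c h g (m j) (q j)) = TWe o L tg c h g (bq r m) (bq r q) := by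
  unfold TWe
  rw [brn_TRW]
  congr 1 <;> (unfold bq; ring)

section
variable {c m q : ℝ} {cN mN qN : ℕ}

structure ApC (c m q : ℝ) (cN mN qN : ℕ) : Prop where
  p1 : Ap 4 2 (2 * m + q) (Nat.add (Nat.add mN mN) qN)
  p0 : Ap 5 1 (c ^ 2 - 1) (KT.su (KN.mu cN cN))
  u0 : Ap 8 2 (2 * c * m) (Nat.mul (nat_lit 2) (KN.mu cN mN))
  um : Ap 9 3 (2 * m - q + (c ^ 2 - 1)) (Nat.sub (Nat.add (Nat.add mN mN) (KT.su (KN.mu cN cN))) qN)
  e1 : Ap 5 2 (c * (1 + m)) (Nat.add cN (KN.mu cN mN))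
  e0 : Ap 5 2 (c ^ 2) (KN.mu cN cN)
  em : Ap 5 2 (c * (1 - m)) (Nat.sub cN (KN.mu cN mN))
  w : Ap 7 2 (q + (c ^ 2 - 1)) (Nat.add qN (KT.su (KN.mu cN cN)))

theorem apC (c1 : 1 ≤ c) (hc : Ap 1 (11 / 10) c cN) (hm : Ap 1 (7 / 10) m mN)
    (hq : Ap 2 (1 / 2) q qN) (hqm : q ≤ 2 * m) : ApC c m q cN mN qN := by
  have hcc := hc.mul hc (by norm_num)
  have hcm := hc.mul hm (by norm_num)
  have hmm := hm.add hm
  have hs : Ap 5 1 (c ^ 2 - 1) (KT.su (KN.mu cN cN)) := by
    have h := hcc.tsub ap_one (by nlinarith)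
    refine ⟨?_, ?_, ?_⟩
    · nlinarith
    · have := hc.hi
      nlinarith
    · have := h.er
      rw [show c ^ 2 - 1 = c * c - 1 by ring]
      exact this.trans (by norm_num)
  have s0 := hs.lo
  refine ⟨?_, hs, ?_, ?_, ?_, ?_, ?_, ?_⟩
  · exact ((hmm.add hq).mono (by norm_num) (by norm_num)).congr (by ring)
  · exact (hcm.two.mono (by norm_num) (by norm_num)).congr (by ring)
  · exact (((hmm.add hs).tsub hq (by linarith)).mono (by norm_num) (by norm_num)).congr (by ring)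
  · exact ((hc.add hcm).mono (by norm_num) (by norm_num)).congr (by ring)
  · exact (hcc.mono (by norm_num) (by norm_num)).congr (by ring)
  · refine ((hc.tsub hcm ?_).mono (by norm_num) (by norm_num)).congr (by ring)
    have := hm.hi
    have := hc.lo
    nlinarith
  · exact (hq.add hs).mono (by norm_num) (by norm_num)

theorem ok_FO (o L tg : Bool) {h g : ℝ} {hN gN : ℕ} (c1 : 1 ≤ c) (hc : Ap 1 (11 / 10) c cN)
    (hh : Ap 1 2 h hN) (hg : Ap 1 2 g gN) (hm : Ap 1 (7 / 10) m mN) (hq : Ap 2 (1 / 2) q qN)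
    (hqm : q ≤ 2 * m) :
    (∃ Z, OkT (TWo o L tg c h g m q).1 (KT.FO o L tg cN hN gN mN qN).1 Z) ∧
      (∃ Z, OkT (TWo o L tg c h g m q).2 (KT.FO o L tg cN hN gN mN qN).2 Z) := by
  have A := apC c1 hc hm hq hqm
  exact ok_TRW o L tg hh hg (A.p1.mono (by norm_num) (by norm_num))
    (A.p0.mono (by norm_num) (by norm_num)) (A.u0.mono (by norm_num) (by norm_num))
    (A.um.mono (by norm_num) (by norm_num)) (A.e1.mono (by norm_num) (by norm_num))
    (A.e0.mono (by norm_num) (by norm_num)) (A.em.mono (by norm_num) (by norm_num))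
    (A.w.mono (by norm_num) (by norm_num))

theorem ap_cz (c1 : 1 ≤ c) (hc : Ap 1 (11 / 10) c cN) (hq : Ap 2 (1 / 2) q qN) :
    Ap 6 (1 / 4) (c * ((q + (c ^ 2 - 1)) / (2 * (c + 1)))) (KT.czN cN qN) := by
  have q0 := hq.lo
  have q1 := hq.hi
  have c2 := hc.hi
  have hs : Ap 1 (1 / 10) (c - 1) (KT.su cN) := by
    have h := hc.tsub ap_one c1
    exact ⟨h.lo, by linarith, h.er.trans (by norm_num)⟩
  have h2 := (hc.mul hs (by norm_num)).shr 1
  obtain ⟨y, hy⟩ : ∃ y, y = c * q / (2 * (c + 1)) := ⟨_, rfl⟩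
  have hy' : y * (2 * (c + 1)) = c * q := by
    rw [hy]
    field_simp
  have y0 : 0 ≤ y := by
    rw [hy]
    positivity
  have y1 : y ≤ 11 / 80 := by
    have : y * 4 ≤ 11 / 20 := by nlinarith
    linarith
  have h1 : Ap 2 (11 / 80) y (Nat.div (Nat.mul cN qN) (Nat.mul (nat_lit 2) (Nat.add cN KN.u1N))) := by
    refine ⟨y0, y1, ?_⟩
    have e : Nat.div (Nat.mul cN qN) (Nat.mul (nat_lit 2) (Nat.add cN KN.u1N)) =
        cN * qN / (2 * (cN + 2 ^ 48)) := by
      have : KN.u1N = 2 ^ 48 := by decide +kernel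
      rw [← this]
      rfl
    rw [e]
    have er1 := hc.er
    have er2 := hq.er
    have f1 : cN * qN / (2 * (cN + 2 ^ 48)) * (2 * (cN + 2 ^ 48)) ≤ cN * qN :=
      Nat.div_mul_le_self _ _
    have f2 : cN * qN < (cN * qN / (2 * (cN + 2 ^ 48)) + 1) * (2 * (cN + 2 ^ 48)) := by
      have := Nat.lt_div_mul_add (a := cN * qN) (b := 2 * (cN + 2 ^ 48)) (by positivity)
      linarith
    generalize cN * qN / (2 * (cN + 2 ^ 48)) = n at *
    have g1 : (n : ℝ) * (2 * ((cN : ℝ) + 2 ^ 48)) ≤ (cN : ℝ) * qN := by exact_mod_cast f1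
    have g2 : (cN : ℝ) * qN < ((n : ℝ) + 1) * (2 * ((cN : ℝ) + 2 ^ 48)) := by exact_mod_cast f2
    generalize hd1 : (cN : ℝ) - 2 ^ 48 * c = d1 at *
    generalize hd2 : (qN : ℝ) - 2 ^ 48 * q = d2 at *
    have ec := abs_le.1 er1
    have hcN : (cN : ℝ) = 2 ^ 48 * c + d1 := by linarith
    have hqN : (qN : ℝ) = 2 ^ 48 * q + d2 := by linarith
    have ep : (cN : ℝ) * qN = 2 ^ 96 * (y * (2 * (c + 1))) + 2 ^ 48 * (c * d2) +
        2 ^ 48 * (q * d1) + d1 * d2 := by
      rw [hcN, hqN, hy']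
      ring
    have ew : 2 ^ 96 * (y * (2 * (c + 1))) = 2 ^ 48 * y * (2 * ((cN : ℝ) + 2 ^ 48)) -
        2 ^ 49 * (y * d1) := by
      rw [hcN]
      ring
    have W0 : (2 : ℝ) ^ 50 - 2 ≤ 2 * ((cN : ℝ) + 2 ^ 48) := by
      rw [hcN]
      nlinarith
    generalize 2 * ((cN : ℝ) + 2 ^ 48) = W at *
    have Wp : 0 < W := by linarith
    have b1 : |c * d2| ≤ 11 / 10 * 2 := by
      rw [abs_mul, abs_of_nonneg hc.lo]
      exact mul_le_mul c2 er2 (abs_nonneg _) (by norm_num)
    have b2 : |q * d1| ≤ 1 / 2 * 1 := by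
      rw [abs_mul, abs_of_nonneg q0]
      exact mul_le_mul q1 er1 (abs_nonneg _) (by norm_num)
    have b3 : |d1 * d2| ≤ 1 * 2 := by
      rw [abs_mul]
      exact mul_le_mul er1 er2 (abs_nonneg _) (by norm_num)
    have b4 : |y * d1| ≤ 11 / 80 * 1 := by
      rw [abs_mul, abs_of_nonneg y0]
      exact mul_le_mul y1 er1 (abs_nonneg _) (by norm_num)
    have b1 := abs_le.1 b1
    have b2 := abs_le.1 b2
    have b3 := abs_le.1 b3
    have b4 := abs_le.1 b4
    have key : |((n : ℝ) - 2 ^ 48 * y) * W| ≤ 2 * W := by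
      refine abs_le.2 ⟨?_, ?_⟩
      · linarith
      · linarith
    rw [abs_mul, abs_of_pos Wp] at key
    exact le_of_mul_le_mul_right key Wp
  have h3 := h1.add h2
  have e9 : y + c * (c - 1) / 2 ^ 1 = c * ((q + (c ^ 2 - 1)) / (2 * (c + 1))) := by
    rw [hy]
    field_simp
    ring
  have h4 : Ap 6 (1 / 4) (y + c * (c - 1) / 2 ^ 1) (KT.czN cN qN) :=
    h3.mono (by norm_num) (by norm_num)
  exact h4.congr e9

theorem ok_FE (o L tg : Bool) {h g : ℝ} {hN gN : ℕ} (c1 : 1 ≤ c) (hc : Ap 1 (11 / 10) c cN)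
    (hh : Ap 1 2 h hN) (hg : Ap 1 2 g gN) (hm : Ap 1 (7 / 10) m mN) (hq : Ap 2 (1 / 2) q qN)
    (hqm : q ≤ 2 * m) :
    (∃ Z, OkT (TWe o L tg c h g m q).1 (KT.FE o L tg cN hN gN mN qN).1 Z) ∧
      (∃ Z, OkT (TWe o L tg c h g m q).2 (KT.FE o L tg cN hN gN mN qN).2 Z) := by
  have A := apC c1 hc hm hq hqm
  have Z := ap_cz c1 hc hq
  have z1 := Z.hi
  exact ok_TRW o L tg hh hg (A.p1.mono (by norm_num) (by norm_num))
    (A.p0.mono (by norm_num) (by norm_num)) (A.u0.mono (by norm_num) (by norm_num))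
    (A.um.mono (by norm_num) (by norm_num)) ((A.e1.add Z).mono (by norm_num) (by norm_num))
    ((A.e0.tsub Z (by nlinarith)).mono (by norm_num) (by norm_num))
    ((A.em.add Z).mono (by norm_num) (by norm_num))
    (A.w.mono (by norm_num) (by norm_num))

end

end Pool.Agent.Helper60.CXT
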