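import Pool.Agent.Helper60.CXT.Ct5

/-!
Far cells of tail classes, row CONT: interpolation for at least four letters.
-/

set_option autoImplicit false
noncomputable section
namespace Pool.Agent.Helper60.CXT

open Pool.Agent.Helper94.CXF (M9)
open Pool.Agent.Helper94.CXF hiding cmb
open Pool.Agent.Helper94.CXF.SD
open Pool.Agent.Helper48.CXT

section
variable {t c R rm : ℝ} {a b : ℕ}

/-- `c² + β` -/
theorem Dr.s2 (h : Dr t a b c xc) {β Y : ℝ} (hb : |β| ≤ Y) :
    Cl (2 * xc + PP a b) (xc * xc + Y) (c * c + β)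
      (i1 t fun c1 => kp a b c1 * kp a b c1 + β) := by
  have h1 := h.c2.add (Cl.const hb)
  refine (h1.mono (by linarith) (le_refl _)).congr rfl ?_
  unfold m2 i1
  ring

/-- `β - c²` -/
theorem Dr.n2 (h : Dr t a b c xc) {β Y : ℝ} (hb : |β| ≤ Y) :
    Cl (2 * xc + PP a b) (xc * xc + Y) (β - c * c)
      (i1 t fun c1 => β - kp a b c1 * kp a b c1) := by
  have h1 := (Cl.const hb).sub h.c2
  refine (h1.mono (by linarith) (by linarith)).congr rfl ?_
  unfold m2 i1
  ring

/-- `c β` -/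
theorem Dr.s1 (h : Dr t a b c xc) {β Y : ℝ} (hb : |β| ≤ Y) :
    Cl Y (xc * Y) (c * β) (i1 t fun c1 => kp a b c1 * β) := by
  have h1 := h.c1.mul (Cl.const hb)
  refine (h1.mono (by linarith) (le_refl _)).congr rfl ?_
  unfold m1 i1
  ring

/-- scalars with no `z` -/
structure Sc (t c R rm : ℝ) (a b : ℕ) : Prop where
  p : Cl (2 * xc + PP a b) 5 (2 * R + R ^ 2 - (c ^ 2 - 1))
    (i1 t fun c1 => 2 * R + R ^ 2 - (kp a b c1 ^ 2 - 1))
  u0 : Cl (2 * rm) (xc * (2 * rm)) (2 * c * R) (i1 t fun c1 => 2 * kp a b c1 * R)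
  um : Cl (2 * xc + PP a b) 5 (2 * R - R ^ 2 + (c ^ 2 - 1))
    (i1 t fun c1 => 2 * R - R ^ 2 + (kp a b c1 ^ 2 - 1))
  e1 : Cl (1 + rm) (xc * (1 + rm)) (c * (1 + R)) (i1 t fun c1 => kp a b c1 * (1 + R))
  e0 : Cl (2 * xc + PP a b) (xc * xc) (c ^ 2) (i1 t fun c1 => kp a b c1 ^ 2)
  em : Cl 1 xc (c * (1 - R)) (i1 t fun c1 => kp a b c1 * (1 - R))
  w : Cl (2 * xc + PP a b) 5 (R ^ 2 + (c ^ 2 - 1))
    (i1 t fun c1 => R ^ 2 + (kp a b c1 ^ 2 - 1))

theorem sc_of (h : Dr t a b c xc) (R0 : 0 ≤ R) (R1 : R ≤ rm) (hr : rm ≤ 2 / 3) :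
    Sc t c R rm a b := by
  have x2 : xc * xc ≤ 2 := by
    unfold xc
    norm_num
  have R2 : R ^ 2 ≤ R := by nlinarith
  have R3 : 0 ≤ R ^ 2 := sq_nonneg R
  refine ⟨?_, ?_, ?_, ?_, ?_, ?_, ?_⟩
  · have h1 := (h.n2 (β := 2 * R + R ^ 2 + 1) (Y := 3) (abs_le.2 ⟨by linarith, by linarith⟩))
    refine (h1.mono (le_refl _) (by linarith)).congr (by ring) ?_
    unfold i1
    ring
  · have h1 := (h.s1 (β := 2 * R) (Y := 2 * rm) (abs_le.2 ⟨by linarith, by linarith⟩))
    refine h1.congr (by ring) ?_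
    unfold i1
    ring
  · have h1 := (h.s2 (β := 2 * R - R ^ 2 - 1) (Y := 3) (abs_le.2 ⟨by linarith, by linarith⟩))
    refine (h1.mono (le_refl _) (by linarith)).congr (by ring) ?_
    unfold i1
    ring
  · exact (h.s1 (β := 1 + R) (Y := 1 + rm) (abs_le.2 ⟨by linarith, by linarith⟩))
  · refine h.c2.congr (by ring) ?_
    unfold m2 i1
    ring
  · have h1 := (h.s1 (β := 1 - R) (Y := 1) (abs_le.2 ⟨by linarith, by linarith⟩))
    exact h1.mono (le_refl _) (by linarith)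
  · have h1 := (h.s2 (β := R ^ 2 - 1) (Y := 3) (abs_le.2 ⟨by linarith, by linarith⟩))
    refine (h1.mono (le_refl _) (by linarith)).congr (by ring) ?_
    unfold i1
    ring

/-- `g² - 1` -/
theorem Dr.cn {v : ℝ} (h : Dr t a b v xx) :
    Cl (2 * xx + PP a b) (3 + 1 / 10 ^ 5) (v * v - 1) (m2 t a b - 1) := by
  have v0 := h.v0
  have v1 := h.v1
  unfold xx at v1
  refine ⟨?_, ?_, ?_⟩
  · rw [abs_le]
    constructor <;> nlinarith
  · have e : m2 t a b - 1 = i1 t fun c => kp a b c * kp a b c - 1 := by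
      unfold m2 i1
      ring
    rw [e, abs_le]
    constructor
    · refine le_i1 h.t01 fun c => ?_
      have := h.k0 c
      nlinarith
    · refine i1_le h.t01 fun c => ?_
      have := h.k0 c
      have h3 := h.k1 c
      unfold xx at h3
      nlinarith
  · have e : v * v - 1 - (m2 t a b - 1) = v * v - m2 t a b := by ring
    rw [e]
    exact h.c2.er

theorem int_od (o L tg : Bool) : IntB (1 / 2) (TWo o L tg) (cLL o L 52 22) 0 (cLL o L 7 0) := by
  intro t1 t2 t3 c v2 v3 R a1 b1 a2 b2 a3 b3 d1 d2 d3 R0 R1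
  have S := sc_of d1 R0 R1 (by norm_num)
  have p1 := PP0 a1 b1
  have p3 := PP0 a3 b3
  unfold TWo
  cases o
  · obtain ⟨B, hB1, hB2, hB3⟩ := run_f (tg := tg) d2 d3 S.p S.u0 S.um S.e1 S.e0 S.em S.w L
    refine ⟨B, hB1, hB2, hB3.le.trans ?_⟩
    have e1 : cLL false L 52 22 = 22 := by cases L <;> rfl
    have e2 : cLL false L 7 0 = 0 := by cases L <;> rfl
    rw [e1, e2]
    simp only [q2, xx, xc]
    generalize PP a1 b1 = P1 at *
    generalize PP a2 b2 = P2 at *
    generalize PP a3 b3 = P3 at *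
    push_cast
    linarith [mul_nonneg p1 p1, mul_nonneg p1 p3, mul_nonneg p3 p3]
  · cases L
    · obtain ⟨B, hB1, hB2, hB3⟩ := run_t (tg := tg) d2 d3 S.p S.u0 S.um S.e1 S.e0 S.em S.w
      refine ⟨B, hB1, hB2, hB3.le.trans ?_⟩
      have e1 : cLL true false 52 22 = 22 := rfl
      have e2 : cLL true false 7 0 = 0 := rfl
      rw [e1, e2]
      simp only [q2, xx, xc]
      generalize PP a1 b1 = P1 at *
      generalize PP a2 b2 = P2 at *
      generalize PP a3 b3 = P3 at *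
      push_cast
      linarith [mul_nonneg p1 p1, mul_nonneg p1 p3, mul_nonneg p3 p3]
    · have K1 := (S.e1.mul d3.c2).sub S.u0
      have R2 : R ^ 2 ≤ R := by nlinarith
      have R3 : 0 ≤ R ^ 2 := sq_nonneg R
      have K0 := ((d1.c2.mul d3.cn).sub (Cl.const (x := 2 * R - R ^ 2 - 1) (X := 3)
        (abs_le.2 ⟨by linarith, by linarith⟩))).congr
        (x' := c ^ 2 * (v3 * v3) - (2 * R - R ^ 2 + (c ^ 2 - 1)))
        (y' := (i1 t1 fun c1 => kp a1 b1 c1 ^ 2) * m2 t3 a3 b3 -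
          i1 t1 fun c1 => 2 * R - R ^ 2 + (kp a1 b1 c1 ^ 2 - 1)) (by ring)
          (by unfold m2 i1; ring)
      obtain ⟨B, hB1, hB2, hB3⟩ := run_L (tg := tg) d2 d3 S.p S.u0 S.um S.e0 S.em S.w K1 K0
      refine ⟨B, hB1, hB2, hB3.le.trans ?_⟩
      have e1 : cLL true true 52 22 = 52 := rfl
      have e2 : cLL true true 7 0 = 7 := rfl
      rw [e1, e2]
      simp only [q2, xx, xc]
      generalize PP a1 b1 = P1 at *
      generalize PP a2 b2 = P2 at *
      generalize PP a3 b3 = P3 at *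
      push_cast
      linarith [mul_nonneg p1 p1, mul_nonneg p1 p3, mul_nonneg p3 p3]

/-! ### the term `c z` -/

theorem Dr.yc (h : Dr t a b c xc) :
    Cl (1 / 16 * PP a b + 1) (26 / 100) (c / (2 * (c + 1)))
      (i1 t fun c1 => kp a b c1 / (2 * (kp a b c1 + 1))) := by
  have c0 := h.v0
  have c1 := h.v1
  have k0 := h.k0
  have k1 := h.k1
  have m0 : 1 ≤ m1 t a b := le_i1 h.t01 h.k0
  have mx : m1 t a b ≤ xc := i1_le h.t01 h.k1
  have key : ∀ w : ℝ, 1 - 1 / 10 ^ 6 ≤ w → w ≤ xc → 0 ≤ w / (2 * (w + 1)) ∧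
      w / (2 * (w + 1)) ≤ 26 / 100 := by
    intro w w0 w1
    unfold xc at w1
    have : 0 < 2 * (w + 1) := by linarith
    refine ⟨div_nonneg (by linarith) this.le, ?_⟩
    rw [div_le_iff₀ this]
    linarith
  refine ⟨?_, ?_, ?_⟩
  · rw [abs_of_nonneg (key c c0 c1).1]
    exact (key c c0 c1).2
  · rw [abs_of_nonneg (le_i1 h.t01 fun e => (key _ (by linarith [k0 e]) (k1 e)).1)]
    exact i1_le h.t01 fun e => (key _ (by linarith [k0 e]) (k1 e)).2
  · have ea : 2 ^ 48 * |c / (2 * (c + 1)) - m1 t a b / (2 * (m1 t a b + 1))| ≤ 1 := by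
      have e : c / (2 * (c + 1)) - m1 t a b / (2 * (m1 t a b + 1)) =
          (c - m1 t a b) / (2 * ((c + 1) * (m1 t a b + 1))) := by
        have : c + 1 ≠ 0 := by linarith
        have : m1 t a b + 1 ≠ 0 := by linarith
        field_simp
        ring
      have hD : 1 ≤ 2 * ((c + 1) * (m1 t a b + 1)) := by nlinarith
      rw [e, abs_div, abs_of_pos (show 0 < 2 * ((c + 1) * (m1 t a b + 1)) by linarith), ← mul_div_assoc,
        div_le_iff₀ (by linarith)]
      exact h.er.trans (by linarith)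
    have eb : 2 ^ 48 * |m1 t a b / (2 * (m1 t a b + 1)) -
        i1 t fun c1 => kp a b c1 / (2 * (kp a b c1 + 1))| ≤ 1 / 16 * PP a b := by
      have ka := k0 false
      have kb := k0 true
      have hP := PP0 a b
      obtain ⟨h2, h3⟩ := tt h.t01
      have e : 2 ^ 48 * (m1 t a b / (2 * (m1 t a b + 1)) -
          i1 t fun c1 => kp a b c1 / (2 * (kp a b c1 + 1))) =
          4 * (t * (1 - t)) * PP a b /
            (2 * ((kp a b false + 1) * ((kp a b true + 1) * (m1 t a b + 1)))) := by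
        have eP : PP a b = 2 ^ 46 * (kp a b true - kp a b false) ^ 2 := by
          unfold PP
          rw [kp_f, kp_t]
          ring
        rw [eP]
        have em : m1 t a b = (1 - t) * kp a b false + t * kp a b true := rfl
        have ei : (i1 t fun c1 => kp a b c1 / (2 * (kp a b c1 + 1))) =
          (1 - t) * (kp a b false / (2 * (kp a b false + 1))) +
            t * (kp a b true / (2 * (kp a b true + 1))) := rfl
        rw [ei]
        rw [em] at m0 ⊢
        generalize kp a b false = A at *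
        generalize kp a b true = C at *
        have n1 : A + 1 ≠ 0 := by linarith
        have n2 : C + 1 ≠ 0 := by linarith
        have n3 : (1 - t) * A + t * C + 1 ≠ 0 := by linarith
        field_simp
        ring
      have hD : 16 ≤ 2 * ((kp a b false + 1) * ((kp a b true + 1) * (m1 t a b + 1))) := by
        have g1 : 4 ≤ (kp a b true + 1) * (m1 t a b + 1) := by nlinarith
        nlinarith
      have hN : 0 ≤ 4 * (t * (1 - t)) * PP a b := by positivity
      have hN1 : 4 * (t * (1 - t)) * PP a b ≤ PP a b := by nlinarith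
      have h7 : |2 ^ 48 * (m1 t a b / (2 * (m1 t a b + 1)) -
          i1 t fun c1 => kp a b c1 / (2 * (kp a b c1 + 1)))| ≤ 1 / 16 * PP a b := by
        rw [e, abs_of_nonneg (div_nonneg hN (by linarith)), div_le_iff₀ (by linarith)]
        nlinarith
      rwa [abs_mul, abs_of_pos (show (0 : ℝ) < 2 ^ 48 by positivity)] at h7
    have := abs_sub_le (c / (2 * (c + 1))) (m1 t a b / (2 * (m1 t a b + 1)))
      (i1 t fun c1 => kp a b c1 / (2 * (kp a b c1 + 1)))
    linarith

theorem cz_eq {k : ℝ} (hk : k + 1 ≠ 0) (Q : ℝ) :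
    k * ((Q + (k ^ 2 - 1)) / (2 * (k + 1))) = Q * (k / (2 * (k + 1))) + (k * k - k) / 2 := by
  field_simp
  ring

structure Zc (t c R : ℝ) (a b : ℕ) : Prop where
  e1 : Cl (4 + 53 / 100 * PP a b) (191 / 100)
    (c * (1 + R) + c * ((R ^ 2 + (c ^ 2 - 1)) / (2 * (c + 1))))
    (i1 t fun c1 => kp a b c1 * (1 + R) +
      kp a b c1 * ((R ^ 2 + (kp a b c1 ^ 2 - 1)) / (2 * (kp a b c1 + 1))))
  e0 : Cl (4 + 53 / 100 * PP a b) (6 / 5)
    (c ^ 2 - c * ((R ^ 2 + (c ^ 2 - 1)) / (2 * (c + 1))))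
    (i1 t fun c1 => kp a b c1 ^ 2 -
      kp a b c1 * ((R ^ 2 + (kp a b c1 ^ 2 - 1)) / (2 * (kp a b c1 + 1))))
  em : Cl (4 + 53 / 100 * PP a b) (191 / 100)
    (c * (1 - R) + c * ((R ^ 2 + (c ^ 2 - 1)) / (2 * (c + 1))))
    (i1 t fun c1 => kp a b c1 * (1 - R) +
      kp a b c1 * ((R ^ 2 + (kp a b c1 ^ 2 - 1)) / (2 * (kp a b c1 + 1))))

theorem zc_of (h : Dr t a b c xc) (R0 : 0 ≤ R) (R1 : R ≤ 2 / 3) : Zc t c R a b := by
  have S := sc_of h R0 R1 (le_refl _)
  have R2 : R ^ 2 ≤ 4 / 9 := by nlinarith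
  have R3 : 0 ≤ R ^ 2 := sq_nonneg R
  have k0 := h.k0
  have k1 := h.k1
  have c0 := h.v0
  have c1 := h.v1
  have hP := PP0 a b
  have Y := (Cl.const (x := R ^ 2) (X := 4 / 9) (abs_le.2 ⟨by linarith, R2⟩)).mul h.yc
  have ec : c * ((R ^ 2 + (c ^ 2 - 1)) / (2 * (c + 1))) =
      R ^ 2 * (c / (2 * (c + 1))) + (c * c - c) / 2 := cz_eq (by linarith) _
  have ek : (fun e => kp a b e * ((R ^ 2 + (kp a b e ^ 2 - 1)) / (2 * (kp a b e + 1)))) =
      fun e => R ^ 2 * (kp a b e / (2 * (kp a b e + 1))) + (kp a b e * kp a b e - kp a b e) / 2 :=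
    funext fun e => cz_eq (by linarith [k0 e]) _
  have ek' : ∀ e, kp a b e * ((R ^ 2 + (kp a b e ^ 2 - 1)) / (2 * (kp a b e + 1))) =
      R ^ 2 * (kp a b e / (2 * (kp a b e + 1))) + (kp a b e * kp a b e - kp a b e) / 2 :=
    fun e => cz_eq (by linarith [k0 e]) _
  have key : ∀ w : ℝ, 1 - 1 / 10 ^ 6 ≤ w → w ≤ xc → -(3 / 100) ≤ 1 / 2 * (w * w - w) ∧
      1 / 2 * (w * w - w) ≤ 3 / 100 := by
    intro w w0 w1
    unfold xc at w1
    constructor <;> nlinarith
  have V : Cl (1 / 2 * (2 * xc + PP a b + 1)) (3 / 100) (1 / 2 * (c * c - c))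
      (1 / 2 * (m2 t a b - m1 t a b)) := by
    have h1 := (h.c2.sub h.c1).smul (c := 1 / 2) (by norm_num)
    refine ⟨abs_le.2 (key c c0 c1), ?_, h1.er⟩
    have e : 1 / 2 * (m2 t a b - m1 t a b) =
        i1 t fun e => 1 / 2 * (kp a b e * kp a b e - kp a b e) := by
      unfold m2 m1 i1
      ring
    rw [e]
    exact abs_le.2 ⟨le_i1 h.t01 fun e => (key _ (by linarith [k0 e]) (k1 e)).1,
      i1_le h.t01 fun e => (key _ (by linarith [k0 e]) (k1 e)).2⟩
  have V' := (h.c2.add h.c1).smul (c := 1 / 2) (by norm_num)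
  have Z := Y.add V
  refine ⟨?_, ?_, ?_⟩
  · refine ((S.e1.add Z).mono ?_ ?_).congr ?_ ?_
    · unfold xc
      linarith
    · unfold xc
      norm_num
    · rw [ec]
      ring
    · simp only [ek']
      unfold m2 m1 i1
      ring
  · refine ((V'.sub Y).mono ?_ ?_).congr ?_ ?_
    · unfold xc
      linarith
    · unfold xc
      norm_num
    · rw [ec]
      ring
    · simp only [ek']
      unfold m2 m1 i1
      ring
  · refine ((S.em.add Z).mono ?_ ?_).congr ?_ ?_
    · unfold xc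
      linarith
    · unfold xc
      norm_num
    · rw [ec]
      ring
    · simp only [ek']
      unfold m2 m1 i1
      ring

theorem int_ev (o L tg : Bool) : IntB (2 / 3) (TWe o L tg) (cLL o L 52 22) 0 (cLL o L 7 0) := by
  intro t1 t2 t3 c v2 v3 R a1 b1 a2 b2 a3 b3 d1 d2 d3 R0 R1
  have S := sc_of d1 R0 R1 (le_refl _)
  have Z := zc_of d1 R0 R1
  have p1 := PP0 a1 b1
  have p3 := PP0 a3 b3
  unfold TWe
  cases o
  · obtain ⟨B, hB1, hB2, hB3⟩ := run_f (tg := tg) d2 d3 S.p S.u0 S.um Z.e1 Z.e0 Z.em S.w L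
    refine ⟨B, hB1, hB2, hB3.le.trans ?_⟩
    have e1 : cLL false L 52 22 = 22 := by cases L <;> rfl
    have e2 : cLL false L 7 0 = 0 := by cases L <;> rfl
    rw [e1, e2]
    simp only [q2, xx, xc]
    generalize PP a1 b1 = P1 at *
    generalize PP a2 b2 = P2 at *
    generalize PP a3 b3 = P3 at *
    push_cast
    linarith [mul_nonneg p1 p1, mul_nonneg p1 p3, mul_nonneg p3 p3]
  · cases L
    · obtain ⟨B, hB1, hB2, hB3⟩ := run_t (tg := tg) d2 d3 S.p S.u0 S.um Z.e1 Z.e0 Z.em S.w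
      refine ⟨B, hB1, hB2, hB3.le.trans ?_⟩
      have e1 : cLL true false 52 22 = 22 := rfl
      have e2 : cLL true false 7 0 = 0 := rfl
      rw [e1, e2]
      simp only [q2, xx, xc]
      generalize PP a1 b1 = P1 at *
      generalize PP a2 b2 = P2 at *
      generalize PP a3 b3 = P3 at *
      push_cast
      linarith [mul_nonneg p1 p1, mul_nonneg p1 p3, mul_nonneg p3 p3]
    · have K1 := (Z.e1.mul d3.c2).sub S.u0
      have K0 := (Z.e0.mul d3.c2).sub S.um
      obtain ⟨B, hB1, hB2, hB3⟩ := run_L (tg := tg) d2 d3 S.p S.u0 S.um Z.e0 Z.em S.w K1 K0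
      refine ⟨B, hB1, hB2, hB3.le.trans ?_⟩
      have e1 : cLL true true 52 22 = 52 := rfl
      have e2 : cLL true true 7 0 = 7 := rfl
      rw [e1, e2]
      simp only [q2, xx, xc]
      generalize PP a1 b1 = P1 at *
      generalize PP a2 b2 = P2 at *
      generalize PP a3 b3 = P3 at *
      push_cast
      linarith [mul_nonneg p1 p1, mul_nonneg p1 p3, mul_nonneg p3 p3]

end

theorem fam_od (o L tg : Bool) :
    FamB (1 / 2) (TOr o L tg) (KT.FO o L tg) (cLL o L 52 22) 0 (cLL o L 7 0) := by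
  have h := famB_of (TW := TWo o L tg) (F := KT.FO o L tg)
    (cLL_le (o := o) (L := L) (x := 52) (y := 22) (n := 2 ^ 6) (by norm_num) (by norm_num))
    (c2 := 0) (by norm_num)
    (cLL_le (o := o) (L := L) (x := 7) (y := 0) (n := 2 ^ 6) (by norm_num) (by norm_num))
    (aff_o o L tg)
    (fun {c h g m q cN hN gN mN qN} a b c d e f g => ok_FO o L tg a b c d e f g) (int_od o L tg)
  have e : (fun k h g R => TWo o L tg (2 / k) h g R (R ^ 2)) = TOr o L tg := by
    funext k h g R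
    simp only [TWo, TOr]
  rw [e] at h
  exact h

theorem fam_ev (o L tg : Bool) :
    FamB (2 / 3) (TEr o L tg) (KT.FE o L tg) (cLL o L 52 22) 0 (cLL o L 7 0) := by
  have h := famB_of (TW := TWe o L tg) (F := KT.FE o L tg)
    (cLL_le (o := o) (L := L) (x := 52) (y := 22) (n := 2 ^ 6) (by norm_num) (by norm_num))
    (c2 := 0) (by norm_num)
    (cLL_le (o := o) (L := L) (x := 7) (y := 0) (n := 2 ^ 6) (by norm_num) (by norm_num))
    (aff_e o L tg)
    (fun {c h g m q cN hN gN mN qN} a b c d e f g => ok_FE o L tg a b c d e f g) (int_ev o L tg)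
  have e : (fun k h g R => TWe o L tg (2 / k) h g R (R ^ 2)) = TEr o L tg := by
    funext k h g R
    simp only [TWe, TEr]
  rw [e] at h
  exact h

end Pool.Agent.Helper60.CXT
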