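import Pool.Agent.Helper60.CXT.Ct6

/-!
Far cells of tail classes, row CONT: two runs of two, and the end of the row.
-/

set_option autoImplicit false
noncomputable section
namespace Pool.Agent.Helper60.CXT

open Pool.Agent.Helper94.CXF (M9)
open Pool.Agent.Helper94.CXF hiding cmb
open Pool.Agent.Helper94.CXF.SD
open Pool.Agent.Helper48.CXT

/-- a parameter of two runs of two -/
structure Du (t : ℝ) (a b : ℕ) (v X : ℝ) : Prop where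
  t01 : I01 t
  k : ∀ c, kp a b c ≤ X
  cl : Cl 4 X v (m1 t a b)

theorem kp0 (a b : ℕ) (c : Bool) : 0 ≤ kp a b c := by
  unfold kp
  positivity

theorem du_of {a b : ℕ} {v X : ℝ} (h0 : (a : ℝ) - 4 ≤ 2 ^ 48 * v) (h1 : 2 ^ 48 * v ≤ b)
    (hab : (a : ℝ) ≤ b) (hv : |v| ≤ X) (hb : (b : ℝ) ≤ X * 2 ^ 48) : ∃ t, Du t a b v X := by
  have k : ∀ c, kp a b c ≤ X := by
    intro c
    unfold kp
    rw [div_le_iff₀ (by positivity)]
    cases c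
    · change (a : ℝ) ≤ _
      linarith
    · exact hb
  obtain ⟨t, ht, e⟩ : ∃ t, I01 t ∧ |2 ^ 48 * v - ((1 - t) * a + t * b)| ≤ 4 := by
    rcases le_total (a : ℝ) (2 ^ 48 * v) with h | h
    · rcases hab.eq_or_lt with h' | h'
      · refine ⟨0, ⟨le_refl _, zero_le_one⟩, ?_⟩
        rw [← h'] at h1
        exact abs_le.2 ⟨by linarith, by linarith⟩
      · obtain ⟨t, ht, e⟩ := exists_t' h' h h1
        refine ⟨t, ht, ?_⟩
        rw [e]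
        simp
    · refine ⟨0, ⟨le_refl _, zero_le_one⟩, ?_⟩
      exact abs_le.2 ⟨by linarith, by linarith⟩
  refine ⟨t, ht, k, hv, ?_, ?_⟩
  · have : 0 ≤ m1 t a b := le_i1 ht (kp0 a b)
    rw [abs_of_nonneg this]
    exact i1_le ht k
  · have e' : 2 ^ 48 * |v - m1 t a b| = |2 ^ 48 * v - ((1 - t) * a + t * b)| := by
      unfold m1 i1
      rw [kp_f, kp_t, ← abs_of_pos (show (0 : ℝ) < 2 ^ 48 by positivity), ← abs_mul,
        abs_of_pos (show (0 : ℝ) < 2 ^ 48 by positivity)]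
      congr 1
      ring
    rw [e']
    exact e

/-- in the parameters `k²`, `g² - 1`, `1 / (k h g)` -/
def TV (a c q : ℝ) : P9 :=
  (⟨1, a - 1, 0, 0, 1, 0, 0, -(a - 1), 0⟩,
    ⟨a * c * q, 0, -(a * q), c * q, 0, -q, -(a * c * q), 0, a * q⟩)

theorem TUr_V {k h g : ℝ} (hk : k ≠ 0) (hh : h ≠ 0) (hg : g ≠ 0) :
    TUr k h g = TV (k * k) (g * g - 1) (1 / (k * h * g)) := by
  refine Prod.ext (m9_ext ?_ ?_ ?_ ?_ ?_ ?_ ?_ ?_ ?_) (m9_ext ?_ ?_ ?_ ?_ ?_ ?_ ?_ ?_ ?_) <;>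
    simp only [TUr, TV, cmb, cm1, TUm] <;> field_simp <;> ring

theorem int_um {t1 t2 t3 a c q : ℝ} {a1 b1 a2 b2 a3 b3 : ℕ} (d1 : Du t1 a1 b1 a 5)
    (d2 : Du t2 a2 b2 c 4) (d3 : Du t3 a3 b3 q 2) : ∃ B : P9,
      Eb (TV a c q).1 (it3 t1 t2 t3 fun c1 c2 c3 =>
        TV (kp a1 b1 c1) (kp a2 b2 c2) (kp a3 b3 c3)).1 B.1 ∧
      Eb (TV a c q).2 (it3 t1 t2 t3 fun c1 c2 c3 =>
        TV (kp a1 b1 c1) (kp a2 b2 c2) (kp a3 b3 c3)).2 B.2 ∧ gB B ≤ 1027 ^ 2 := by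
  have a1' := d1.cl
  have c1' := d2.cl
  have q1' := d3.cl
  have e : (it3 t1 t2 t3 fun c1 c2 c3 =>
        TV (kp a1 b1 c1) (kp a2 b2 c2) (kp a3 b3 c3)) =
      TV (m1 t1 a1 b1) (m1 t2 a2 b2) (m1 t3 a3 b3) := by
    refine Prod.ext (m9_ext ?_ ?_ ?_ ?_ ?_ ?_ ?_ ?_ ?_) (m9_ext ?_ ?_ ?_ ?_ ?_ ?_ ?_ ?_ ?_) <;>
      simp only [it3, it1, cmb, cm1, TV, m1, i1] <;> ring
  rw [e]
  have A := a1'.sub Cl.one
  have D := (a1'.mul c1').mul q1'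
  have E := a1'.mul q1'
  have F := c1'.mul q1'
  refine ⟨(⟨_, _, _, _, _, _, _, _, _⟩, ⟨_, _, _, _, _, _, _, _, _⟩),
    ⟨c_er _, A.er, z_er, z_er, c_er _, z_er, z_er, A.neg.er, z_er⟩,
    ⟨D.er, z_er, E.neg.er, F.er, z_er, q1'.neg.er, D.neg.er, z_er, E.er⟩, ?_⟩
  simp only [gB, sB]
  norm_num

theorem ap_kp' {a b : ℕ} {X : ℝ} {c : Bool} (h : kp a b c ≤ X) :
    Ap 0 X (kp a b c) (sl a b c) := by
  refine ⟨kp0 a b c, h, ?_⟩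
  unfold kp
  have e : (sl a b c : ℝ) - 2 ^ 48 * ((sl a b c : ℝ) / 2 ^ 48) = 0 := by ring
  rw [e]
  simp

theorem ok_FU {a c q : ℝ} {aN cN qN : ℕ} (ha : Ap 0 5 a aN) (ha' : 2 ^ 48 - 8 ≤ aN)
    (hc : Ap 0 4 c cN) (hq : Ap 0 2 q qN) :
    (∃ Z, OkT (TV a c q).1 (KT.FU aN cN qN).1 Z) ∧ (∃ Z, OkT (TV a c q).2 (KT.FU aN cN qN).2 Z) := by
  have hs : En (a - 1) (KT.su aN) := by
    have e : KT.su aN = aN - 2 ^ 48 := by
      have : KN.u1N = 2 ^ 48 := by decide +kernel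
      rw [← this]
      rfl
    have h5 := ha.er
    have h6 := ha.hi
    have h7 := abs_le.1 h5
    have h8 : (aN : ℝ) ≤ ((2 ^ 48 * 5 : ℕ) : ℝ) := by
      push_cast
      linarith
    have h9 : aN ≤ 2 ^ 48 * 5 := by exact_mod_cast h8
    refine ⟨((aN - 2 ^ 48 : ℕ) : ℤ), by rw [e]; exact rp_nat _, ?_, ?_⟩
    · have h11 : aN - 2 ^ 48 ≤ 2 ^ 54 := by omega
      generalize aN - 2 ^ 48 = n at h11
      rw [abs_of_nonneg (Int.natCast_nonneg n)]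
      exact_mod_cast h11
    · have h10 : (2 : ℝ) ^ 48 - 8 ≤ aN := by
        have : ((2 ^ 48 - 8 : ℕ) : ℝ) ≤ (aN : ℝ) := by exact_mod_cast ha'
        norm_num at this ⊢
        linarith
      rcases le_total (2 ^ 48) aN with h | h
      · have e2 : (((aN - 2 ^ 48 : ℕ) : ℤ) : ℝ) = (aN : ℝ) - 2 ^ 48 := by
          rw [Int.cast_natCast, Nat.cast_sub h]
          norm_num
        rw [e2]
        exact abs_le.2 ⟨by linarith, by linarith⟩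
      · rw [Nat.sub_eq_zero_of_le h]
        have h11 : (aN : ℝ) ≤ 2 ^ 48 := by
          have : (aN : ℝ) ≤ ((2 ^ 48 : ℕ) : ℝ) := by exact_mod_cast h
          norm_num at this ⊢
          linarith
        push_cast
        exact abs_le.2 ⟨by linarith, by linarith⟩
  have hac := ha.mul hc (by norm_num)
  have hacq := hac.mul hq (by norm_num)
  have haq := ha.mul hq (by norm_num)
  have hcq := hc.mul hq (by norm_num)
  have D := hacq.en (by norm_num) (by norm_num)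
  have E := haq.en (by norm_num) (by norm_num)
  have F := hcq.en (by norm_num) (by norm_num)
  have Q := hq.en (by norm_num) (by norm_num)
  have e1 : KT.FU aN cN qN = (⟨KN.u1N, KT.su aN, nat_lit 0, nat_lit 0, KN.u1N, nat_lit 0, nat_lit 0,
      KN.nm (KT.su aN), nat_lit 0⟩, ⟨KN.mu (KN.mu aN cN) qN, nat_lit 0, KN.nm (KN.mu aN qN),
      KN.mu cN qN, nat_lit 0, KN.nm qN, KN.nm (KN.mu (KN.mu aN cN) qN), nat_lit 0,
      KN.mu aN qN⟩) := rfl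
  rw [e1]
  generalize KT.su aN = sN at *
  exact ⟨ok_of en_one hs en_zero en_zero en_one en_zero en_zero hs.neg en_zero,
    ok_of D en_zero E.neg F en_zero Q.neg D.neg en_zero E⟩

theorem mu_rl (a b : ℕ) : ((KN.mu a b : ℕ) : ℝ) * 2 ^ 48 ≤ (a : ℝ) * b ∧
    (a : ℝ) * b ≤ ((KN.mu a b : ℕ) : ℝ) * 2 ^ 48 + 2 ^ 48 := by
  have e : KN.mu a b = a * b / 2 ^ 48 := by
    change (a * b) >>> 48 = _
    rw [Nat.shiftRight_eq_div_pow]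
  have h1 : ((a * b / 2 ^ 48 : ℕ) : ℝ) * 2 ^ 48 ≤ (a : ℝ) * b := by
    have : a * b / 2 ^ 48 * 2 ^ 48 ≤ a * b := Nat.div_mul_le_self _ _
    exact_mod_cast this
  have h2 : (a : ℝ) * b ≤ ((a * b / 2 ^ 48 : ℕ) : ℝ) * 2 ^ 48 + 2 ^ 48 := by
    have : a * b < (a * b / 2 ^ 48 + 1) * 2 ^ 48 := by
      have := Nat.lt_div_mul_add (a := a * b) (b := 2 ^ 48) (by positivity)
      linarith
    have h3 : ((a * b : ℕ) : ℝ) < (((a * b / 2 ^ 48 + 1) * 2 ^ 48 : ℕ) : ℝ) := by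
      exact_mod_cast this
    push_cast at h3 ⊢
    linarith
  rw [e]
  exact ⟨h1, h2⟩

theorem inV_rg {a b : ℕ} {v : ℝ} (h : InV a b v) (hab : a ≤ b) :
    (a : ℝ) - 1 ≤ 2 ^ 48 * v ∧ 2 ^ 48 * v ≤ (b : ℝ) + 1 := by
  rcases h with ⟨rfl, h⟩ | ⟨h0, h1⟩
  · have := abs_le.1 h
    exact ⟨by linarith, by linarith⟩
  · exact ⟨by linarith, by linarith⟩

/-- the square of a parameter -/
theorem sq_rg {a b : ℕ} {v : ℝ} (h : InV a b v) (h0 : 2 ^ 48 ≤ a) (h1 : a ≤ b)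
    (h2 : b ≤ 2 ^ 49) : ((KN.mu a a : ℕ) : ℝ) - 4 ≤ 2 ^ 48 * (v * v) ∧
      2 ^ 48 * (v * v) ≤ ((KN.mu b b : ℕ) : ℝ) + 8 ∧ 2 ^ 48 ≤ KN.mu a a ∧
      KN.mu a a ≤ KN.mu b b ∧ KN.mu b b ≤ 2 ^ 50 := by
  have h0' : (2 : ℝ) ^ 48 ≤ a := by exact_mod_cast h0
  have h1' : (a : ℝ) ≤ b := by exact_mod_cast h1
  have h2' : (b : ℝ) ≤ 2 ^ 49 := by exact_mod_cast h2
  obtain ⟨e1, e2⟩ := inV_rg h h1
  have f1 := (mu_rl a a).1
  have f2 := (mu_rl b b).2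
  have ea : KN.mu a a = a * a / 2 ^ 48 := by
    change (a * a) >>> 48 = _
    rw [Nat.shiftRight_eq_div_pow]
  have eb : KN.mu b b = b * b / 2 ^ 48 := by
    change (b * b) >>> 48 = _
    rw [Nat.shiftRight_eq_div_pow]
  generalize hw : 2 ^ 48 * v = w at *
  have ew : (2 : ℝ) ^ 48 * (v * v) * 2 ^ 48 = w * w := by
    rw [← hw]
    ring
  refine ⟨?_, ?_, ?_, ?_, ?_⟩
  · refine le_of_mul_le_mul_right ?_ (show (0 : ℝ) < 2 ^ 48 by positivity)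
    rw [ew]
    have : ((a : ℝ) - 1) * ((a : ℝ) - 1) ≤ w * w :=
      mul_self_le_mul_self (by linarith) e1
    linarith
  · refine le_of_mul_le_mul_right ?_ (show (0 : ℝ) < 2 ^ 48 by positivity)
    rw [ew]
    have : w * w ≤ ((b : ℝ) + 1) * ((b : ℝ) + 1) :=
      mul_self_le_mul_self (by linarith) e2
    linarith
  · rw [ea, Nat.le_div_iff_mul_le (by positivity)]
    exact Nat.mul_le_mul h0 h0
  · rw [ea, eb]
    exact Nat.div_le_div_right (Nat.mul_le_mul h1 h1)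
  · rw [eb]
    refine Nat.div_le_of_le_mul ?_
    refine (Nat.mul_le_mul h2 h2).trans ?_
    norm_num

theorem p192_eq : KT.p192 = 2 ^ 192 := by decide +kernel

theorem fam_um : FamP KT.dvU (fun k h g => TUr k h g) KT.FU 0 0 0 := by
  intro b hb v1 v2 v3 R hv
  have eT : KT.dT 0 0 0 (KT.dvU b) = 1027 := by
    have e : ∀ x y, KT.dN 0 x y = 1 := by
      intro x y
      change ((0 * ((y - x) * (y - x))) >>> 53) + 1 = 1
      rw [Nat.zero_mul, Nat.zero_shiftRight]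
    change (1024 + KT.dN 0 _ _) + (KT.dN 0 _ _ + KT.dN 0 _ _) = 1027
    rw [e, e, e]
  rw [eT]
  refine ⟨by norm_num, ?_⟩
  obtain ⟨s1, s2, s3, s4, s5⟩ := sq_rg hv.v1 hb.a1 hb.c1 hb.b1
  obtain ⟨u1, u2, u3, u4, u5⟩ := sq_rg hv.v3 hb.a3 hb.c3 hb.b3
  have a1' : (2 : ℝ) ^ 48 ≤ b.a1 := by exact_mod_cast hb.a1
  have a2' : (2 : ℝ) ^ 48 ≤ b.a2 := by exact_mod_cast hb.a2
  have a3' : (2 : ℝ) ^ 48 ≤ b.a3 := by exact_mod_cast hb.a3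
  have b1' : (b.b1 : ℝ) ≤ 2 ^ 49 := by exact_mod_cast hb.b1
  have b2' : (b.b2 : ℝ) ≤ 2 ^ 49 := by exact_mod_cast hb.b2
  have b3' : (b.b3 : ℝ) ≤ 2 ^ 49 := by exact_mod_cast hb.b3
  obtain ⟨x1, y1⟩ := inV_rg hv.v1 hb.c1
  obtain ⟨x2, y2⟩ := inV_rg hv.v2 hb.c2
  obtain ⟨x3, y3⟩ := inV_rg hv.v3 hb.c3
  have k1 : 1 - 1 / 10 ^ 6 ≤ v1 := by linarith
  have h1 : 1 - 1 / 10 ^ 6 ≤ v2 := by linarith
  have g1 : 1 - 1 / 10 ^ 6 ≤ v3 := by linarith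
  have k2 : v1 ≤ 2 + 1 / 10 ^ 6 := by linarith
  have g2 : v3 ≤ 2 + 1 / 10 ^ 6 := by linarith
  have hV := TUr_V (show v1 ≠ 0 by linarith) (show v2 ≠ 0 by linarith) (show v3 ≠ 0 by linarith)
  have U1 : KN.u1N = 2 ^ 48 := by decide +kernel
  -- `k²`
  have s3' : (2 : ℝ) ^ 48 ≤ (KN.mu b.a1 b.a1 : ℝ) := by exact_mod_cast s3
  have s4' : (KN.mu b.a1 b.a1 : ℝ) ≤ (KN.mu b.b1 b.b1 : ℝ) := by exact_mod_cast s4
  have s5' : (KN.mu b.b1 b.b1 : ℝ) ≤ 2 ^ 50 := by exact_mod_cast s5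
  have u3' : (2 : ℝ) ^ 48 ≤ (KN.mu b.a3 b.a3 : ℝ) := by exact_mod_cast u3
  have u4' : (KN.mu b.a3 b.a3 : ℝ) ≤ (KN.mu b.b3 b.b3 : ℝ) := by exact_mod_cast u4
  have u5' : (KN.mu b.b3 b.b3 : ℝ) ≤ 2 ^ 50 := by exact_mod_cast u5
  have eA0 : ((Nat.sub (KN.mu b.a1 b.a1) 8 : ℕ) : ℝ) = (KN.mu b.a1 b.a1 : ℝ) - 8 := by
    change ((KN.mu b.a1 b.a1 - 8 : ℕ) : ℝ) = _
    rw [Nat.cast_sub (by omega)]
    norm_num
  have eA1 : ((Nat.add (KN.mu b.b1 b.b1) 8 : ℕ) : ℝ) = (KN.mu b.b1 b.b1 : ℝ) + 8 := by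
    change ((KN.mu b.b1 b.b1 + 8 : ℕ) : ℝ) = _
    push_cast
    rfl
  obtain ⟨t1, d1⟩ : ∃ t, Du t (Nat.sub (KN.mu b.a1 b.a1) 8) (Nat.add (KN.mu b.b1 b.b1) 8)
      (v1 * v1) 5 := by
    refine du_of ?_ ?_ ?_ (abs_le.2 ⟨by nlinarith, by nlinarith⟩) ?_
    · rw [eA0]
      linarith
    · rw [eA1]
      exact s2
    · rw [eA0, eA1]
      linarith
    · rw [eA1]
      linarith
  -- `g² - 1`
  have eC0 : ((Nat.sub (KT.su (KN.mu b.a3 b.a3)) 8 : ℕ) : ℝ) ≤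
      max ((KN.mu b.a3 b.a3 : ℝ) - 2 ^ 48 - 8) 0 := by
    change ((KN.mu b.a3 b.a3 - KN.u1N - 8 : ℕ) : ℝ) ≤ _
    rw [U1]
    rcases le_total (2 ^ 48 + 8) (KN.mu b.a3 b.a3) with h | h
    · refine le_trans (le_of_eq ?_) (le_max_left _ _)
      rw [Nat.sub_sub, Nat.cast_sub h]
      push_cast
      ring
    · refine le_trans (le_of_eq ?_) (le_max_right _ _)
      rw [Nat.sub_sub, Nat.sub_eq_zero_of_le h]
      push_cast
      rfl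
  have eC1 : ((Nat.add (KT.su (KN.mu b.b3 b.b3)) 8 : ℕ) : ℝ) =
      (KN.mu b.b3 b.b3 : ℝ) - 2 ^ 48 + 8 := by
    change ((KN.mu b.b3 b.b3 - KN.u1N + 8 : ℕ) : ℝ) = _
    rw [U1, Nat.cast_add, Nat.cast_sub (u3.trans u4)]
    push_cast
    ring
  obtain ⟨t2, d2⟩ : ∃ t, Du t (Nat.sub (KT.su (KN.mu b.a3 b.a3)) 8)
      (Nat.add (KT.su (KN.mu b.b3 b.b3)) 8) (v3 * v3 - 1) 4 := by
    refine du_of ?_ ?_ ?_ (abs_le.2 ⟨by nlinarith, by nlinarith⟩) ?_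
    · rcases max_cases ((KN.mu b.a3 b.a3 : ℝ) - 2 ^ 48 - 8) 0 with ⟨h, -⟩ | ⟨h, -⟩
      · linarith
      · linarith
    · rw [eC1]
      linarith
    · rw [eC1]
      rcases max_cases ((KN.mu b.a3 b.a3 : ℝ) - 2 ^ 48 - 8) 0 with ⟨h, -⟩ | ⟨h, -⟩
      · linarith
      · linarith
    · rw [eC1]
      linarith
  -- `1 / (k h g)`
  have w1 : 0 < v1 := by linarith
  have w2 : 0 < v2 := by linarith
  have w3 : 0 < v3 := by linarith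
  obtain ⟨P, hP⟩ : ∃ P, P = (2 ^ 48 * v1) * ((2 ^ 48 * v2) * (2 ^ 48 * v3)) := ⟨_, rfl⟩
  have P0 : 0 < P := by
    rw [hP]
    positivity
  have eq : 2 ^ 48 * (1 / (v1 * v2 * v3)) = 2 ^ 192 / P := by
    rw [hP]
    field_simp
  obtain ⟨lo, hlo⟩ : ∃ n, n = (b.b1 + 1) * ((b.b2 + 1) * (b.b3 + 1)) := ⟨_, rfl⟩
  obtain ⟨hi, hhi⟩ : ∃ n, n = (b.a1 - 1) * ((b.a2 - 1) * (b.a3 - 1)) := ⟨_, rfl⟩
  have hlo' : P ≤ lo := by
    rw [hP, hlo]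
    push_cast
    exact mul_le_mul y1 (mul_le_mul y2 y3 (by positivity) (by positivity)) (by positivity)
      (by positivity)
  have c1 : ((b.a1 - 1 : ℕ) : ℝ) = (b.a1 : ℝ) - 1 := by
    rw [Nat.cast_sub (by have := hb.a1; omega)]
    norm_num
  have c2 : ((b.a2 - 1 : ℕ) : ℝ) = (b.a2 : ℝ) - 1 := by
    rw [Nat.cast_sub (by have := hb.a2; omega)]
    norm_num
  have c3 : ((b.a3 - 1 : ℕ) : ℝ) = (b.a3 : ℝ) - 1 := by
    rw [Nat.cast_sub (by have := hb.a3; omega)]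
    norm_num
  have hhi' : (hi : ℝ) ≤ P := by
    rw [hP, hhi]
    push_cast
    rw [c1, c2, c3]
    exact mul_le_mul x1 (mul_le_mul x2 x3 (by linarith) (by positivity))
      (mul_nonneg (by linarith) (by linarith)) (by positivity)
  have hi0 : ((2 : ℝ) ^ 48 - 1) * ((2 ^ 48 - 1) * (2 ^ 48 - 1)) ≤ hi := by
    rw [hhi]
    push_cast
    rw [c1, c2, c3]
    have z : (0 : ℝ) ≤ 2 ^ 48 - 1 := by norm_num
    exact mul_le_mul (by linarith) (mul_le_mul (by linarith) (by linarith) z (by linarith))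
      (mul_nonneg z z) (by linarith)
  have hiP : (0 : ℝ) < hi := lt_of_lt_of_le (by norm_num) hi0
  have hiN : 0 < hi := by exact_mod_cast hiP
  have loN : 0 < lo := by
    have : (0 : ℝ) < lo := lt_of_lt_of_le P0 hlo'
    exact_mod_cast this
  have f1 : ((2 ^ 192 / lo : ℕ) : ℝ) * lo ≤ 2 ^ 192 := by
    have : 2 ^ 192 / lo * lo ≤ 2 ^ 192 := Nat.div_mul_le_self _ _
    exact_mod_cast this
  have f2 : (2 : ℝ) ^ 192 ≤ ((Nat.succ (2 ^ 192 / hi) : ℕ) : ℝ) * hi := by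
    have : 2 ^ 192 ≤ Nat.succ (2 ^ 192 / hi) * hi := by
      have := Nat.lt_div_mul_add (a := 2 ^ 192) (b := hi) hiN
      rw [Nat.succ_mul]
      exact this.le
    exact_mod_cast this
  have f3 : ((2 ^ 192 / hi : ℕ) : ℝ) * hi ≤ 2 ^ 192 := by
    have : 2 ^ 192 / hi * hi ≤ 2 ^ 192 := Nat.div_mul_le_self _ _
    exact_mod_cast this
  have q0 : ((2 ^ 192 / lo : ℕ) : ℝ) ≤ 2 ^ 48 * (1 / (v1 * v2 * v3)) := by
    rw [eq, le_div_iff₀ P0]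
    exact (mul_le_mul_of_nonneg_left hlo' (Nat.cast_nonneg _)).trans f1
  have q1 : 2 ^ 48 * (1 / (v1 * v2 * v3)) ≤ ((Nat.succ (2 ^ 192 / hi) : ℕ) : ℝ) := by
    rw [eq, div_le_iff₀ P0]
    exact f2.trans (mul_le_mul_of_nonneg_left hhi' (Nat.cast_nonneg _))
  have q2 : ((Nat.succ (2 ^ 192 / hi) : ℕ) : ℝ) ≤ 2 * 2 ^ 48 := by
    rw [Nat.cast_succ]
    by_contra hcon
    have hcon : 2 * 2 ^ 48 - 1 < ((2 ^ 192 / hi : ℕ) : ℝ) := by linarith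
    have := mul_le_mul hcon.le hi0 (by norm_num) (Nat.cast_nonneg _)
    have := this.trans f3
    norm_num at this
  obtain ⟨t3, d3⟩ : ∃ t, Du t (2 ^ 192 / lo) (Nat.succ (2 ^ 192 / hi)) (1 / (v1 * v2 * v3)) 2 := by
    refine du_of (by linarith) q1 (q0.trans q1) ?_ q2
    have : 0 ≤ 1 / (v1 * v2 * v3) := by positivity
    rw [abs_of_nonneg this]
    linarith
  -- corners
  have hbox : KT.dvU b = ⟨Nat.sub (KN.mu b.a1 b.a1) 8, Nat.add (KN.mu b.b1 b.b1) 8,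
      Nat.sub (KT.su (KN.mu b.a3 b.a3)) 8, Nat.add (KT.su (KN.mu b.b3 b.b3)) 8,
      2 ^ 192 / lo, Nat.succ (2 ^ 192 / hi), b.r0, b.r1⟩ := by
    rw [← p192_eq, hlo, hhi]
    rfl
  rw [hbox]
  have hA : ∀ e, 2 ^ 48 - 8 ≤ sl (Nat.sub (KN.mu b.a1 b.a1) 8) (Nat.add (KN.mu b.b1 b.b1) 8) e := by
    intro e
    cases e
    · change 2 ^ 48 - 8 ≤ KN.mu b.a1 b.a1 - 8
      omega
    · change 2 ^ 48 - 8 ≤ KN.mu b.b1 b.b1 + 8
      omega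
  clear hbox
  generalize Nat.sub (KN.mu b.a1 b.a1) 8 = A0 at *
  generalize Nat.add (KN.mu b.b1 b.b1) 8 = A1 at *
  generalize Nat.sub (KT.su (KN.mu b.a3 b.a3)) 8 = C0 at *
  generalize Nat.add (KT.su (KN.mu b.b3 b.b3)) 8 = C1 at *
  generalize 2 ^ 192 / lo = Q0 at *
  generalize Nat.succ (2 ^ 192 / hi) = Q1 at *
  have hc := fun e1 e2 e3 => ok_FU (ap_kp' (d1.k e1)) (hA e1) (ap_kp' (d2.k e2))
    (ap_kp' (d3.k e3))
  have hz1 := fun e1 e2 e3 => (hc e1 e2 e3).1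
  have hz2 := fun e1 e2 e3 => (hc e1 e2 e3).2
  choose Z1 hZ1 using hz1
  choose Z2 hZ2 using hz2
  obtain ⟨B, hB1, hB2, hB3⟩ := int_um d1 d2 d3
  refine ⟨fun e1 e2 e3 => (Z1 e1 e2 e3, Z2 e1 e2 e3), fun e1 e2 e3 =>
    ⟨(hZ1 e1 e2 e3).rep, (hZ2 e1 e2 e3).rep, (hZ1 e1 e2 e3).bd, (hZ2 e1 e2 e3).bd⟩,
    t1, t2, t3, d1.t01, d2.t01, d3.t01, ?_⟩
  change g9 (cmb (2 ^ 48) (TUr v1 v2 v3) _ _) ≤ _
  rw [hV]
  refine (nearR d1.t01 d2.t01 d3.t01 (W := fun e1 e2 e3 => rP (Z1 e1 e2 e3, Z2 e1 e2 e3))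
    (fun e1 e2 e3 => (hZ1 e1 e2 e3).near) (fun e1 e2 e3 => (hZ2 e1 e2 e3).near) hB1 hB2).trans
    (hB3.trans ?_)
  norm_num

/-- ROW CONT -/
theorem contAll : ContAll where
  ex o L tg _ _ _ _ _ _ _ _ _ _ _ _ h1 h2 h3 h4 h5 h6 := fam_ex o L tg h1 h2 h3 h4 h5 h6
  t3 := fam_t3
  od := fam_od
  ev := fam_ev
  np := fam_np
  nm := fam_nm
  pp := fam_pp
  um := fam_um
  ty := fam_ty
  tl := fam_tl
  tly := fam_tly

end Pool.Agent.Helper60.CXT
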