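import Pool.Agent.Helper48.CXT.KS
import Pool.Agent.Helper12.CX.RJT

/-!
Far cells of tail classes, row RW: the run matrices of a tail star in the run parameter.
-/

set_option autoImplicit false
noncomputable section
namespace Pool.Agent.Helper60.CXT

open Pool.Agent.Helper6.MONO hiding fP
open Pool.Agent.Helper21.SUP (GS DG DG_nx)
open Pool.Agent.Helper21.SUP renaming nx → nxs
open Pool.Agent.Helper86.CX renaming Hm → Hm, ev → hev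
open Pool.Agent.Helper94.CXF (M9)
open Pool.Agent.Helper94.CXF hiding cmb
open Pool.Agent.Helper94.CXF.SD
open Pool.Agent.Helper48.CXT

/-- the Chebyshev numbers times `W`, in `c = 2 / k` and the run parameter -/
structure RwS (k R W : ℝ) (i : ℕ) : Prop where
  p : 2 * R + R ^ 2 - ((2 / k) ^ 2 - 1) = W * uC k (i + 3)
  u0 : 2 * (2 / k) * R = W * uC k (i + 2)
  um : 2 * R - R ^ 2 + ((2 / k) ^ 2 - 1) = W * uC k (i + 1)
  w : W = R ^ 2 + ((2 / k) ^ 2 - 1)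
  od : i % 2 = 0 → 2 / k * (1 + R) = W * eC k (i + 2) ∧ (2 / k) ^ 2 = W * eC k (i + 1) ∧
    2 / k * (1 - R) = W * eC k i
  ev : i % 2 ≠ 0 →
    2 / k * (1 + R) + 2 / k * ((R ^ 2 + ((2 / k) ^ 2 - 1)) / (2 * (2 / k + 1))) =
        W * eC k (i + 2) ∧
      (2 / k) ^ 2 - 2 / k * ((R ^ 2 + ((2 / k) ^ 2 - 1)) / (2 * (2 / k + 1))) =
        W * eC k (i + 1) ∧
      2 / k * (1 - R) + 2 / k * ((R ^ 2 + ((2 / k) ^ 2 - 1)) / (2 * (2 / k + 1))) =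
        W * eC k i

theorem rwS (M : ℕ) (hM : 3 ≤ M) (i : ℕ) (h : i + 3 ≤ M) :
    ∃ W : ℝ, 0 < W ∧ RwS (Kp M) (Rb M (i + 2)) W i := by
  obtain ⟨hk, -⟩ := LNI_Kp hM
  obtain ⟨W, hW, h1, h2, h3, h4, h5, h6, h7, h8⟩ := cheb2 M hM i h
  generalize Rb M (i + 2) = R at *
  generalize Kp M = k at *
  have k0 : k ≠ 0 := hk.ne'
  have e1 : W = R ^ 2 + (4 / k ^ 2 - 1) := by
    have h1' : (W : ℂ) = (R : ℂ) ^ 2 + (4 / (k : ℂ) ^ 2 - 1) := h1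
    exact_mod_cast h1'
  have e2 : R ^ 2 + 2 * R - (4 / k ^ 2 - 1) = W * uC k (i + 3) := by
    have h2' : (R : ℂ) ^ 2 + 2 * R - (4 / (k : ℂ) ^ 2 - 1) = W * (uC k (i + 3) : ℂ) := h2
    exact_mod_cast h2'
  have e3 : 4 * R / k = W * uC k (i + 2) := by
    have h3' : 4 * (R : ℂ) / k = W * (uC k (i + 2) : ℂ) := h3
    exact_mod_cast h3'
  have e4 : 2 * R - R ^ 2 + (4 / k ^ 2 - 1) = W * uC k (i + 1) := by
    have h4' : 2 * (R : ℂ) - (R : ℂ) ^ 2 + (4 / (k : ℂ) ^ 2 - 1) = W * (uC k (i + 1) : ℂ) := h4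
    exact_mod_cast h4'
  have ec : (2 / k) ^ 2 = 4 / k ^ 2 := by
    field_simp
    norm_num
  refine ⟨W, hW, ?_, ?_, ?_, ?_, ?_, ?_⟩
  · rw [ec]
    linarith
  · rw [← e3]
    ring
  · rw [ec]
    linarith
  · rw [ec]
    exact e1
  · intro hi
    simp only [nu1, nu2, mu1, mu2, hi, decide_true, if_true] at h5 h6 h7 h8
    refine ⟨?_, ?_, ?_⟩
    · exact_mod_cast h5
    · rw [ec]
      exact_mod_cast h6
    · exact_mod_cast h8
  · intro hi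
    have k2 : 2 + k ≠ 0 := by positivity
    have eY : fY (k : ℂ) (R : ℂ) = (k : ℂ) ^ 2 * W / (2 * (2 + k)) := by
      rw [fY, ← h1]
    have f5 : 2 / k * (1 + R + (k ^ 2 * W / (2 * (2 + k))) / k) = W * eC k (i + 2) := by
      simp only [nu1, hi, decide_false, if_false, Bool.false_eq_true, eY] at h5
      exact_mod_cast h5
    have f6 : 4 / k ^ 2 * (1 - (k ^ 2 * W / (2 * (2 + k))) / 2) = W * eC k (i + 1) := by
      simp only [nu2, hi, decide_false, if_false, Bool.false_eq_true, eY] at h6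
      exact_mod_cast h6
    have f8 : 2 / k * (1 - R + (k ^ 2 * W / (2 * (2 + k))) / k) = W * eC k i := by
      simp only [mu2, hi, decide_false, if_false, Bool.false_eq_true, eY] at h8
      exact_mod_cast h8
    have g : 2 / k * (W / (2 * (2 / k + 1))) = W / (2 + k) := by
      field_simp
    rw [ec, ← e1, g, ← f5, ← f6, ← f8]
    refine ⟨?_, ?_, ?_⟩
    · field_simp
    · field_simp
      ring
    · field_simp

theorem m9_ext' {A B : M9 ℝ} (a : A.a = B.a) (b : A.b = B.b) (c : A.c = B.c) (d : A.d = B.d)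
    (e : A.e = B.e) (f : A.f = B.f) (g : A.g = B.g) (h : A.h = B.h) (i : A.i = B.i) : A = B := by
  cases A
  cases B
  simp_all

theorem TRr_sc {W : ℝ} (hW : W ≠ 0) (o L tg : Bool) (h g u1 u0 um e1 e0 em : ℝ) :
    TRr o L tg h g u1 u0 um e1 e0 em =
      cmb (1 / W) (TRWr o L tg h g (W * u1) (W * u0) (W * um) (W * e1) (W * e0) (W * em) W) 0
        (TRWr o L tg h g (W * u1) (W * u0) (W * um) (W * e1) (W * e0) (W * em) W) := by
  cases o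
  · cases tg <;>
      (refine Prod.ext (m9_ext' ?_ ?_ ?_ ?_ ?_ ?_ ?_ ?_ ?_) (m9_ext' ?_ ?_ ?_ ?_ ?_ ?_ ?_ ?_ ?_) <;>
        simp only [TRr, cmb, cm1, TRWr, mkM, Bool.false_eq_true, if_false, if_true] <;>
        field_simp <;> ring)
  · cases L <;> cases tg <;>
      (refine Prod.ext (m9_ext' ?_ ?_ ?_ ?_ ?_ ?_ ?_ ?_ ?_) (m9_ext' ?_ ?_ ?_ ?_ ?_ ?_ ?_ ?_ ?_) <;>
        simp only [TRr, cmb, cm1, TRWr, mkM, Bool.false_eq_true, if_false, if_true] <;>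
        field_simp <;> ring)

variable {p q r : ℕ}

/-- ROW RW, three letters -/
theorem TRs_three (p q r : ℕ) (L : Bool) (s : GS) :
    TRs p q r L s 0 = TRr (oriZ s) L (oriZ (nxs s 3)) (kk p q r s.2.1 s.2.2)
      (kk p q r s.1 s.2.2) (kk p q r s.1 s.2.1 * kk p q r s.1 s.2.1 - 1) (kk p q r s.1 s.2.1) 1
      (kk p q r s.1 s.2.1) 1 0 := by
  have e3 : ∀ k : ℝ, uC k (0 + 3) = k * k - 1 := fun k => by simp [uC]
  have e2 : ∀ k : ℝ, uC k (0 + 2) = k := fun k => by simp [uC]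
  have e1 : ∀ k : ℝ, uC k (0 + 1) = 1 := fun k => by simp [uC]
  have f2 : ∀ k : ℝ, eC k (0 + 2) = k := fun k => by simp [uC, eC]
  have f1 : ∀ k : ℝ, eC k (0 + 1) = 1 := fun k => by simp [eC]
  have f0 : ∀ k : ℝ, eC k 0 = 0 := fun k => by simp [eC]
  rw [TRs, e3, e2, e1, f2, f1, f0]

/-- ROW RW, odd number `≥ 5` of letters -/
theorem TRs_odd {L : Bool} {s : GS} {i : ℕ} (hM : 5 ≤ mm p q r s.1 s.2.1) (hi : i % 2 = 0)
    (h1 : 1 ≤ i) (h : i + 3 ≤ mm p q r s.1 s.2.1) :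
    0 < Rb (mm p q r s.1 s.2.1) (i + 2) ∧ Rb (mm p q r s.1 s.2.1) (i + 2) ≤ 1 / 2 ∧
    ∃ w : ℝ, 0 < w ∧ TRs p q r L s i =
      cmb w (TOr (oriZ s) L (oriZ (nxs s (i + 3))) (kk p q r s.1 s.2.1) (kk p q r s.2.1 s.2.2)
        (kk p q r s.1 s.2.2) (Rb (mm p q r s.1 s.2.1) (i + 2))) 0
        (TOr (oriZ s) L (oriZ (nxs s (i + 3))) (kk p q r s.1 s.2.1) (kk p q r s.2.1 s.2.2)
        (kk p q r s.1 s.2.2) (Rb (mm p q r s.1 s.2.1) (i + 2))) := by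
  obtain ⟨r0, r1⟩ := RJ_tail4 (mm p q r s.1 s.2.1) (i + 2) hM (by omega) (by omega)
  refine ⟨r0, r1, ?_⟩
  obtain ⟨W, hW, S⟩ := rwS (mm p q r s.1 s.2.1) (by omega) i h
  obtain ⟨S1, S2, S3⟩ := S.od hi
  refine ⟨1 / W, by positivity, ?_⟩
  have e : kk p q r s.1 s.2.1 = Kp (mm p q r s.1 s.2.1) := rfl
  rw [TRs, TRr_sc hW.ne', e]
  have eT : ∀ o L' tg h' g', TRWr o L' tg h' g' (W * uC (Kp (mm p q r s.1 s.2.1)) (i + 3))
      (W * uC (Kp (mm p q r s.1 s.2.1)) (i + 2)) (W * uC (Kp (mm p q r s.1 s.2.1)) (i + 1))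
      (W * eC (Kp (mm p q r s.1 s.2.1)) (i + 2)) (W * eC (Kp (mm p q r s.1 s.2.1)) (i + 1))
      (W * eC (Kp (mm p q r s.1 s.2.1)) i) W =
      TOr o L' tg (Kp (mm p q r s.1 s.2.1)) h' g' (Rb (mm p q r s.1 s.2.1) (i + 2)) := by
    intro o L' tg h' g'
    rw [← S.p, ← S.u0, ← S.um, ← S1, ← S2, ← S3]
    simp only [TOr]
    rw [← S.w]
  rw [eT]

/-- ROW RW, even number `≥ 4` of letters -/
theorem TRs_even {L : Bool} {s : GS} {i : ℕ} (hM : 4 ≤ mm p q r s.1 s.2.1) (hi : i % 2 ≠ 0)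
    (h : i + 3 ≤ mm p q r s.1 s.2.1) :
    0 < Rb (mm p q r s.1 s.2.1) (i + 2) ∧ Rb (mm p q r s.1 s.2.1) (i + 2) ≤ 2 / 3 ∧
    ∃ w : ℝ, 0 < w ∧ TRs p q r L s i =
      cmb w (TEr (oriZ s) L (oriZ (nxs s (i + 3))) (kk p q r s.1 s.2.1) (kk p q r s.2.1 s.2.2)
        (kk p q r s.1 s.2.2) (Rb (mm p q r s.1 s.2.1) (i + 2))) 0
        (TEr (oriZ s) L (oriZ (nxs s (i + 3))) (kk p q r s.1 s.2.1) (kk p q r s.2.1 s.2.2)
        (kk p q r s.1 s.2.2) (Rb (mm p q r s.1 s.2.1) (i + 2))) := by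
  obtain ⟨r0, r1⟩ := RJ_tail3 (mm p q r s.1 s.2.1) (i + 2) hM (by omega) (by omega)
  refine ⟨r0, r1, ?_⟩
  obtain ⟨W, hW, S⟩ := rwS (mm p q r s.1 s.2.1) (by omega) i h
  obtain ⟨S1, S2, S3⟩ := S.ev hi
  refine ⟨1 / W, by positivity, ?_⟩
  have e : kk p q r s.1 s.2.1 = Kp (mm p q r s.1 s.2.1) := rfl
  rw [TRs, TRr_sc hW.ne', e]
  have eT : ∀ o L' tg h' g', TRWr o L' tg h' g' (W * uC (Kp (mm p q r s.1 s.2.1)) (i + 3))
      (W * uC (Kp (mm p q r s.1 s.2.1)) (i + 2)) (W * uC (Kp (mm p q r s.1 s.2.1)) (i + 1))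
      (W * eC (Kp (mm p q r s.1 s.2.1)) (i + 2)) (W * eC (Kp (mm p q r s.1 s.2.1)) (i + 1))
      (W * eC (Kp (mm p q r s.1 s.2.1)) i) W =
      TEr o L' tg (Kp (mm p q r s.1 s.2.1)) h' g' (Rb (mm p q r s.1 s.2.1) (i + 2)) := by
    intro o L' tg h' g'
    rw [← S.p, ← S.u0, ← S.um, ← S1, ← S2, ← S3]
    simp only [TEr]
    rw [← S.w]
  rw [eT]

/-! ### scaling -/

theorem ap_cmb (w : ℝ) (S : P9) (e : ℂ) (x : Fin 3 → ℂ) :
    ap (cmb w S 0 S) e x = (w : ℂ) • ap S e x := by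
  rw [ap_eq, ap_eq]
  have e1 : (cmb w S 0 S).1 = smM w S.1 := by
    refine m9_ext' ?_ ?_ ?_ ?_ ?_ ?_ ?_ ?_ ?_ <;> simp [cmb, cm1, smM]
  have e2 : (cmb w S 0 S).2 = smM w S.2 := by
    refine m9_ext' ?_ ?_ ?_ ?_ ?_ ?_ ?_ ?_ ?_ <;> simp [cmb, cm1, smM]
  rw [e1, e2, ap1_sm, ap1_sm, smul_comm, ← smul_add]

theorem hev_cmb (w : ℝ) (K : Hm ℝ) (S : P9) (e : ℂ) (x : Fin 3 → ℂ) :
    hev K (ap (cmb w S 0 S) e x) = w ^ 2 * hev K (ap S e x) := by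
  rw [ap_cmb, ev_smul, Complex.norm_real, Real.norm_eq_abs, sq_abs]

theorem imp_cmb {K K' : Hm ℝ} {w : ℝ} (hw : 0 < w) {S : P9} {e : ℂ} (h : Imp K K' (ap S e)) :
    Imp K K' (ap (cmb w S 0 S) e) := by
  intro x hx hK
  rw [hev_cmb]
  have := h x hx hK
  positivity

theorem imp_cmb_iff {K K' : Hm ℝ} {w : ℝ} (hw : 0 < w) {S : P9} {e : ℂ} :
    Imp K K' (ap (cmb w S 0 S) e) ↔ Imp K K' (ap S e) := by
  refine ⟨fun h x hx hK => ?_, imp_cmb hw⟩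
  have h1 := h x hx hK
  rw [hev_cmb] at h1
  exact (pos_iff_pos_of_mul_pos h1).1 (by positivity)

end Pool.Agent.Helper60.CXT
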