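import Pool.Agent.Helper48.CXT.KC
import Pool.Agent.Helper48.CXT.TS
import Pool.Agent.Helper60.CXF.Con3
import Pool.Agent.Helper60.CXT.Ct7
import Pool.Agent.Helper60.CXT.RW

/-!
Far cells of tail classes, row F1: the context of a piece; forms.
-/

set_option autoImplicit false
set_option exponentiation.threshold 4000
noncomputable section
namespace Pool.Agent.Helper60.CXT

open Pool.Agent.Helper6.MONO hiding fP
open Pool.Agent.Helper21.SUP (GS DG DG_nx)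
open Pool.Agent.Helper21.SUP renaming nx → nxs
open Pool.Agent.Helper86.CX renaming Hm → Hm, ev → hev
open Pool.Agent.Helper39.SLT (ML)
open Pool.Agent.Helper94.CXF (M9)
open Pool.Agent.Helper94.CXF hiding cmb
open Pool.Agent.Helper94.CXF.SD
open Pool.Agent.Helper48.CXT
open Pool.Agent.Helper48.CXT.KC (okI bLo bHi sbx setR SDT PT nthD pX cHT)

/-! ### labels -/

/-- label `l` with the interval `[a, b]`, order `M` -/
structure LbO (l a b M : ℕ) : Prop where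
  ok : okI l a b = true
  ex : l ≠ 0 → M = l
  tl : l = 0 → 10 ≤ M ∧ (a : ℝ) ≤ 2 ^ 48 * Kp M ∧ 2 ^ 48 * Kp M ≤ b

/-- what it means -/
structure LbS (l a b M : ℕ) : Prop where
  m3 : 3 ≤ M
  a0 : 2 ^ 48 ≤ a
  ab : a ≤ b
  b1 : b ≤ 2 ^ 49
  inv : InV a b (Kp M)
  ex : l ≠ 0 → M = l ∧ M ≤ 9
  tl : l = 0 → 10 ≤ M ∧ (19 / 10 : ℝ) * 2 ^ 48 ≤ a ∧ (a : ℝ) ≤ 2 ^ 48 * Kp M ∧ 2 ^ 48 * Kp M ≤ b

theorem tk_ge {M : ℕ} (h3 : 3 ≤ M) (h : M ≤ 9) : 2 ^ 48 ≤ KN.nth KN.tk M := by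
  interval_cases M <;> decide +kernel

theorem LbO.s {l a b M : ℕ} (h : LbO l a b M) : LbS l a b M := by
  by_cases hl : l = 0
  · obtain ⟨m, h1, h2⟩ := h.tl hl
    have hk := h.ok
    rw [hl] at hk
    have hk' : KN.andB (Nat.ble 534802455750247 a) (KN.andB (Nat.ble a b)
      (Nat.ble b 562949953421312)) = true := hk
    simp only [andB_iff] at hk'
    obtain ⟨k1, k2, k3⟩ := hk'
    have k1 : 534802455750247 ≤ a := Nat.le_of_ble_eq_true k1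
    have k2 : a ≤ b := Nat.le_of_ble_eq_true k2
    have k3 : b ≤ 562949953421312 := Nat.le_of_ble_eq_true k3
    have k1' : (534802455750247 : ℝ) ≤ a := by exact_mod_cast k1
    refine ⟨by omega, by omega, k2, by omega, Or.inr ⟨h1, h2⟩, fun h => absurd hl h,
      fun _ => ⟨m, ?_, h1, h2⟩⟩
    linarith
  · have hM := h.ex hl
    have hk := h.ok
    unfold okI at hk
    have hb : Nat.beq l 0 = false := by
      cases hq : Nat.beq l 0 with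
      | false => rfl
      | true => exact absurd (Nat.eq_of_beq_eq_true hq) hl
    rw [hb] at hk
    have hk' : KN.andB (KN.andB (Nat.ble 3 l) (Nat.ble l 9))
      (KN.andB (Nat.beq a (KN.nth KN.tk l)) (Nat.beq b (KN.nth KN.tk l))) = true := hk
    simp only [andB_iff] at hk'
    obtain ⟨⟨k1, k2⟩, k3, k4⟩ := hk'
    have k1 : 3 ≤ l := Nat.le_of_ble_eq_true k1
    have k2 : l ≤ 9 := Nat.le_of_ble_eq_true k2
    have k3 : a = KN.nth KN.tk l := Nat.eq_of_beq_eq_true k3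
    have k4 : b = KN.nth KN.tk l := Nat.eq_of_beq_eq_true k4
    subst hM
    refine ⟨k1, by rw [k3]; exact tk_ge k1 k2, by rw [k3, k4], by rw [k4]; exact tk_le9 k2,
      Or.inl ⟨by rw [k3, k4], ?_⟩, fun _ => ⟨rfl, k2⟩, fun h => absurd h hl⟩
    rw [k3]
    exact tab_k k1 k2

/-- the class: labels `p q r`, orders `P Q R`, box `b` -/
structure Cls (p q r P Q R : ℕ) (b : KT.Bx) : Prop where
  h1 : LbO p b.a1 b.b1 P
  h2 : LbO q b.a2 b.b2 Q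
  h3 : LbO r b.a3 b.b3 R

section
variable {p q r P Q R : ℕ} {b : KT.Bx}

theorem Cls.st (C : Cls p q r P Q R b) {i j : Fin 3} (h : i ≠ j) :
    LbO (mm p q r i j) (KN.nth (bLo b) (KN.ix i j)) (KN.nth (bHi b) (KN.ix i j))
      (mm P Q R i j) := by
  fin_cases i <;> fin_cases j
  · exact absurd rfl h
  · exact C.h1
  · exact C.h3
  · exact C.h1
  · exact absurd rfl h
  · exact C.h2
  · exact C.h3
  · exact C.h2
  · exact absurd rfl h

theorem Cls.P3 (C : Cls p q r P Q R b) : 3 ≤ P := C.h1.s.m3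
theorem Cls.Q3 (C : Cls p q r P Q R b) : 3 ≤ Q := C.h2.s.m3
theorem Cls.R3 (C : Cls p q r P Q R b) : 3 ≤ R := C.h3.s.m3

theorem setR_0 (v : KT.Bx) (r : ℕ) : (setR v r).r0 = 0 := rfl

/-- the box of a state -/
theorem Cls.rg (C : Cls p q r P Q R b) {s : GS} (hs : DG s) :
    Rg (sbx b s.1 s.2.1 s.2.2) := by
  have k := (C.st hs.1).s
  have h := (C.st hs.2.1).s
  have g := (C.st (Ne.symm hs.2.2)).s
  exact ⟨k.a0, h.a0, g.a0, k.b1, h.b1, g.b1, k.ab, h.ab, g.ab, le_refl _, Nat.zero_le _⟩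

theorem Cls.inb (C : Cls p q r P Q R b) {s : GS} (hs : DG s) :
    InB (sbx b s.1 s.2.1 s.2.2) (kk P Q R s.1 s.2.1) (kk P Q R s.2.1 s.2.2)
      (kk P Q R s.1 s.2.2) 0 := by
  have k := (C.st hs.1).s
  have h := (C.st hs.2.1).s
  have g := (C.st (Ne.symm hs.2.2)).s
  refine ⟨k.inv, h.inv, g.inv, ?_, ?_⟩
  · change ((0 : ℕ) : ℝ) ≤ _
    simp
  · change _ ≤ ((0 : ℕ) : ℝ)
    simp

theorem Cls.rgR (C : Cls p q r P Q R b) {s : GS} (hs : DG s) {x : ℕ}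
    (hx : x ≤ 187649984473771) : Rg (setR (sbx b s.1 s.2.1 s.2.2) x) := by
  have h := C.rg hs
  exact ⟨h.a1, h.a2, h.a3, h.b1, h.b2, h.b3, h.c1, h.c2, h.c3, Nat.zero_le _, hx⟩

theorem Cls.inbR (C : Cls p q r P Q R b) {s : GS} (hs : DG s) {x : ℕ} {ρ : ℝ} (h0 : 0 ≤ ρ)
    (h1 : 2 ^ 48 * ρ ≤ x) :
    InB (setR (sbx b s.1 s.2.1 s.2.2) x) (kk P Q R s.1 s.2.1) (kk P Q R s.2.1 s.2.2)
      (kk P Q R s.1 s.2.2) ρ := by
  have h := C.inb hs
  refine ⟨h.v1, h.v2, h.v3, ?_, h1⟩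
  change ((0 : ℕ) : ℝ) ≤ _
  push_cast
  positivity

end

/-! ### pieces -/

/-- the centre -/
def xcT (P : PT) : ℝ := ((P.xv : ℝ) - 2 ^ 50) / 2 ^ 48

theorem allN_sound {f : KN.Nd → Bool} : ∀ (l : List KN.Nd), KN.allN f l = true →
    ∀ n ∈ l, f n = true := by
  intro l
  induction l with
  | nil => intro _ n hn; exact absurd hn List.not_mem_nil
  | cons x l ih =>
    intro h n hn
    have h' : KN.andB (f x) (KN.allN f l) = true := h
    rw [andB_iff] at h'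
    rcases List.mem_cons.1 hn with h1 | h1
    · rw [h1]
      exact h'.1
    · exact ih h'.2 n h1

structure CHT (p q r : ℕ) (b : KT.Bx) (P : PT) : Prop where
  o1 : okI p b.a1 b.b1 = true
  o2 : okI q b.a2 b.b2 = true
  o3 : okI r b.a3 b.b3 = true
  x1 : b.r1 ≤ P.xv + P.xr * 4294967296
  x2 : P.xv ≤ b.r0 + P.xr * 4294967296
  cx : CxOk (xcT P) (pX P)

theorem cHT_sound {p q r : ℕ} {b : KT.Bx} {P : PT} (h : cHT p q r b P = true) :
    CHT p q r b P := by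
  unfold cHT at h
  simp only [andB_iff] at h
  obtain ⟨⟨o1, o2, o3⟩, ⟨x1, x2⟩, ⟨y1, y2⟩, ⟨z1, z2⟩, l1, n1, n2⟩ := h
  have x1 : b.r1 ≤ P.xv + P.xr * 4294967296 := Nat.le_of_ble_eq_true x1
  have x2 : P.xv ≤ b.r0 + P.xr * 4294967296 := Nat.le_of_ble_eq_true x2
  have y1 : P.x ≤ 131072 := Nat.le_of_ble_eq_true y1
  have y2 : P.xr ≤ 131072 := Nat.le_of_ble_eq_true y2
  have z1 : P.xv + 32 ≤ 1125899906842624 + P.x * 4294967296 := Nat.le_of_ble_eq_true z1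
  have z2 : 1125899906842656 ≤ P.xv + P.x * 4294967296 := Nat.le_of_ble_eq_true z2
  have l1 : (KN.nthN P.ns P.i0).i + 1 ≤ (KN.nthN P.ns P.i1).i := Nat.le_of_ble_eq_true l1
  have z1' : (P.xv : ℝ) + 32 ≤ 1125899906842624 + P.x * 4294967296 := by exact_mod_cast z1
  have z2' : (1125899906842656 : ℝ) ≤ P.xv + P.x * 4294967296 := by exact_mod_cast z2
  have y1' : (P.x : ℝ) ≤ 131072 := by exact_mod_cast y1
  have hx : |xcT P| ≤ (P.x : ℝ) / 2 ^ 16 := by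
    unfold xcT
    rw [abs_le]
    constructor
    · rw [le_div_iff₀ (by positivity)]
      linarith
    · rw [div_le_iff₀ (by positivity)]
      linarith
  have hx2 : |xcT P| ≤ 2 := by
    refine hx.trans ?_
    rw [div_le_iff₀ (by positivity)]
    linarith
  have he : |xcT P * 2 ^ 48 - ((P.xv : ℝ) - 2 ^ 50)| ≤ 32 := by
    have : xcT P * 2 ^ 48 - ((P.xv : ℝ) - 2 ^ 50) = 0 := by
      unfold xcT
      ring
    rw [this]
    norm_num
  exact ⟨o1, o2, o3, x1, x2, hx, y1, y2, fun n hn => okNd_sound he hx2 (allN_sound _ n2 n hn),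
    okNd_sound he hx2 n1, l1⟩

theorem inx_of {p q r : ℕ} {b : KT.Bx} {P : PT} (h : CHT p q r b P) {x0 σ : ℝ} {u : ℂ}
    (h0 : (b.r0 : ℝ) ≤ 2 ^ 48 * x0 + 2 ^ 50) (h1 : 2 ^ 48 * x0 + 2 ^ 50 ≤ b.r1)
    (hx : |x0| ≤ 2) (hc : Cv x0 σ u) (s0 : ((KN.nthN P.ns P.i0).i : ℝ) / 2048 ≤ σ)
    (s1 : σ ≤ ((KN.nthN P.ns P.i1).i : ℝ) / 2048) : InX (xcT P) (pX P) x0 σ u := by
  refine ⟨hc, ?_, hx, s0, s1⟩
  have x1 : (b.r1 : ℝ) ≤ P.xv + P.xr * 4294967296 := by exact_mod_cast h.x1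
  have x2 : (P.xv : ℝ) ≤ b.r0 + P.xr * 4294967296 := by exact_mod_cast h.x2
  change |x0 - xcT P| ≤ (P.xr : ℝ) / 2 ^ 16
  rw [abs_le, le_div_iff₀ (by positivity), neg_le, le_div_iff₀ (by positivity)]
  unfold xcT
  constructor
  · linarith
  · linarith

/-! ### forms -/

/-- the data of a state -/
def SDTs (P : PT) (s : GS) : SDT := nthD P.s (KN.ix s.1 s.2.1)
def K0T (P : PT) (s : GS) : Hm ℝ := rH (decz (SDTs P s).K0)
def KFN (p q r : ℕ) (P : PT) (s : GS) : ℕ :=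
  if mm p q r s.1 s.2.2 = 0 then (SDTs P s).K0 else (SDTs P s).KF
/-- for tails, the form `K0` -/
def KFT (p q r : ℕ) (P : PT) (s : GS) : Hm ℝ := rH (decz (KFN p q r P s))
def KBT (P : PT) (s : GS) : Hm ℝ := rH (decz (SDTs P s).KB)
def P1T (P : PT) (σ : ℝ) (s : GS) : Hm ℝ := lpf (SDTs P s).A1 (SDTs P s).B1 σ
def P2T (P : PT) (σ : ℝ) (s : GS) : Hm ℝ := lpf (SDTs P s).A2 (SDTs P s).B2 σ

theorem frH_rep {A : Hm ℕ} {Z : Hm ℤ} (h : RH A Z) : Rp (KT.frH A) (frz Z) := by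
  have e := ((h.a.mul h.a).add ((h.b.mul h.b).add (h.c.mul h.c))).add
    ((Pool.Agent.Helper17.PAK.Rep.nat KN.MM 2).mul (((h.d.mul h.d).add ((h.e.mul h.e).add
      ((h.f.mul h.f).add (h.g.mul h.g)))).add ((h.h.mul h.h).add (h.i.mul h.i))))
  have e' : frz Z = Z.a * Z.a + (Z.b * Z.b + Z.c * Z.c) +
      ((2 : ℕ) : ℤ) * (Z.d * Z.d + (Z.e * Z.e + (Z.f * Z.f + Z.g * Z.g)) +
        (Z.h * Z.h + Z.i * Z.i)) := by
    rw [frz]
    push_cast
    ring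
  rw [e']
  exact e

theorem frz_nonneg (Z : Hm ℤ) : 0 ≤ frz Z := by
  unfold frz
  have h := fun z : ℤ => mul_self_nonneg z
  have := h Z.a
  have := h Z.b
  have := h Z.c
  have := h Z.d
  have := h Z.e
  have := h Z.f
  have := h Z.g
  have := h Z.h
  have := h Z.i
  linarith

theorem frz_bd {Z : Hm ℤ} {b : ℤ} (h : BH b Z) : frz Z ≤ 15 * (b * b) := by
  unfold frz
  have := sqz h.a
  have := sqz h.b
  have := sqz h.c
  have := sqz h.d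
  have := sqz h.e
  have := sqz h.f
  have := sqz h.g
  have := sqz h.h
  have := sqz h.i
  linarith

theorem mod_le_sound {A n : ℕ} {v : ℤ} (h : Nat.ble (Nat.mod A KN.MM) n = true)
    (hv : Rp A v) (h0 : 0 ≤ v) (h1 : v < 2 ^ 1152) : v ≤ (n : ℤ) := by
  have h2 : A % KN.MM ≤ n := Nat.le_of_ble_eq_true h
  have h3 : ((A % KN.MM : ℕ) : ℤ) = v := hv.mod_eq MM_pos h0 (by rw [MM_eq]; exact_mod_cast h1)
  have h4 : ((A % KN.MM : ℕ) : ℤ) ≤ n := by exact_mod_cast h2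
  rw [h3] at h4
  exact h4

/-- `l - K` -/
def lmz (l : ℤ) (K : Hm ℤ) : Hm ℤ :=
  ⟨l + -K.a, l + -K.b, l + -K.c, -K.d, -K.e, -K.f, -K.g, -K.h, -K.i⟩

theorem lm_rep {l : ℕ} {A : Hm ℕ} {Z : Hm ℤ} (h : RH A Z) : RH (KT.lmK l A) (lmz l Z) := by
  have hl := Pool.Agent.Helper17.PAK.Rep.nat KN.MM l
  exact ⟨hl.add (rp_nm h.a), hl.add (rp_nm h.b), hl.add (rp_nm h.c), rp_nm h.d, rp_nm h.e,
    rp_nm h.f, rp_nm h.g, rp_nm h.h, rp_nm h.i⟩

theorem lm_hev (l : ℕ) (Z : Hm ℤ) (x : Fin 3 → ℂ) :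
    hev (rH (lmz l Z)) x = l * nr x - hev (rH Z) x := by
  simp only [hev, rH, GR.mpH, lmz, nr, cI_apply]
  simp [Complex.normSq_apply]
  ring

theorem lm_bd {l : ℕ} {Z : Hm ℤ} (hl : l ≤ 2 ^ 200) (h : BH (2 ^ 200) Z) :
    BH (2 ^ 256) (lmz l Z) := by
  have hl' : |(l : ℤ)| ≤ 2 ^ 200 := by
    rw [abs_of_nonneg (Int.natCast_nonneg l)]
    exact_mod_cast hl
  have n : ∀ {z : ℤ}, |z| ≤ 2 ^ 200 → |-z| ≤ 2 ^ 200 := fun h => by rwa [abs_neg]
  have m : (2 : ℤ) ^ 200 + 2 ^ 200 ≤ 2 ^ 256 := by norm_num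
  have m' : (2 : ℤ) ^ 200 ≤ 2 ^ 256 := by norm_num
  exact ⟨(abs_add2 hl' (n h.a)).trans m, (abs_add2 hl' (n h.b)).trans m,
    (abs_add2 hl' (n h.c)).trans m, (n h.d).trans m', (n h.e).trans m', (n h.f).trans m',
    (n h.g).trans m', (n h.h).trans m', (n h.i).trans m'⟩

theorem psd_lm {l : ℕ} {A : Hm ℕ} {Z : Hm ℤ} (h : RH A Z) (hl : l ≤ 2 ^ 200)
    (hb : BH (2 ^ 200) Z) (hp : KN.psd (KT.lmK l A) = true) (x : Fin 3 → ℂ) :
    hev (rH Z) x ≤ l * nr x := by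
  have h1 := PDz_hev (psd_sound (lm_rep h) (lm_bd hl hb) hp) x
  rw [lm_hev] at h1
  linarith

/-- a good form -/
structure OkK (K : ℕ) : Prop where
  neg : NegS (rH (decz K))
  lam : KT.lam K ≤ 2 ^ 28
  fr : frz (decz K) ≤ ((KT.o20 : ℕ) : ℤ) ^ 2
  hev : ∀ x, hev (rH (decz K)) x ≤ KT.lam K * nr x

theorem o20_eq : KT.o20 = 2 ^ 20 := by decide +kernel
theorem o28_eq : KT.o28 = 2 ^ 28 := by decide +kernel
theorem o40_eq : KT.o40 = 2 ^ 40 := by decide +kernel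

theorem okK_sound {K : ℕ} (h : KT.okK K = true) : OkK K := by
  unfold KT.okK at h
  simp only [andB_iff] at h
  obtain ⟨⟨h1, h2⟩, h3, h4⟩ := h
  have h2 : KT.lam K ≤ KT.o28 := Nat.le_of_ble_eq_true h2
  rw [o28_eq] at h2
  have bz := (dec_bd K).mono (b := 2 ^ 200) (by norm_num)
  refine ⟨ngs_sound (dec_rep _) (dec_bd _) h1, h2, ?_, fun x =>
    psd_lm (dec_rep K) (h2.trans (by norm_num)) bz h4 x⟩
  have h5 := mod_le_sound h3 (frH_rep (dec_rep K)) (frz_nonneg _)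
    ((frz_bd (dec_bd K)).trans_lt (by norm_num))
  rw [o40_eq] at h5
  rw [o20_eq]
  push_cast at h5 ⊢
  refine h5.trans (le_of_eq ?_)
  norm_num

/-- `8 A + B` -/
def a8z (A B : Hm ℤ) : Hm ℤ :=
  ⟨8 * A.a + B.a, 8 * A.b + B.b, 8 * A.c + B.c, 8 * A.d + B.d, 8 * A.e + B.e, 8 * A.f + B.f,
    8 * A.g + B.g, 8 * A.h + B.h, 8 * A.i + B.i⟩

theorem a8_rep {A B : Hm ℕ} {A' B' : Hm ℤ} (h : RH A A') (g : RH B B') :
    RH (KT.a8 A B) (a8z A' B') := by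
  have k := Pool.Agent.Helper17.PAK.Rep.nat KN.MM 8
  exact ⟨(k.mul h.a).add g.a, (k.mul h.b).add g.b, (k.mul h.c).add g.c, (k.mul h.d).add g.d,
    (k.mul h.e).add g.e, (k.mul h.f).add g.f, (k.mul h.g).add g.g, (k.mul h.h).add g.h,
    (k.mul h.i).add g.i⟩

theorem a8_hev (A B : Hm ℤ) (x : Fin 3 → ℂ) :
    hev (rH (a8z A B)) x = 8 * hev (rH A) x + hev (rH B) x := by
  simp only [hev, rH, GR.mpH, a8z, cI_apply]
  push_cast
  simp [Complex.normSq_apply]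
  ring

theorem a8_bd {A B : Hm ℤ} (h : BH (2 ^ 27) A) (g : BH (2 ^ 27) B) : BH (2 ^ 31) (a8z A B) := by
  have k : ∀ {y z : ℤ}, |y| ≤ 2 ^ 27 → |z| ≤ 2 ^ 27 → |8 * y + z| ≤ 2 ^ 31 := by
    intro y z hy hz
    rw [abs_le] at *
    constructor <;> linarith
  exact ⟨k h.a g.a, k h.b g.b, k h.c g.c, k h.d g.d, k h.e g.e, k h.f g.f, k h.g g.g, k h.h g.h,
    k h.i g.i⟩

/-- good forms `A + s B` -/
structure OkL (A B : ℕ) : Prop where
  lamA : KT.lam A ≤ 2 ^ 28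
  lamB : KT.lam B ≤ 2 ^ 28
  frA : frz (decz A) ≤ (KT.lam B : ℤ) ^ 2
  frB : frz (a8z (decz A) (decz B)) ≤ (8 * (KT.lam B : ℤ)) ^ 2
  hev : ∀ {s : ℝ}, 0 ≤ s → s ≤ 1 / 8 → ∀ x, hev (lpf A B s) x ≤ KT.lam A * nr x

theorem okL_sound {A B : ℕ} (h : KT.okL A B = true) : OkL A B := by
  unfold KT.okL at h
  simp only [andB_iff] at h
  obtain ⟨⟨h1, h2⟩, ⟨h3, h4⟩, h5, h6⟩ := h
  have h1 : KT.lam A ≤ KT.o28 := Nat.le_of_ble_eq_true h1
  have h2 : KT.lam B ≤ KT.o28 := Nat.le_of_ble_eq_true h2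
  rw [o28_eq] at h1 h2
  have a8r := a8_rep (dec_rep A) (dec_rep B)
  have a8b := a8_bd (dec_bd A) (dec_bd B)
  have k3 := mod_le_sound (n := KT.lam B * KT.lam B) h3 (frH_rep (dec_rep A)) (frz_nonneg _)
    ((frz_bd (dec_bd A)).trans_lt (by norm_num))
  have k4 := mod_le_sound (n := 64 * (KT.lam B * KT.lam B)) h4 (frH_rep a8r) (frz_nonneg _)
    ((frz_bd a8b).trans_lt (by norm_num))
  refine ⟨h1, h2, ?_, ?_, ?_⟩
  · refine k3.trans (le_of_eq ?_)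
    generalize KT.lam B = l
    push_cast
    ring
  · refine k4.trans (le_of_eq ?_)
    generalize KT.lam B = l
    push_cast
    ring
  · intro s s0 s1 x
    have g1 := psd_lm (dec_rep A) (h1.trans (by norm_num))
      ((dec_bd A).mono (b := 2 ^ 200) (by norm_num)) h5 x
    have l8 : 8 * KT.lam A ≤ 2 ^ 200 := by
      have : 8 * KT.lam A ≤ 8 * 2 ^ 28 := by omega
      exact this.trans (by norm_num)
    have g2 := psd_lm (l := 8 * KT.lam A) a8r l8 (a8b.mono (b := 2 ^ 200) (by norm_num)) h6 x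
    rw [a8_hev] at g2
    rw [hev_lpf]
    push_cast at g2
    revert g1 g2
    generalize (KT.lam A : ℝ) = l
    intro g1 g2
    have e1 := mul_le_mul_of_nonneg_left g2 s0
    have e2 := mul_le_mul_of_nonneg_left g1 (by linarith : (0 : ℝ) ≤ 1 - 8 * s)
    linarith

theorem LamP.of_bd {la : ℕ} {K : Hm ℤ} (h : ∀ x, hev (rH K) x ≤ la * nr x)
    (Z : Bool → Bool → Bool → M9 ℤ × M9 ℤ) : LamP la K Z := fun _ _ v _ => h v

end Pool.Agent.Helper60.CXT
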