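import Pool.Agent.Helper60.CXT.FR0

/-!
Far cells of tail classes, row F2: the leaves on boxes; the runs of a star.
-/

set_option autoImplicit false
set_option exponentiation.threshold 4000
noncomputable section
namespace Pool.Agent.Helper60.CXT

open Pool.Agent.Helper6.MONO hiding fP
open Pool.Agent.Helper21.SUP (GS DG DG_nx)
open Pool.Agent.Helper21.SUP renaming nx → nxs
open Pool.Agent.Helper86.CX renaming Hm → Hm, ev → hev
open Pool.Agent.Helper39.SLT (ML ML_nx)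
open Pool.Agent.Helper94.CXF (M9)
open Pool.Agent.Helper94.CXF hiding cmb
open Pool.Agent.Helper94.CXF.SD
open Pool.Agent.Helper48.CXT
open Pool.Agent.Helper48.CXT.KC (okI bLo bHi sbx setR SDT PT nthD nthT pX cHT)

/-! ### sources -/

theorem c138_rep : Rp KT.c138 (-2 ^ 138) := by
  unfold Rp Pool.Agent.Helper17.PAK.Rep Int.ModEq
  decide +kernel

theorem srcN_rep (K : ℕ) : RH (KT.srcN K) (GR.smH (-2 ^ 138) (decz K)) :=
  smH_rep c138_rep (dec_rep K)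

theorem krf_rep : RH KC.krf (GR.smH (-2 ^ 138) krefz) := smH_rep c138_rep kref_rep

/-! ### what is assumed -/

/-- the leaf theorems, the class, the segment, the point -/
structure Hyp (p q r P Q R : ℕ) (b : KT.Bx) (Pc : PT) (x0 σ : ℝ) (u : ℂ) : Prop where
  bp : BoxP
  bb : BoxB
  cl : Cls p q r P Q R b
  cx : CxOk (xcT Pc) (pX Pc)
  ix : InX (xcT Pc) (pX Pc) x0 σ u

theorem lP_sound (hBP : BoxP) {xc x0 σ : ℝ} {u : ℂ} {X : KT.Cx} (hX : CxOk xc X)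
    (hi : InX xc X x0 σ u) {K : ℕ} (hK : OkK K) {KS : Hm ℕ} {Kz : Hm ℤ}
    (hN : RH KS (GR.smH (-2 ^ 138) Kz)) (bz : BH (2 ^ 27) Kz) {F : ℕ → ℕ → ℕ → KT.MP}
    {c1 c2 c3 : ℕ} {dv : KT.Bx → KT.Bx} {T : ℝ → ℝ → ℝ → P9} (hF : FamP dv T F c1 c2 c3)
    {b : KT.Bx} (hb : Rg b) {v1 v2 v3 R : ℝ} (hv : InB b v1 v2 v3 R) {t : KT.Tr KT.Lf}
    (h : KC.lP X K KS F c1 c2 c3 dv t b = true) :
    Imp (rH Kz) (rH (decz K)) (ap (T v1 v2 v3) (σ * u)) := by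
  unfold KC.lP at h
  obtain ⟨b', l, hl, g⟩ := trev_sound t h hb.or hv
  obtain ⟨hd, Z, hZ, hn⟩ := hF b' (hb.sub g.sub) v1 v2 v3 R g.inb
  exact hBP hX hi (dec_rep K) (dec_bd K) hN bz hK.lam (by rw [o20_eq]; norm_num) hK.fr
    (LamP.of_bd hK.hev Z) hZ hn hd hl

theorem lB_sound (hBB : BoxB) {xc x0 σ : ℝ} {u : ℂ} {X : KT.Cx} (hX : CxOk xc X)
    (hi : InX xc X x0 σ u) {K : ℕ} (hK : OkK K) {KS : Hm ℕ} {Kz : Hm ℤ}
    (hN : RH KS (GR.smH (-2 ^ 138) Kz)) (bz : BH (2 ^ 27) Kz) {F : ℕ → ℕ → ℕ → ℕ → ℕ → KT.MP}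
    {c1 c2 c3 : ℕ} {rm : ℝ} {T : ℝ → ℝ → ℝ → ℝ → P9} (hF : FamB rm T F c1 c2 c3)
    {b : KT.Bx} (hb : Rg b) (h19 : (19 / 10 : ℝ) * 2 ^ 48 ≤ b.a1) {v1 v2 v3 R : ℝ}
    (hv : InB b v1 v2 v3 R) (hp : PrV b.a1 b.b1 v1) (hR : R ≤ rm) {t : KT.Tr KT.Lf}
    (h : KC.lB X K KS F c1 c2 c3 t b = true) :
    Imp (rH Kz) (rH (decz K)) (ap (T v1 v2 v3 R) (σ * u)) := by
  unfold KC.lB at h
  obtain ⟨b', l, hl, g⟩ := trev_sound t h hb.or hv
  have h19' : (19 / 10 : ℝ) * 2 ^ 48 ≤ b'.a1 := h19.trans (by exact_mod_cast g.sub.a1)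
  obtain ⟨hd, Z, hZ, hn⟩ := hF b' (hb.sub g.sub) h19' v1 v2 v3 R g.inb (g.p1 hp).1 (g.p1 hp).2 hR
  exact hBB hX hi (dec_rep K) (dec_bd K) hN bz hK.lam (by rw [o20_eq]; norm_num) hK.fr
    hK.hev hZ hn hd hl

/-! ### the forms of the states -/

/-- the facts of `tN` -/
structure NegT (L4 nt o : Bool) (D : SDT) : Prop where
  K0 : L4 = true → OkK D.K0
  KF : nt = true → OkK D.KF
  KB : OkK D.KB
  A1 : o = true → NegS (rH (decz D.A1))
  A2 : o = true → NegS (rH (decz D.A2))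
  a1 : o = true → OkA (decz D.A1)
  a2 : o = true → OkA (decz D.A2)
  b1 : o = true → OkB (decz D.B1)
  b2 : o = true → OkB (decz D.B2)
  l1 : o = true → OkL D.A1 D.B1
  l2 : o = true → OkL D.A2 D.B2

theorem tN_sound {L4 nt o : Bool} {D : SDT} (h : KC.tN L4 nt o D = true) : NegT L4 nt o D := by
  unfold KC.tN at h
  simp only [andB_iff, impB_iff] at h
  obtain ⟨h0, hF, hB, ho⟩ := h
  exact ⟨fun h => okK_sound (h0 h), fun h => okK_sound (hF h), okK_sound hB,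
    fun h => ngs_sound (dec_rep _) (dec_bd _) (ho h).1.1,
    fun h => ngs_sound (dec_rep _) (dec_bd _) (ho h).1.2.1,
    fun h => okA_sound (ho h).1.2.2.1, fun h => okA_sound (ho h).1.2.2.2.1,
    fun h => okB_sound (ho h).1.2.2.2.2.1, fun h => okB_sound (ho h).1.2.2.2.2.2,
    fun h => okL_sound (ho h).2.1, fun h => okL_sound (ho h).2.2⟩

/-- the flags of a state -/
def l4S (p q r : ℕ) (s : GS) : Bool := KN.notB (Nat.beq (mm p q r s.1 s.2.2) 3)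
def ntS (p q r : ℕ) (s : GS) : Bool := KN.notB (Nat.beq (mm p q r s.1 s.2.2) 0)

theorem notB_iff {x : Bool} : KN.notB x = true ↔ x ≠ true := by cases x <;> simp [KN.notB]

theorem l4S_iff {p q r : ℕ} {s : GS} : l4S p q r s = true ↔ mm p q r s.1 s.2.2 ≠ 3 := by
  rw [l4S, notB_iff, Ne, Nat.beq_eq]
theorem ntS_iff {p q r : ℕ} {s : GS} : ntS p q r s = true ↔ mm p q r s.1 s.2.2 ≠ 0 := by
  rw [ntS, notB_iff, Ne, Nat.beq_eq]

section
variable {p q r P Q R : ℕ} {b : KT.Bx} {Pc : PT} {x0 σ : ℝ} {u : ℂ}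

/-- the label of the order: three or more -/
theorem Cls.ML_lab (C : Cls p q r P Q R b) {s : GS} (hs : DG s) :
    ML P Q R s = 3 ↔ mm p q r s.1 s.2.2 = 3 := by
  have g := (C.st (Ne.symm hs.2.2)).s
  constructor
  · intro h
    by_cases h0 : mm p q r s.1 s.2.2 = 0
    · have := (g.tl h0).1
      rw [ML] at h
      omega
    · have := (g.ex h0).1
      rw [ML] at h
      omega
  · intro h
    have := (g.ex (by omega)).1
    rw [ML]
    omega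

theorem Cls.l4 (C : Cls p q r P Q R b) {s : GS} (hs : DG s) (h : 4 ≤ ML P Q R s) :
    l4S p q r s = true := by
  rw [l4S_iff]
  intro h3
  have := (C.ML_lab hs).2 h3
  omega

theorem Cls.l4' (C : Cls p q r P Q R b) {s : GS} (hs : DG s) (h : ML P Q R s = 3) :
    l4S p q r s = false := by
  have h1 := (C.ML_lab hs).1 h
  rw [l4S, h1]
  rfl

/-- unfolding of the tests of a state -/
theorem tS_un {s : GS} (hs : DG s) (h : KC.cST p q r b Pc s.1 s.2.1 s.2.2 = true) :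
    KC.tS2 (pX Pc) Pc.s (l4S p q r s) (ntS p q r s) (oriZ s) (SDTs Pc s) (SDTs Pc (nxs s 2))
      (SDTs Pc (nxs (nxs s 2) 2)) (sbx b s.1 s.2.1 s.2.2) (mm p q r s.1 s.2.1) s.1 s.2.1 s.2.2 =
      true := by
  unfold KC.cST KC.tS at h
  rw [mo_eq, mo_eq, orN_eq hs] at h
  exact h

/-- all checks of a piece -/
theorem cPT_sound (h : KC.cPT p q r b Pc = true) :
    CHT p q r b Pc ∧ ∀ s, DG s → KC.cST p q r b Pc s.1 s.2.1 s.2.2 = true := by
  unfold KC.cPT at h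
  simp only [andB_iff] at h
  obtain ⟨h0, h1, h2, h3, h4, h5, h6⟩ := h
  refine ⟨cHT_sound h0, fun s hs => ?_⟩
  rcases DG_cases hs with rfl | rfl | rfl | rfl | rfl | rfl
  · exact h1
  · exact h2
  · exact h3
  · exact h4
  · exact h5
  · exact h6

/-- the forms of a piece -/
def AllN (p q r : ℕ) (Pc : PT) : Prop :=
  ∀ s, DG s → NegT (l4S p q r s) (ntS p q r s) (oriZ s) (SDTs Pc s)

theorem allN_of (h : ∀ s, DG s → KC.cST p q r b Pc s.1 s.2.1 s.2.2 = true) : AllN p q r Pc := by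
  intro s hs
  have h1 := tS_un hs (h s hs)
  unfold KC.tS2 at h1
  rw [andB_iff] at h1
  exact tN_sound h1.1

theorem KFN_tl {s : GS} (h : mm p q r s.1 s.2.2 = 0) : KFN p q r Pc s = (SDTs Pc s).K0 := by
  rw [KFN, if_pos h]
theorem KFN_ex {s : GS} (h : mm p q r s.1 s.2.2 ≠ 0) : KFN p q r Pc s = (SDTs Pc s).KF := by
  rw [KFN, if_neg h]

/-- the form of the end of a star is good -/
theorem okKF (hA : AllN p q r Pc) {s : GS} (hs : DG s) : OkK (KFN p q r Pc s) := by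
  by_cases h : mm p q r s.1 s.2.2 = 0
  · rw [KFN_tl h]
    exact (hA s hs).K0 (l4S_iff.2 (by omega))
  · rw [KFN_ex h]
    exact (hA s hs).KF (ntS_iff.2 h)

theorem lab_nx (p q r : ℕ) (s : GS) (i : ℕ) :
    mm p q r (nxs s (i + 3)).1 (nxs s (i + 3)).2.2 = mm p q r s.1 s.2.1 := ML_nx p q r s (i + 3)

/-! ### exact stars -/

theorem rnE_sound {X : KT.Cx} {S : List SDT} {KS : Hm ℕ} {o L : Bool} {v : KT.Bx}
    {M n a c : ℕ} : ∀ (l : List (KT.Tr KT.Lf)) (i0 : ℕ),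
    KC.rnE X S KS o L v M n a c l i0 = true → ∀ i, i0 ≤ i → i + 3 ≤ M → ∃ t,
      KC.lP X (KC.tgE S M n a c i) KS (fun _ h g => KN.TR o L
        (KN.selB (KN.orN n a) (KN.orN a n) (KN.evn i)) h g M i) 0 0 (KC.c3E o L M i) KC.idB t v =
          true := by
  intro l
  induction l with
  | nil =>
    intro i0 hr i hi h3
    have hr' : M ≤ i0 + 2 := Nat.le_of_ble_eq_true hr
    omega
  | cons t l ih =>
    intro i0 hr i hi h3
    have hr' : KN.andB (KC.lP X (KC.tgE S M n a c i0) KS (fun _ h g => KN.TR o L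
        (KN.selB (KN.orN n a) (KN.orN a n) (KN.evn i0)) h g M i0) 0 0 (KC.c3E o L M i0) KC.idB t v)
      (KC.rnE X S KS o L v M n a c l (Nat.succ i0)) = true := hr
    rw [andB_iff] at hr'
    rcases Nat.eq_or_lt_of_le hi with h1 | h1
    · exact ⟨t, h1 ▸ hr'.1⟩
    · exact ih _ hr'.2 i h1 h3

theorem cL_eq (o L : Bool) (x y : ℕ) : KC.cL o L x y = cLL o L x y := by
  cases o <;> cases L <;> rfl

theorem tg_SDT (S : PT) (s : GS) (i : ℕ) :
    nthD S.s (KN.selN (KN.ix s.1 s.2.2) (KN.ix s.2.1 s.2.2) (KN.evn i)) =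
      SDTs S (nxs s (i + 3)) := by
  rw [selN_if]
  by_cases h : i % 2 = 0
  · rw [if_pos ((evn_iff i).2 h), nxs_even h, SDTs]
  · rw [if_neg (fun h' => h ((evn_iff i).1 h')), nxs_odd h, SDTs]

theorem runE (H : Hyp p q r P Q R b Pc x0 σ u) (hA : AllN p q r Pc) {s : GS} (hs : DG s)
    {L : Bool} {KS : Hm ℕ} {Kz : Hm ℤ} (hN : RH KS (GR.smH (-2 ^ 138) Kz)) (bz : BH (2 ^ 27) Kz)
    (hM : mm p q r s.1 s.2.1 ≠ 0) {l : List (KT.Tr KT.Lf)}
    (h : KC.rnE (pX Pc) Pc.s KS (oriZ s) L (sbx b s.1 s.2.1 s.2.2) (mm p q r s.1 s.2.1) s.1 s.2.1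
      s.2.2 l 0 = true) {i : ℕ} (hi : i + 3 ≤ mm P Q R s.1 s.2.1) :
    Imp (rH Kz) (if i + 3 = mm P Q R s.1 s.2.1 then KFT p q r Pc (nxs s (i + 3))
      else K0T Pc (nxs s (i + 3))) (ap (TRs P Q R L s i) (σ * u)) := by
  have C := H.cl
  have S := (C.st hs.1).s
  obtain ⟨hMe, hM9⟩ := S.ex hM
  have hM3 := S.m3
  rw [hMe] at hi hM9 hM3 ⊢
  obtain ⟨t, ht⟩ := rnE_sound l 0 h i (Nat.zero_le _) hi
  have hfam : FamP KC.idB (fun _ h g => TRr (oriZ s) L (oriZ (nxs s (i + 3))) h g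
      (uC (Kp (mm p q r s.1 s.2.1)) (i + 3)) (uC (Kp (mm p q r s.1 s.2.1)) (i + 2))
      (uC (Kp (mm p q r s.1 s.2.1)) (i + 1)) (eC (Kp (mm p q r s.1 s.2.1)) (i + 2))
      (eC (Kp (mm p q r s.1 s.2.1)) (i + 1)) (eC (Kp (mm p q r s.1 s.2.1)) i))
      (fun _ h g => KN.TR (oriZ s) L
        (KN.selB (KN.orN s.1 s.2.1) (KN.orN s.2.1 s.1) (KN.evn i)) h g (mm p q r s.1 s.2.1) i) 0 0
        (KC.c3E (oriZ s) L (mm p q r s.1 s.2.1) i) := by
    rw [tg_or hs, KC.c3E, cL_eq]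
    exact contAll.ex (oriZ s) L (oriZ (nxs s (i + 3))) _ _ _ _ _ _ _ _ _ _ _ _
      (ap_u hM3 hM9 (j := i + 3) (by omega)) (ap_u hM3 hM9 (j := i + 2) (by omega))
      (ap_u hM3 hM9 (j := i + 1) (by omega)) (ap_e hM3 hM9 (j := i + 2) (by omega))
      (ap_e hM3 hM9 (j := i + 1) (by omega)) (ap_e hM3 hM9 (j := i) (by omega))
  have eT : TRs P Q R L s i = TRr (oriZ s) L (oriZ (nxs s (i + 3))) (kk P Q R s.2.1 s.2.2)
      (kk P Q R s.1 s.2.2) (uC (Kp (mm p q r s.1 s.2.1)) (i + 3))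
      (uC (Kp (mm p q r s.1 s.2.1)) (i + 2)) (uC (Kp (mm p q r s.1 s.2.1)) (i + 1))
      (eC (Kp (mm p q r s.1 s.2.1)) (i + 2)) (eC (Kp (mm p q r s.1 s.2.1)) (i + 1))
      (eC (Kp (mm p q r s.1 s.2.1)) i) := by
    rw [TRs, kk, kk, kk, hMe]
  rw [eT]
  have hd := DG_nx s (i + 3) hs
  have hlab : mm p q r (nxs s (i + 3)).1 (nxs s (i + 3)).2.2 ≠ 0 := by
    rw [lab_nx]; exact hM
  rw [KC.tgE, tg_SDT, selN_if] at ht
  by_cases hM' : i + 3 = mm p q r s.1 s.2.1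
  · have hb : Nat.beq (Nat.add i 3) (mm p q r s.1 s.2.1) = true := by
      rw [Nat.beq_eq]; exact hM'
    rw [if_pos hb] at ht
    rw [if_pos hM', KFT, KFN_ex hlab]
    exact lP_sound H.bp H.cx H.ix ((hA _ hd).KF (ntS_iff.2 hlab)) hN bz hfam (C.rg hs)
      (C.inb hs) ht
  · have hb : ¬ Nat.beq (Nat.add i 3) (mm p q r s.1 s.2.1) = true := by
      rw [Nat.beq_eq]; exact hM'
    rw [if_neg hb] at ht
    rw [if_neg hM', K0T]
    refine lP_sound H.bp H.cx H.ix ((hA _ hd).K0 (l4S_iff.2 ?_)) hN bz hfam (C.rg hs)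
      (C.inb hs) ht
    rw [lab_nx]
    omega

/-! ### tail stars -/

theorem runT (H : Hyp p q r P Q R b Pc x0 σ u) (hA : AllN p q r Pc) {s : GS} (hs : DG s)
    {L : Bool} {KS : Hm ℕ} {Kz : Hm ℤ} (hN : RH KS (GR.smH (-2 ^ 138) Kz)) (bz : BH (2 ^ 27) Kz)
    (hM : mm p q r s.1 s.2.1 = 0) {l : List (KT.Tr KT.Lf)}
    (h : KC.rnT (pX Pc) Pc.s KS (oriZ s) L (sbx b s.1 s.2.1 s.2.2) s.1 s.2.1
      s.2.2 l = true) {i : ℕ} (hi : i + 3 ≤ mm P Q R s.1 s.2.1) :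
    Imp (rH Kz) (if i + 3 = mm P Q R s.1 s.2.1 then KFT p q r Pc (nxs s (i + 3))
      else K0T Pc (nxs s (i + 3))) (ap (TRs P Q R L s i) (σ * u)) := by
  have C := H.cl
  have S := (C.st hs.1).s
  obtain ⟨hM10, h19, hp1, hp2⟩ := S.tl hM
  have hd := DG_nx s (i + 3) hs
  have hlab : mm p q r (nxs s (i + 3)).1 (nxs s (i + 3)).2.2 = 0 := by
    rw [lab_nx]; exact hM
  have etg : (if i + 3 = mm P Q R s.1 s.2.1 then KFT p q r Pc (nxs s (i + 3))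
      else K0T Pc (nxs s (i + 3))) = rH (decz (SDTs Pc (nxs s (i + 3))).K0) := by
    split_ifs
    · rw [KFT, KFN_tl hlab]
    · rfl
  rw [etg]
  have hK : OkK (SDTs Pc (nxs s (i + 3))).K0 := (hA _ hd).K0 (l4S_iff.2 (by omega))
  unfold KC.rnT at h
  simp only [andB_iff] at h
  obtain ⟨t3, tO, tE⟩ := h
  have hto := tg_or hs i
  rw [selB_iff] at hto
  have hts := tg_SDT Pc s i
  rw [selN_if] at hts
  by_cases he : i % 2 = 0
  · rw [if_pos ((evn_iff i).2 he)] at hto hts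
    rw [hts, hto, cL_eq, cL_eq] at t3 tO
    rcases Nat.eq_zero_or_pos i with h0 | h0
    · subst h0
      rw [TRs_three]
      exact lP_sound H.bp H.cx H.ix hK hN bz
        (contAll.t3 (oriZ s) L (oriZ (nxs s (0 + 3)))) (C.rg hs) (C.inb hs) t3
    · obtain ⟨r0, r1, w, hw, eT⟩ := TRs_odd (L := L) (by omega : 5 ≤ mm P Q R s.1 s.2.1) he h0 hi
      rw [eT]
      refine imp_cmb hw ?_
      refine lB_sound H.bb H.cx H.ix hK hN bz
        (contAll.od (oriZ s) L (oriZ (nxs s (i + 3)))) (C.rgR hs (by norm_num)) h19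
        (C.inbR hs r0.le ?_) ⟨hp1, hp2⟩ r1 tO
      have : (2 : ℝ) ^ 48 * Rb (mm P Q R s.1 s.2.1) (i + 2) ≤ 2 ^ 48 * (1 / 2) :=
        mul_le_mul_of_nonneg_left r1 (by norm_num)
      refine this.trans ?_
      norm_num
  · rw [if_neg (fun h' => he ((evn_iff i).1 h'))] at hto hts
    rw [hts, hto, cL_eq, cL_eq] at tE
    obtain ⟨r0, r1, w, hw, eT⟩ := TRs_even (L := L) (by omega : 4 ≤ mm P Q R s.1 s.2.1) he hi
    rw [eT]
    refine imp_cmb hw ?_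
    refine lB_sound H.bb H.cx H.ix hK hN bz
      (contAll.ev (oriZ s) L (oriZ (nxs s (i + 3)))) (C.rgR hs (le_refl _)) h19
      (C.inbR hs r0.le ?_) ⟨hp1, hp2⟩ r1 tE
    have : (2 : ℝ) ^ 48 * Rb (mm P Q R s.1 s.2.1) (i + 2) ≤ 2 ^ 48 * (2 / 3) :=
      mul_le_mul_of_nonneg_left r1 (by norm_num)
    refine this.trans ?_
    norm_num

/-- THE RUNS of a star -/
theorem rnX_sound (H : Hyp p q r P Q R b Pc x0 σ u) (hA : AllN p q r Pc) {s : GS} (hs : DG s)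
    {L : Bool} {KS : Hm ℕ} {Kz : Hm ℤ} (hN : RH KS (GR.smH (-2 ^ 138) Kz)) (bz : BH (2 ^ 27) Kz)
    {l : List (KT.Tr KT.Lf)}
    (h : KC.rnX (pX Pc) Pc.s KS (oriZ s) L (sbx b s.1 s.2.1 s.2.2) (mm p q r s.1 s.2.1) s.1 s.2.1
      s.2.2 l = true) {i : ℕ} (hi : i + 3 ≤ mm P Q R s.1 s.2.1) :
    Imp (rH Kz) (if i + 3 = mm P Q R s.1 s.2.1 then KFT p q r Pc (nxs s (i + 3))
      else K0T Pc (nxs s (i + 3))) (ap (TRs P Q R L s i) (σ * u)) := by
  unfold KC.rnX at h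
  rw [selB_iff] at h
  by_cases hM : mm p q r s.1 s.2.1 = 0
  · have hb : Nat.beq (mm p q r s.1 s.2.1) 0 = true := by rw [Nat.beq_eq]; exact hM
    rw [if_pos hb] at h
    exact runT H hA hs hN bz hM h hi
  · have hb : ¬ Nat.beq (mm p q r s.1 s.2.1) 0 = true := by rw [Nat.beq_eq]; exact hM
    rw [if_neg hb] at h
    exact runE H hA hs hN bz hM h hi

/-- the three families of runs of a state, in the shape of `FF` -/
theorem tR_sound (H : Hyp p q r P Q R b Pc x0 σ u) (hA : AllN p q r Pc) {s : GS} (hs : DG s)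
    (h : KC.tR (pX Pc) Pc.s (l4S p q r s) (ntS p q r s) (oriZ s) (SDTs Pc s)
      (sbx b s.1 s.2.1 s.2.2) (mm p q r s.1 s.2.1) s.1 s.2.1 s.2.2 = true) :
    (4 ≤ ML P Q R s → ∀ i, i + 3 ≤ mm P Q R s.1 s.2.1 →
      Imp (K0T Pc s) (if i + 3 = mm P Q R s.1 s.2.1 then KFT p q r Pc (nxs s (i + 3))
        else K0T Pc (nxs s (i + 3))) (ap (TRs P Q R false s i) (σ * u))) ∧
    (∀ i, i + 3 ≤ mm P Q R s.1 s.2.1 →
      Imp (KFT p q r Pc s) (if i + 3 = mm P Q R s.1 s.2.1 then KFT p q r Pc (nxs s (i + 3))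
        else K0T Pc (nxs s (i + 3))) (ap (TRs P Q R false s i) (σ * u))) ∧
    (∀ i, i + 3 ≤ mm P Q R s.1 s.2.1 →
      Imp (KBT Pc s) (if i + 3 = mm P Q R s.1 s.2.1 then KFT p q r Pc (nxs s (i + 3))
        else K0T Pc (nxs s (i + 3))) (ap (TRs P Q R true s i) (σ * u))) := by
  unfold KC.tR at h
  simp only [andB_iff, impB_iff] at h
  obtain ⟨h0, hF, hB⟩ := h
  refine ⟨fun h4 i hi => ?_, fun i hi => ?_, fun i hi => ?_⟩
  · exact rnX_sound H hA hs (srcN_rep _) (dec_bd _) (h0 (H.cl.l4 hs h4)) hi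
  · by_cases h : mm p q r s.1 s.2.2 = 0
    · rw [KFT, KFN_tl h]
      exact rnX_sound H hA hs (srcN_rep _) (dec_bd _) (h0 (l4S_iff.2 (by omega))) hi
    · rw [KFT, KFN_ex h]
      exact rnX_sound H hA hs (srcN_rep _) (dec_bd _) (hF (ntS_iff.2 h)) hi
  · exact rnX_sound H hA hs (srcN_rep _) (dec_bd _) hB hi

end

end Pool.Agent.Helper60.CXT
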