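import Pool.Agent.Helper60.CXT.FR1

/-!
Far cells of tail classes, row F3: the reference vectors; the easy fields of `FF`.
-/

set_option autoImplicit false
set_option exponentiation.threshold 4000
noncomputable section
namespace Pool.Agent.Helper60.CXT

open Pool.Agent.Helper6.MONO hiding fP
open Pool.Agent.Helper6.MONO.SV (UY)
open Pool.Agent.Helper6.MONO.QTR (V0 e0)
open Pool.Agent.Helper21.SUP (GS DG DG_nx)
open Pool.Agent.Helper21.SUP renaming nx → nxs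
open Pool.Agent.Helper86.CX renaming Hm → Hm, ev → hev
open Pool.Agent.Helper39.SLT (ML ML_nx)
open Pool.Agent.Helper94.CXF (M9)
open Pool.Agent.Helper94.CXF hiding cmb
open Pool.Agent.Helper94.CXF.SD
open Pool.Agent.Helper48.CXT
open Pool.Agent.Helper48.CXT.KC (okI bLo bHi sbx setR SDT PT nthD nthT pX cHT)

section
variable {p q r P Q R : ℕ} {b : KT.Bx} {Pc : PT} {x0 σ : ℝ} {u : ℂ}

theorem Hyp.ne (H : Hyp p q r P Q R b Pc x0 σ u) : ‖(σ : ℂ) * u‖ ≤ 1 / 8 := by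
  rw [norm_mul, Complex.norm_real, Real.norm_eq_abs, abs_of_nonneg H.ix.cv.s0, H.ix.cv.norm,
    mul_one]
  exact H.ix.cv.s1

theorem ref_sound' (H : Hyp p q r P Q R b Pc x0 σ u) {K : ℕ} (hK : OkK K)
    {F : ℕ → ℕ → ℕ → KT.MP} {c1 c2 c3 : ℕ} {T : ℝ → ℝ → ℝ → P9} (hF : FamP KC.idB T F c1 c2 c3)
    {v : KT.Bx} (hb : Rg v) {v1 v2 v3 ρ : ℝ} (hv : InB v v1 v2 v3 ρ) {t : KT.Tr KT.Lf}
    {f : Fin 3 → ℂ} (hc : ∃ c : ℂ, c ≠ 0 ∧ ap (T v1 v2 v3) (σ * u) ![1, 0, 0] = c • f)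
    (h : KC.lP (pX Pc) K KC.krf F c1 c2 c3 KC.idB t v = true) : 0 ≤ hev (rH (decz K)) f := by
  obtain ⟨c, c0, hc⟩ := hc
  have h1 := lP_sound H.bp H.cx H.ix hK krf_rep kref_bd hF hb hv h ![1, 0, 0] (by
    intro h0
    have := congrFun h0 0
    simp at this) (by
    simp [hev, rH, GR.mpH, krefz, cI])
  rw [hc, ev_smul] at h1
  have h2 : 0 < ‖c‖ ^ 2 := by
    have := norm_pos_iff.2 c0
    positivity
  exact ((pos_iff_pos_of_mul_pos h1).1 h2).le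

theorem ref_UYT (H : Hyp p q r P Q R b Pc x0 σ u) {K : ℕ} (hK : OkK K) {s : GS} (hs : DG s)
    (i : Fin 3) {t : KT.Tr KT.Lf}
    (h : KC.lP (pX Pc) K KC.krf (fun k h g => KN.TYN (oriZ s) k h g (aUN i) (bUN i)) 21 0 12 KC.idB
      t (sbx b s.1 s.2.1 s.2.2) = true) :
    0 ≤ hev (rH (decz K)) (fv P Q R false s (σ * u) (UY (3 / 10) 1 (1 / 128) i)) := by
  have h7 : aU i ≤ 7 / 10 := by
    fin_cases i <;> norm_num [aU]
  exact ref_sound' H hK (contAll.ty (oriZ s) (aU i) (bU i) (aUN i) (bUN i) (ap_aU i) h7 (ap_bU i))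
    (H.cl.rg hs) (H.cl.inb hs) (ref_UY H.cl.P3 H.cl.Q3 H.cl.R3 hs H.ne i) h

/-- ROW F3: the reference vectors, in the shape of `FF` -/
theorem tV_sound (H : Hyp p q r P Q R b Pc x0 σ u) (hA : AllN p q r Pc) {s : GS} (hs : DG s)
    (h : KC.tV (pX Pc) (l4S p q r s) (ntS p q r s) (oriZ s) (SDTs Pc s)
      (sbx b s.1 s.2.1 s.2.2) = true) :
    (ML P Q R s = 3 → 0 ≤ hev (KBT Pc s) (fv P Q R true s (σ * u)
      ![1, (V0.c : ℂ), (V0.d (kk P Q R s.1 s.2.2) : ℂ)])) ∧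
    (4 ≤ ML P Q R s → 0 ≤ hev (KBT Pc s) (fv P Q R true s (σ * u)
      (yL V0.al V0.be (omF (oriZ s) (lf P Q R s) (σ * u))))) ∧
    (0 ≤ hev (KFT p q r Pc s) (fv P Q R false s (σ * u) ![1, (V0.al : ℂ), (V0.be : ℂ)])) ∧
    (4 ≤ ML P Q R s → ∀ i, 0 ≤ hev (K0T Pc s) (fv P Q R false s (σ * u)
      (UY V0.al V0.be e0 i))) := by
  have C := H.cl
  unfold KC.tV at h
  simp only [andB_iff, impB_iff] at h
  obtain ⟨hs0, hF, hB⟩ := h
  have hV1 : (V0.al : ℝ) = 3 / 10 := rfl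
  have hV2 : (V0.be : ℝ) = 1 := rfl
  have y0 : (![1, (V0.al : ℂ), (V0.be : ℂ)] : Fin 3 → ℂ) = UY (3 / 10) 1 (1 / 128) 0 := by
    simp [V0, UY]
  refine ⟨fun h3 => ?_, fun h4 => ?_, ?_, fun h4 i => ?_⟩
  · rw [C.l4' hs h3] at hB
    have e : (![1, (V0.c : ℂ), (V0.d (kk P Q R s.1 s.2.2) : ℂ)] : Fin 3 → ℂ) =
        ![1, 2 / 5, 1 / 2] := by
      simp [V0]
    rw [e]
    exact ref_sound' H (hA s hs).KB (contAll.tl (oriZ s)) (C.rg hs) (C.inb hs)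
      (ref_L C.P3 C.Q3 C.R3 hs _) hB
  · rw [C.l4 hs h4] at hB
    rw [hV1, hV2]
    exact ref_sound' H (hA s hs).KB (contAll.tly (oriZ s)) (C.rg hs) (C.inb hs)
      (ref_LY C.P3 C.Q3 C.R3 hs H.ne) hB
  · rw [y0]
    by_cases h0 : mm p q r s.1 s.2.2 = 0
    · have h4 := l4S_iff.2 (by omega : mm p q r s.1 s.2.2 ≠ 3)
      rw [KFT, KFN_tl h0]
      exact ref_UYT H ((hA s hs).K0 h4) hs 0 (hs0 h4).1
    · rw [KFT, KFN_ex h0]
      exact ref_UYT H ((hA s hs).KF (ntS_iff.2 h0)) hs 0 (hF (ntS_iff.2 h0))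
  · have h4' := C.l4 hs h4
    obtain ⟨g0, g1, g2⟩ := hs0 h4'
    have e : UY V0.al V0.be e0 i = UY (3 / 10) 1 (1 / 128) i := by
      rw [hV1, hV2]
      rfl
    rw [e, K0T]
    fin_cases i
    · exact ref_UYT H ((hA s hs).K0 h4') hs 0 g0
    · exact ref_UYT H ((hA s hs).K0 h4') hs 1 g1
    · exact ref_UYT H ((hA s hs).K0 h4') hs 2 g2

/-! ### negativity -/

theorem neg0 (C : Cls p q r P Q R b) (hA : AllN p q r Pc) {s : GS} (hs : DG s)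
    (h4 : 4 ≤ ML P Q R s) : NegS (K0T Pc s) := ((hA s hs).K0 (C.l4 hs h4)).neg

theorem negF (hA : AllN p q r Pc) {s : GS} (hs : DG s) : NegS (KFT p q r Pc s) :=
  (okKF hA hs).neg

theorem negB (hA : AllN p q r Pc) {s : GS} (hs : DG s) : NegS (KBT Pc s) := (hA s hs).KB.neg

theorem neg1 (hA : AllN p q r Pc) {s : GS} (hs : DG s) (ho : oriZ s = true) :
    NegS (P1T Pc σ s) := NegS_lpf ((hA s hs).A1 ho) ((hA s hs).b1 ho)

theorem neg2 (hA : AllN p q r Pc) {s : GS} (hs : DG s) (ho : oriZ s = true) :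
    NegS (P2T Pc σ s) := NegS_lpf ((hA s hs).A2 ho) ((hA s hs).b2 ho)

/-! ### runs of two, orientation `+` -/

theorem a1f_sound (H : Hyp p q r P Q R b Pc x0 σ u) (hA : AllN p q r Pc) {s : GS} (hs : DG s)
    (h : KC.tA1 (pX Pc) (l4S p q r s) (oriZ s) (SDTs Pc s) (SDTs Pc (nxs s 2))
      (sbx b s.1 s.2.1 s.2.2) = true) (h4 : 4 ≤ ML P Q R s) (ho : oriZ s = false) :
    Imp (K0T Pc s) (KBT Pc (nxs s 2)) (ap (TNs P Q R s) (σ * u)) := by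
  unfold KC.tA1 at h
  have h := impB_iff.1 h (H.cl.l4 hs h4)
  rw [selB_iff, if_neg (by rw [ho]; decide)] at h
  rw [TNs, if_neg (by rw [ho]; decide)]
  exact lP_sound H.bp H.cx H.ix (hA _ (DG_nx s 2 hs)).KB (srcN_rep _) (dec_bd _) contAll.np
    (H.cl.rg hs) (H.cl.inb hs) h

theorem a2f_sound (H : Hyp p q r P Q R b Pc x0 σ u) (hA : AllN p q r Pc) {s : GS} (hs : DG s)
    (h : KC.tA2 (pX Pc) (l4S p q r s) (oriZ s) (SDTs Pc s) (SDTs Pc (nxs (nxs s 2) 2))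
      (sbx b s.1 s.2.1 s.2.2) = true) (h4 : 4 ≤ ML P Q R s) (ho : oriZ s = false) :
    Imp (K0T Pc s) (KBT Pc (nxs (nxs s 2) 2)) (ap (TTs P Q R s) (σ * u)) := by
  unfold KC.tA2 at h
  have h := impB_iff.1 h (H.cl.l4 hs h4)
  rw [selB_iff, if_neg (by rw [ho]; decide)] at h
  rw [TTs, if_neg (by rw [ho]; decide)]
  exact lP_sound H.bp H.cx H.ix (hA _ (DG_nx _ 2 (DG_nx s 2 hs))).KB (srcN_rep _) (dec_bd _)
    contAll.pp (H.cl.rg hs) (H.cl.inb hs) h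

theorem uf_sound (H : Hyp p q r P Q R b Pc x0 σ u) (hA : AllN p q r Pc) {s : GS} (hs : DG s)
    (h : KC.tU (pX Pc) (oriZ s) (SDTs Pc s) (SDTs Pc (nxs (nxs s 2) 2))
      (sbx b s.1 s.2.1 s.2.2) = true) (ho : oriZ s = false) :
    Imp (KBT Pc s) (KBT Pc (nxs (nxs s 2) 2)) (ap (TUs P Q R s) (σ * u)) := by
  unfold KC.tU at h
  rw [selB_iff, if_neg (by rw [ho]; decide)] at h
  rw [TUs, if_neg (by rw [ho]; decide)]
  exact lP_sound H.bp H.cx H.ix (hA _ (DG_nx _ 2 (DG_nx s 2 hs))).KB (srcN_rep _) (dec_bd _)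
    contAll.pp (H.cl.rg hs) (H.cl.inb hs) h

end

end Pool.Agent.Helper60.CXT
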