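import Pool.Agent.Helper60.CXT.FR2

/-!
Far cells of tail classes: the affine tests on a segment with a centre; the loop forms see only the
regions of `B`.
-/

set_option autoImplicit false
set_option exponentiation.threshold 4000
noncomputable section
namespace Pool.Agent.Helper60.CXT

open Pool.Agent.Helper6.MONO hiding fP
open Pool.Agent.Helper21.SUP (GS DG DG_nx)
open Pool.Agent.Helper21.SUP renaming nx → nxs
open Pool.Agent.Helper86.CX renaming Hm → Hm, ev → hev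
open Pool.Agent.Helper39.SLT (ML ML_nx)
open Pool.Agent.Helper94.CXF (M9)
open Pool.Agent.Helper94.CXF hiding cmb
open Pool.Agent.Helper94.CXF.SD
open Pool.Agent.Helper48.CXT
open Pool.Agent.Helper48.CXT.KC (okI bLo bHi sbx setR SDT PT nthD nthT pX cHT)

theorem affT {xc x0 σ : ℝ} {u : ℂ} {X : KT.Cx} (hX : CxOk xc X) (hi : InX xc X x0 σ u)
    {V0 V1 H0 H1 : Hm ℕ} {V0z V1z H0z H1z : Hm ℤ} (a : RH V0 V0z) (b : RH V1 V1z) (c : RH H0 H0z)
    (f : RH H1 H1z) (a' : BH (2 ^ 140) V0z) (b' : BH (2 ^ 140) V1z) (c' : BH (2 ^ 27) H0z)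
    (f' : BH (2 ^ 27) H1z) {t : List ℕ} (h : KN.aff X.ns X.k X.e t V0 V1 H0 H1 = true)
    (x : Fin 3 → ℂ) (hH : 0 ≤ hev (rH H0z) x + σ * hev (rH H1z) x) :
    2 ^ 96 * nr x ≤ hev (rH V0z) x + σ * hev (rH V1z) x := by
  unfold KN.aff at h
  refine chs_sound (x0 := xc) (Q := fun s => 0 ≤ hev (rH H0z) x + s * hev (rH H1z) x →
    2 ^ 96 * nr x ≤ hev (rH V0z) x + s * hev (rH V1z) x) hX.ns ?_ ?_ t _ hX.st h hX.lt σ
    hi.s0 hi.s1 hH
  · intro k0 k1 l hc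
    unfold KN.c2 at hc
    simp only [andB_iff] at hc
    exact Nat.le_of_ble_eq_true hc.2.1
  · rintro k0 k1 l ⟨u0, h0⟩ ⟨u1, h1⟩ hc s s0 s1 hH
    exact c2_sound a b c f a' b' c' f' h0 h1 hc s0 s1 x hH

theorem iT_sound {xc x0 σ : ℝ} {u : ℂ} {X : KT.Cx} (hX : CxOk xc X) (hi : InX xc X x0 σ u)
    {K A B : ℕ} {t : List ℕ}
    (h : KN.aff X.ns X.k X.e t (KN.smH KN.p96 (KN.dec K)) KN.z9N (KN.dec A) (KN.dec B) = true)
    (x : Fin 3 → ℂ) (hx : 0 ≤ hev (lpf A B σ) x) : 0 ≤ hev (rH (decz K)) x := by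
  rw [hev_lpf] at hx
  have M := affT hX hi (smH_rep p96_rep (dec_rep K)) z9N_rep (dec_rep A) (dec_rep B)
    ((smH_bd (r := 2 ^ 96) (by norm_num) (dec_bd K)).mono (by norm_num)) (z9_bd (by norm_num))
    (dec_bd A) (dec_bd B) h x hx
  rw [hev_z9Z, mul_zero, add_zero, hev_sm'] at M
  push_cast at M
  have n0 := nr_nonneg x
  have h2 := le_trans (mul_nonneg (by positivity) n0) M
  exact nonneg_of_mul_nonneg_right h2 (by norm_num)

section
variable {p q r P Q R : ℕ} {b : KT.Bx} {Pc : PT} {x0 σ : ℝ} {u : ℂ}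

/-- the fields `i1`, `i2` of `FF` -/
theorem tI_sound (H : Hyp p q r P Q R b Pc x0 σ u) {s : GS}
    (h : KC.tI (pX Pc) (oriZ s) (SDTs Pc s) = true) (ho : oriZ s = true) :
    (∀ x, x 0 ≠ 0 → 0 ≤ hev (P1T Pc σ s) x → 0 ≤ hev (KBT Pc s) x) ∧
    (∀ x, x 0 ≠ 0 → 0 ≤ hev (P2T Pc σ s) x → 0 ≤ hev (KBT Pc s) x) := by
  unfold KC.tI at h
  have h := andB_iff.1 (impB_iff.1 h ho)
  exact ⟨fun x _ hx => iT_sound H.cx H.ix h.1 x hx, fun x _ hx => iT_sound H.cx H.ix h.2 x hx⟩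

end

end Pool.Agent.Helper60.CXT
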