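import Pool.Agent.Helper94.CXT.FIN1
import Pool.Agent.Helper12.CX.THR

/-!
Far cells of tail classes, row F7: from the checks of a class to the far cell.
-/

set_option autoImplicit false
set_option exponentiation.threshold 4000
noncomputable section
namespace Pool.Agent.Helper60.CXT

open Pool.Agent.Helper6.MONO hiding fP
open Pool.Agent.Helper6.MONO.QTR (V0 e0 Far far_of_eps)
open Pool.Agent.Helper21.SUP (GS DG DG_nx)
open Pool.Agent.Helper21.SUP renaming nx → nxs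
open Pool.Agent.Helper86.CX renaming Hm → Hm, ev → hev
open Pool.Agent.Helper39.SLT (ML ML_nx)
open Pool.Agent.Helper94.CXF (M9)
open Pool.Agent.Helper94.CXF hiding cmb
open Pool.Agent.Helper94.CXF.SD
open Pool.Agent.Helper48.CXT
open Pool.Agent.Helper48.CXT.KC (okI bLo bHi sbx setR SDT PT nthD nthT pX cHT rtB loL hiL)
open Pool.Agent.Helper94.CXT (BdT BdT_ex BdT_all)

/-! ### the curve -/

theorem cv_lt {x0 y : ℝ} {e : ℂ} (hy : 8 ≤ y) (h0 : e ≠ 0) (h1 : ‖e‖ ≤ 1)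
    (h : e⁻¹ + e = (x0 : ℂ) + (y : ℂ) * Complex.I) : ‖e‖ < 253 / 2048 := by
  have n0 : 0 < ‖e‖ := norm_pos_iff.2 h0
  have hinv : e⁻¹ = (starRingEnd ℂ) e / (‖e‖ ^ 2 : ℝ) := by
    rw [Complex.inv_def, Complex.normSq_eq_norm_sq]
    push_cast
    rw [div_eq_mul_inv]
  have him2 := congrArg Complex.im h
  rw [hinv] at him2
  simp only [Complex.add_im, Complex.div_ofReal_im, Complex.conj_im, Complex.ofReal_re,
    Complex.ofReal_im, Complex.mul_im, Complex.I_re, Complex.I_im] at him2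
  have him' : -e.im * (1 - ‖e‖ ^ 2) = y * ‖e‖ ^ 2 := by
    have : -e.im / ‖e‖ ^ 2 + e.im = y := by linarith
    field_simp at this
    linarith
  have a1 : -e.im ≤ ‖e‖ := (neg_le_abs _).trans (Complex.abs_im_le_norm e)
  have a2 : 0 ≤ 1 - ‖e‖ ^ 2 := by nlinarith
  have a3 : y * ‖e‖ ^ 2 ≤ ‖e‖ * (1 - ‖e‖ ^ 2) := by
    rw [← him']
    exact mul_le_mul_of_nonneg_right a1 a2
  have a4 : y * ‖e‖ ≤ 1 - ‖e‖ ^ 2 := by
    have : (y * ‖e‖) * ‖e‖ ≤ (1 - ‖e‖ ^ 2) * ‖e‖ := by nlinarith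
    exact le_of_mul_le_mul_right this n0
  by_contra hc
  rw [not_lt] at hc
  nlinarith

/-! ### lists and trees -/

theorem cvT_sound : ∀ (l : List PT) (i : ℕ), KC.cvT l i = true → ∀ s : ℝ,
    (i : ℝ) / 2048 ≤ s → s < 253 / 2048 → ∃ P ∈ l, ((KN.nthN P.ns P.i0).i : ℝ) / 2048 ≤ s ∧
      s ≤ ((KN.nthN P.ns P.i1).i : ℝ) / 2048 := by
  intro l
  induction l with
  | nil =>
    intro i h s h0 h1
    have h' : 253 ≤ i := Nat.le_of_ble_eq_true h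
    have : (253 : ℝ) ≤ i := by exact_mod_cast h'
    linarith
  | cons P l ih =>
    intro i h s h0 h1
    have h' : KN.andB (Nat.ble (KN.nthN P.ns P.i0).i i) (KC.cvT l (KN.nthN P.ns P.i1).i) = true :=
      h
    rw [andB_iff] at h'
    obtain ⟨a, b⟩ := h'
    have a : (KN.nthN P.ns P.i0).i ≤ i := Nat.le_of_ble_eq_true a
    have a' : ((KN.nthN P.ns P.i0).i : ℝ) ≤ i := by exact_mod_cast a
    rcases le_or_gt s (((KN.nthN P.ns P.i1).i : ℝ) / 2048) with h2 | h2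
    · exact ⟨P, List.mem_cons_self, by linarith, h2⟩
    · obtain ⟨Q, hQ, hr⟩ := ih _ b s h2.le h1
      exact ⟨Q, List.mem_cons_of_mem _ hQ, hr⟩

theorem cLT_sound {p q r : ℕ} {b : KT.Bx} : ∀ (l : List PT), KC.cLT p q r l b = true →
    ∀ P ∈ l, KC.cPT p q r b P = true := by
  intro l
  induction l with
  | nil => intro _ n hn; exact absurd hn List.not_mem_nil
  | cons P l ih =>
    intro h n hn
    have h' : KN.andB (KC.cPT p q r b P) (KC.cLT p q r l b) = true := h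
    rw [andB_iff] at h'
    rcases List.mem_cons.1 hn with h1 | h1
    · rw [h1]
      exact h'.1
    · exact ih h'.2 n h1

theorem cCT_sound {p q r : ℕ} {t : KT.Tr (List PT)} {b : KT.Bx} (h : KC.cCT p q r t b = true)
    (ob : OrB b) {v1 v2 v3 ρ : ℝ} (hv : InB b v1 v2 v3 ρ) :
    ∃ b' l, KC.cvT l 0 = true ∧ (∀ P ∈ l, KC.cPT p q r b' P = true) ∧ Got b' b v1 v2 v3 ρ := by
  unfold KC.cCT at h
  obtain ⟨b', l, hl, g⟩ := trev_sound t h ob hv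
  rw [andB_iff] at hl
  exact ⟨b', l, hl.1, cLT_sound l hl.2, g⟩

/-! ### labels at the root -/

/-- label `l` of the order `M` -/
def LabO (l M : ℕ) : Prop := (l = 0 ∧ 10 ≤ M) ∨ (3 ≤ l ∧ l ≤ 9 ∧ M = l)

theorem kp10 : (535397221549391 : ℝ) ≤ 2 ^ 48 * Kp 10 := by
  have h5 := Real.cos_pi_div_five
  have e : Real.cos (Real.pi / 5) = 2 * Real.cos (Real.pi / 10) ^ 2 - 1 := by
    have : Real.pi / 5 = 2 * (Real.pi / 10) := by ring
    rw [this, Real.cos_two_mul]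
  have s5 : (2.23606797749978969 : ℝ) ≤ √5 := by
    apply Real.le_sqrt_of_sq_le
    norm_num
  have hc : 0 ≤ Real.cos (Real.pi / 10) := by
    apply Real.cos_nonneg_of_mem_Icc
    constructor <;> linarith [Real.pi_pos]
  have hk : Kp 10 = 2 * Real.cos (Real.pi / 10) := by
    rw [Kp]
    push_cast
    rfl
  rw [hk]
  have h2 : (4 * (2 ^ 48) ^ 2) * Real.cos (Real.pi / 10) ^ 2 = 2 ^ 96 * ((5 + √5) / 2) := by
    rw [h5] at e
    nlinarith
  have h3 : (535397221549391 : ℝ) ^ 2 ≤ (2 ^ 48 * (2 * Real.cos (Real.pi / 10))) ^ 2 := by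
    have : (2 ^ 48 * (2 * Real.cos (Real.pi / 10))) ^ 2 =
        (4 * (2 ^ 48) ^ 2) * Real.cos (Real.pi / 10) ^ 2 := by ring
    rw [this, h2]
    have : (2 : ℝ) ^ 96 * ((5 + 2.23606797749978969) / 2) ≤ 2 ^ 96 * ((5 + √5) / 2) := by
      apply mul_le_mul_of_nonneg_left _ (by positivity)
      linarith
    refine le_trans ?_ this
    norm_num
  exact le_of_sq_le_sq h3 (by positivity)

theorem LabO.root {l M : ℕ} (h : LabO l M) : 3 ≤ M ∧ loL l ≤ hiL l ∧ InV (loL l) (hiL l) (Kp M) ∧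
    (l ≠ 0 → M = l) ∧ (l = 0 → 10 ≤ M ∧ PrV (loL l) (hiL l) (Kp M)) := by
  rcases h with ⟨h0, h1⟩ | ⟨h3, h9, hM⟩
  · subst h0
    have p1 : (535397221549391 : ℝ) ≤ 2 ^ 48 * Kp M :=
      kp10.trans (mul_le_mul_of_nonneg_left (Kp_mono (by norm_num) h1) (by positivity))
    have p2 : 2 ^ 48 * Kp M ≤ (562949953421312 : ℝ) := by
      have := (Kp_lt2 M (by omega)).le
      linarith
    have e1 : loL 0 = 535397221549391 := rfl
    have e2 : hiL 0 = 562949953421312 := rfl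
    rw [e1, e2]
    refine ⟨by omega, by norm_num, Or.inr ⟨by exact_mod_cast p1, by exact_mod_cast p2⟩,
      fun h => absurd rfl h, fun _ => ⟨h1, by exact_mod_cast p1, by exact_mod_cast p2⟩⟩
  · subst hM
    have hb : Nat.beq M 0 = false := by
      cases hq : Nat.beq M 0 with
      | false => rfl
      | true => exact absurd (Nat.eq_of_beq_eq_true hq) (by omega)
    have e1 : loL M = KN.nth KN.tk M := by
      rw [loL, hb]; rfl
    have e2 : hiL M = KN.nth KN.tk M := by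
      rw [hiL, hb]; rfl
    rw [e1, e2]
    exact ⟨h3, le_rfl, Or.inl ⟨rfl, tab_k h3 h9⟩, fun _ => rfl, fun h => by omega⟩

/-- the class at a leaf of the tree -/
theorem cls_leaf {p q r P Q R : ℕ} {b0 : KT.Bx} (C : Cls p q r P Q R b0) {b : KT.Bx} {Pc : PT}
    {ρ : ℝ} (g : Got b b0 (Kp P) (Kp Q) (Kp R) ρ) (hc : CHT p q r b Pc) : Cls p q r P Q R b :=
  ⟨⟨hc.o1, C.h1.ex, fun h => ⟨(C.h1.tl h).1, g.p1 (C.h1.tl h).2⟩⟩,
    ⟨hc.o2, C.h2.ex, fun h => ⟨(C.h2.tl h).1, g.p2 (C.h2.tl h).2⟩⟩,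
    ⟨hc.o3, C.h3.ex, fun h => ⟨(C.h3.tl h).1, g.p3 (C.h3.tl h).2⟩⟩⟩

theorem okI_rt {l M : ℕ} (h : LabO l M) : okI l (loL l) (hiL l) = true := by
  rcases h with ⟨h0, -⟩ | ⟨h3, h9, -⟩
  · subst h0
    decide +kernel
  · interval_cases l <;> decide +kernel

/-- the class of the full box of the labels -/
theorem cls_rt {p q r P Q R : ℕ} (X0 X1 : ℕ) (hP : LabO p P) (hQ : LabO q Q) (hR : LabO r R) :
    Cls p q r P Q R (rtB p q r X0 X1) :=
  ⟨⟨okI_rt hP, hP.root.2.2.2.1, hP.root.2.2.2.2⟩, ⟨okI_rt hQ, hQ.root.2.2.2.1, hQ.root.2.2.2.2⟩,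
    ⟨okI_rt hR, hR.root.2.2.2.1, hR.root.2.2.2.2⟩⟩

/-! ### the far cell -/

/-- the statement of row F6 -/
def FFst : Prop := ∀ {p q r P Q R : ℕ} {b : KT.Bx} {Pc : PT} {x0 σ : ℝ} {u : ℂ} {C : ℝ},
  Hyp p q r P Q R b Pc x0 σ u → (∀ s, DG s → KC.cST p q r b Pc s.1 s.2.1 s.2.2 = true) →
  BdT p q r P Q R Pc C → FF P Q R V0 e0 (σ * u) C (K0T Pc) (KFT p q r Pc) (KBT Pc) (P1T Pc σ)
    (P2T Pc σ)

/-- THE FAR CELL from the checks of a tail class -/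
theorem far_of_cCT (bp : BoxP) (bb : BoxB) (ff : FFst) {p q r P Q R : ℕ} {b0 : KT.Bx}
    (C0 : Cls p q r P Q R b0) {t : KT.Tr (List PT)} (h : KC.cCT p q r t b0 = true) {x0 : ℝ}
    (hx0 : (b0.r0 : ℝ) ≤ 2 ^ 48 * x0 + 2 ^ 50) (hx1 : 2 ^ 48 * x0 + 2 ^ 50 ≤ b0.r1) (h2 : -2 < x0)
    (h2' : x0 ≤ 2) : Far P Q R x0 8 := by
  have habs : |x0| ≤ 2 := abs_le.2 ⟨h2.le, h2'⟩
  have e4 : (2 : ℝ) ^ 48 * (x0 + 4) = 2 ^ 48 * x0 + 2 ^ 50 := by ring
  have rP := C0.h1.s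
  have rQ := C0.h2.s
  have rR := C0.h3.s
  have hX : b0.r0 ≤ b0.r1 := by
    have : (b0.r0 : ℝ) ≤ b0.r1 := hx0.trans hx1
    exact_mod_cast this
  have ob : OrB b0 := ⟨rP.ab, rQ.ab, rR.ab, hX⟩
  have hv : InB b0 (Kp P) (Kp Q) (Kp R) (x0 + 4) :=
    ⟨rP.inv, rQ.inv, rR.inv, by rw [e4]; exact hx0, by rw [e4]; exact hx1⟩
  obtain ⟨b, l, hcv, hl, g⟩ := cCT_sound h ob hv
  have b0' : (b.r0 : ℝ) ≤ 2 ^ 48 * x0 + 2 ^ 50 := by rw [← e4]; exact g.inb.r0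
  have b1' : 2 ^ 48 * x0 + 2 ^ 50 ≤ (b.r1 : ℝ) := by rw [← e4]; exact g.inb.r1
  have hl' := fun Pc hPc => cPT_sound (hl Pc hPc)
  have hcls : ∀ Pc ∈ l, Cls p q r P Q R b := fun Pc hPc => cls_leaf C0 g (hl' Pc hPc).1
  obtain ⟨C, c0, hC⟩ := BdT_all (p := p) (q := q) (r := r) (P := P) (Q := Q) (R := R) l
    fun Pc hPc => BdT_ex (hcls Pc hPc) (allN_of (hl' Pc hPc).2)
  refine far_of_eps h2 h2' (20 * (1 + 2 * C)) fun ε hε => ?_
  obtain ⟨s, u, hs, hcu, he⟩ : ∃ (s : ℝ) (u : ℂ), s < 253 / 2048 ∧ Cv x0 s u ∧ ε = s * u := by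
    rcases hε with h0 | ⟨y, hy, h0, h1, him, hxy⟩
    · exact ⟨0, -Complex.I, by norm_num, cv_zero x0, by rw [h0]; simp⟩
    · exact ⟨_, _, cv_lt hy h0 h1 hxy, cv_of hy h0 h1 him hxy⟩
  have i0 : ((0 : ℕ) : ℝ) / 2048 ≤ s := by simpa using hcu.s0
  obtain ⟨Pc, hPc, s0, s1⟩ := cvT_sound l 0 hcv s i0 hs
  have hch := (hl' Pc hPc).1
  have H : Hyp p q r P Q R b Pc x0 s u :=
    ⟨bp, bb, hcls Pc hPc, hch.cx, inx_of hch b0' b1' habs hcu s0 s1⟩
  have F := ff H (hl' Pc hPc).2 (hC Pc hPc)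
  have hn : ‖ε‖ ≤ 1 / 8 := by rw [he]; exact H.ne
  have h1 : 1 + ε ≠ 0 := by
    intro h0
    have : ε = -1 := by linear_combination h0
    rw [this, norm_neg, norm_one] at hn
    norm_num at hn
  have hw := ew_w h1
  have h3 : 1 + (1 - ε) / (1 + ε) ≠ 0 := by
    have e : 1 + (1 - ε) / (1 + ε) = 2 / (1 + ε) := by
      field_simp
      ring
    rw [e]
    exact div_ne_zero (by norm_num) h1
  rw [← he, ← hw] at F
  exact F.gcert rP.m3 rQ.m3 rR.m3 c0 h3 (by rw [hw]; exact hn)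

end Pool.Agent.Helper60.CXT
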